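import Pool.Agent.Lib.MP_0cb87d_ag.Stmts

/-! Module A1: the determinant ideal of a product of lattices of row vectors. -/

namespace Pool.Agent.Lib.MP0cb87d

namespace A1aux

/-- A matrix all of whose rows have support in one of the two blocks. -/
private lemma det_mem {R : Subring ℂ} {α β : Type} [Fintype α] [DecidableEq α] [Fintype β]
    [DecidableEq β] (S : Submodule R (α → ℂ)) (S' : Submodule R (β → ℂ))
    (N : Matrix (α ⊕ β) (α ⊕ β) ℂ) (s : Finset (α ⊕ β))
    (h1 : ∀ i ∈ s, (fun a => N i (Sum.inl a)) ∈ S) (h2 : ∀ i ∈ s, ∀ b, N i (Sum.inr b) = 0)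
    (h3 : ∀ i ∉ s, (fun b => N i (Sum.inr b)) ∈ S') (h4 : ∀ i ∉ s, ∀ a, N i (Sum.inl a) = 0) :
    N.det ∈ detIdeal S * detIdeal S' := by
  classical
  by_cases h : ∃ τ : Equiv.Perm (α ⊕ β), (∀ a, τ (Sum.inl a) ∈ s) ∧ ∀ b, τ (Sum.inr b) ∉ s
  · obtain ⟨τ, ha, hb⟩ := h
    have hblock : N.submatrix τ id = Matrix.fromBlocks
        (Matrix.of fun a a' => N (τ (Sum.inl a)) (Sum.inl a')) 0 0
        (Matrix.of fun b b' => N (τ (Sum.inr b)) (Sum.inr b')) := by
      ext i j
      rcases i with a | b <;> rcases j with a' | b'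
      · simp
      · simpa using h2 _ (ha a) b'
      · simpa using h4 _ (hb b) a'
      · simp
    have hdet := Matrix.det_permute τ N
    rw [hblock, Matrix.det_fromBlocks_zero₂₁] at hdet
    have hmem : (Matrix.of fun a a' => N (τ (Sum.inl a)) (Sum.inl a')).det *
        (Matrix.of fun b b' => N (τ (Sum.inr b)) (Sum.inr b')).det ∈
          detIdeal S * detIdeal S' := by
      refine Submodule.mul_mem_mul (Submodule.subset_span ⟨_, fun a => ?_, rfl⟩)
        (Submodule.subset_span ⟨_, fun b => ?_, rfl⟩)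
      · exact h1 _ (ha a)
      · exact h3 _ (hb b)
    rw [hdet] at hmem
    rcases Int.units_eq_one_or (Equiv.Perm.sign τ) with hs | hs
    · simpa [hs] using hmem
    · simpa [hs] using hmem
  · rw [Matrix.det_apply]
    rw [Finset.sum_eq_zero]
    · exact Submodule.zero_mem _
    · intro σ _
      have hσ : ∃ i, N (σ i) i = 0 := by
        by_contra hne
        push Not at hne
        apply h
        refine ⟨σ, fun a => ?_, fun b hb => ?_⟩
        · by_contra hc
          exact hne (Sum.inl a) (h4 _ hc a)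
        · exact hne (Sum.inr b) (h2 _ hb b)
      obtain ⟨i, hi⟩ := hσ
      have h0 : ∏ i, N (σ i) i = 0 := Finset.prod_eq_zero (Finset.mem_univ i) hi
      exact (congrArg (fun z => Equiv.Perm.sign σ • z) h0).trans (smul_zero _)

end A1aux

theorem stA1 : StA1 := by
  intro R α β _ _ _ _ S S'
  apply le_antisymm
  · refine Submodule.span_le.2 ?_
    rintro _ ⟨M, hM, rfl⟩
    have hrow : ∀ i, (fun a => M i (Sum.inl a)) ∈ S ∧ (fun b => M i (Sum.inr b)) ∈ S' := by
      intro i
      exact hM i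
    set p : α ⊕ β → α ⊕ β → ℂ := fun i => Sum.elim (fun a => M i (Sum.inl a)) 0 with hp
    set q : α ⊕ β → α ⊕ β → ℂ := fun i => Sum.elim 0 (fun b => M i (Sum.inr b)) with hq
    have hMpq : (M : α ⊕ β → α ⊕ β → ℂ) = p + q := by
      funext i j
      rcases j with a | b <;> simp [p, q]
    have hdet : M.det = ∑ s : Finset (α ⊕ β), Matrix.det (s.piecewise p q) := by
      have := MultilinearMap.map_add_univ
        (Matrix.detRowAlternating (R := ℂ) (n := α ⊕ β)).toMultilinearMap p q
      rw [← hMpq] at this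
      exact this
    rw [SetLike.mem_coe, hdet]
    refine Submodule.sum_mem _ fun s _ => ?_
    refine A1aux.det_mem S S' _ s ?_ ?_ ?_ ?_
    · intro i hi
      simpa [Finset.piecewise_eq_of_mem _ _ _ hi, p] using (hrow i).1
    · intro i hi b
      simp [Finset.piecewise_eq_of_mem _ _ _ hi, p]
    · intro i hi
      simpa [Finset.piecewise_eq_of_notMem _ _ _ hi, q] using (hrow i).2
    · intro i hi a
      simp [Finset.piecewise_eq_of_notMem _ _ _ hi, q]
  · unfold detIdeal
    rw [Submodule.span_mul_span]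
    refine Submodule.span_le.2 ?_
    rintro _ ⟨_, ⟨C, hC, rfl⟩, _, ⟨C', hC', rfl⟩, rfl⟩
    refine Submodule.subset_span ⟨Matrix.fromBlocks C 0 0 C', ?_, ?_⟩
    · intro i
      rcases i with a | b
      · exact ⟨hC a, S'.zero_mem⟩
      · exact ⟨S.zero_mem, hC' b⟩
    · simp [Matrix.det_fromBlocks_zero₂₁]

end Pool.Agent.Lib.MP0cb87d
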