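import Pool.Agent.Lib.MP_0cb87d_ag.Stmts

/-! Module A2: the determinant ideal of a power. -/

namespace Pool.Agent.Lib.MP0cb87d

namespace A2aux

/-- The reindexing `ι ⊕ (Fin m × ι) ≃ Fin (m + 1) × ι`. -/
def sigma (ι : Type) (m : ℕ) : ι ⊕ (Fin m × ι) ≃ Fin (m + 1) × ι where
  toFun := Sum.elim (fun j => (0, j)) (fun p => (p.1.succ, p.2))
  invFun := fun p => Fin.cases (motive := fun _ => ι ⊕ (Fin m × ι)) (Sum.inl p.2)
    (fun i => Sum.inr (i, p.2)) p.1
  left_inv := by
    rintro (j | ⟨i, j⟩) <;> simp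
  right_inv := by
    rintro ⟨i, j⟩
    refine Fin.cases ?_ (fun i => ?_) i <;> simp

lemma powRows_succ {R : Subring ℂ} {ι : Type} (m : ℕ) (S : Submodule R (ι → ℂ)) :
    powRows (m + 1) S
      = (prodRows S (powRows m S)).comap (LinearMap.funLeft R ℂ (sigma ι m)) := by
  ext x
  simp only [powRows, prodRows, Submodule.mem_iInf, Submodule.mem_comap, Submodule.mem_inf]
  rw [Fin.forall_fin_succ]
  exact Iff.rfl

end A2aux

theorem stA2 (h1 : StA1) (h3 : StA3) : StA2 := by
  intro R ι _ _ m S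
  induction m with
  | zero =>
    rw [pow_zero, Submodule.one_eq_span]
    unfold detIdeal
    congr 1
    ext c
    simp only [Set.mem_ofPred_eq, Set.mem_singleton_iff]
    constructor
    · rintro ⟨C, -, rfl⟩
      exact Matrix.det_isEmpty
    · rintro rfl
      refine ⟨1, fun i => (IsEmpty.false i).elim, by simp⟩
  | succ m ih =>
    rw [A2aux.powRows_succ, h3 R _ _ (A2aux.sigma ι m), h1, ih, pow_succ']

end Pool.Agent.Lib.MP0cb87d
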