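import Pool.Agent.Lib.MP_0cb87d_ag.Stmts

/-! Reindexing and change of basis for determinant ideals. -/

namespace Pool.Agent.Lib.MP0cb87d

namespace A3aux

theorem det_mem {R : Subring ℂ} {ι : Type} [Fintype ι] [DecidableEq ι] {S : Submodule R (ι → ℂ)}
    {C : Matrix ι ι ℂ} (h : ∀ i, C i ∈ S) : C.det ∈ detIdeal S :=
  Submodule.subset_span ⟨C, h, rfl⟩

theorem detIdeal_le {R : Subring ℂ} {ι : Type} [Fintype ι] [DecidableEq ι]
    {S : Submodule R (ι → ℂ)} {T : Submodule R ℂ}
    (h : ∀ C : Matrix ι ι ℂ, (∀ i, C i ∈ S) → C.det ∈ T) : detIdeal S ≤ T := by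
  refine Submodule.span_le.mpr ?_
  rintro c ⟨C, hC, rfl⟩
  exact h C hC

end A3aux

open A3aux

theorem stA3 : StA3 := by
  intro R ι κ _ _ _ _ σ S
  refine le_antisymm (detIdeal_le fun C hC => ?_) (detIdeal_le fun C hC => ?_)
  · have h : (C.submatrix σ σ).det ∈ detIdeal S := det_mem fun i => by
      have := hC (σ i)
      rw [Submodule.mem_comap] at this
      exact this
    rwa [Matrix.det_submatrix_equiv_self] at h
  · have h : (C.submatrix σ.symm σ.symm).det ∈
        detIdeal (S.comap (LinearMap.funLeft R ℂ σ)) := det_mem fun k => by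
      rw [Submodule.mem_comap]
      have e : LinearMap.funLeft R ℂ σ ((C.submatrix σ.symm σ.symm) k) = C (σ.symm k) := by
        funext i
        simp [LinearMap.funLeft_apply, Matrix.submatrix_apply]
      rw [e]
      exact hC _
    rwa [Matrix.det_submatrix_equiv_self] at h

theorem stA4 : StA4 := by
  intro R ι _ _ S S' P hP hS
  have hu : IsUnit P.det := isUnit_iff_ne_zero.mpr hP
  refine le_antisymm (detIdeal_le fun C hC => ?_) ?_
  · have hrow : ∀ i, (C * P⁻¹) i ∈ S' := fun i => by
      rw [hS]
      have e : Matrix.vecMul ((C * P⁻¹) i) P = C i := by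
        have h1 : (C * P⁻¹ * P) i = C i := by rw [Matrix.nonsing_inv_mul_cancel_right P C hu]
        rw [← h1]
        rfl
      rw [e]
      exact hC i
    have hdet : C.det = P.det * (C * P⁻¹).det := by
      have h1 : (C * P⁻¹ * P).det = C.det := by rw [Matrix.nonsing_inv_mul_cancel_right P C hu]
      rw [← h1, Matrix.det_mul _ P, mul_comm]
    rw [hdet]
    exact Submodule.mul_mem_mul (Submodule.mem_span_singleton_self _) (det_mem hrow)
  · rw [detIdeal, Submodule.span_mul_span]
    refine Submodule.span_le.mpr ?_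
    rintro c ⟨a, ha, b, ⟨C, hC, rfl⟩, rfl⟩
    rw [Set.mem_singleton_iff] at ha
    subst ha
    have h : (C * P).det ∈ detIdeal S := det_mem fun i => by
      have := (hS (C i)).mp (hC i)
      exact this
    rw [Matrix.det_mul, mul_comm] at h
    exact h

end Pool.Agent.Lib.MP0cb87d
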