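import Pool.Agent.Lib.MP_0cb87d_ag.Stmts

/-! Module A5: a finitely generated lattice has a finitely generated determinant ideal. -/

namespace Pool.Agent.Lib.MP0cb87d

open TensorProduct

namespace A5aux

lemma det_mem {R : Subring ℂ} {ι : Type} [Fintype ι] [DecidableEq ι] (t : Set (ι → ℂ))
    (I : Submodule R ℂ) (h0 : ∀ C : Matrix ι ι ℂ, (∀ i, C i ∈ t) → C.det ∈ I) (s : Finset ι) :
    ∀ C : Matrix ι ι ℂ, (∀ i, C i ∈ Submodule.span R t) → (∀ i, i ∉ s → C i ∈ t) →
      C.det ∈ I := by
  induction s using Finset.induction_on with
  | empty => exact fun C _ h => h0 C fun i => h i (Finset.notMem_empty i)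
  | insert a s ha ih =>
    intro C hC h
    have key : ∀ v ∈ Submodule.span R t, (C.updateRow a v).det ∈ I := by
      intro v hv
      induction hv using Submodule.span_induction with
      | mem x hx =>
        refine ih _ (fun i => ?_) fun i hi => ?_
        · by_cases hia : i = a
          · subst hia
            rw [Matrix.updateRow_self]
            exact Submodule.subset_span hx
          · rw [Matrix.updateRow_ne hia]
            exact hC i
        · by_cases hia : i = a
          · subst hia
            rw [Matrix.updateRow_self]
            exact hx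
          · rw [Matrix.updateRow_ne hia]
            exact h i fun h' => (Finset.mem_insert.mp h').elim hia hi
      | zero =>
        rw [Matrix.det_eq_zero_of_row_eq_zero a (fun j => by rw [Matrix.updateRow_self]; rfl)]
        exact I.zero_mem
      | add x y _ _ hx hy =>
        rw [Matrix.det_updateRow_add]
        exact I.add_mem hx hy
      | smul r x _ hx =>
        have e : r • x = (r : ℂ) • x := rfl
        rw [e, Matrix.det_updateRow_smul]
        exact I.smul_mem r hx
    have := key (C a) (hC a)
    rwa [Matrix.updateRow_eq_self] at this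

end A5aux

theorem stA5 : StA5 := by
  intro R ι _ _ S hS
  obtain ⟨t, rfl⟩ := hS
  have hfin : (Set.range fun g : ι → t => (Matrix.of fun i => (g i : ι → ℂ)).det).Finite :=
    Set.finite_range _
  have e : detIdeal (Submodule.span R (t : Set (ι → ℂ))) =
      Submodule.span R (Set.range fun g : ι → t => (Matrix.of fun i => (g i : ι → ℂ)).det) := by
    apply le_antisymm
    · refine Submodule.span_le.mpr ?_
      rintro c ⟨C, hC, rfl⟩
      refine A5aux.det_mem (t : Set (ι → ℂ)) _ (fun C hC => ?_) Finset.univ C hC
        fun i hi => absurd (Finset.mem_univ i) hi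
      exact Submodule.subset_span ⟨fun i => ⟨C i, hC i⟩, rfl⟩
    · refine Submodule.span_le.mpr ?_
      rintro c ⟨g, rfl⟩
      exact Submodule.subset_span ⟨_, fun i => Submodule.subset_span (g i).2, rfl⟩
  rw [e]
  exact ⟨hfin.toFinset, by rw [Set.Finite.coe_toFinset]⟩

end Pool.Agent.Lib.MP0cb87d
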