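import Pool.Agent.Lib.MP_0cb87d_ag.Stmts

/-! Finitely generated fractional ideals of Dedekind subrings of `ℂ` are invertible. -/

namespace Pool.Agent.Lib.MP0cb87d

namespace A6aux

/-- The image of an ideal in `ℂ`. -/
theorem coe_comap {R : Subring ℂ} (P : Submodule R ℂ) (h : ∀ c ∈ P, ∃ s : R, c = s) :
    IsLocalization.coeSubmodule ℂ (P.comap (Algebra.linearMap R ℂ)) = P := by
  ext x
  rw [IsLocalization.mem_coeSubmodule]
  constructor
  · rintro ⟨s, hs, rfl⟩
    exact hs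
  · intro hx
    obtain ⟨s, rfl⟩ := h x hx
    exact ⟨s, hx, rfl⟩

end A6aux

theorem stA6 : StA6 := by
  rintro R hR I - hne ⟨r, hr0, hr⟩
  have hP : ∀ c ∈ Submodule.span R {(r : ℂ)} * I, ∃ s : R, c = s := by
    intro c hc
    obtain ⟨z, hz, rfl⟩ := Submodule.mem_span_singleton_mul.1 hc
    exact hr z hz
  have hJ := A6aux.coe_comap _ hP
  set J : Ideal R := (Submodule.span R {(r : ℂ)} * I).comap (Algebra.linearMap R ℂ) with hJdef
  obtain ⟨c, hc, hc0⟩ := (Submodule.ne_bot_iff _).1 hne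
  obtain ⟨s, hs⟩ := hr c hc
  have hs0 : (s : ℂ) ≠ 0 := by
    rw [← hs]
    refine mul_ne_zero ?_ hc0
    intro h
    exact hr0 (Subtype.ext h)
  have hsJ : s ∈ J := by
    rw [hJdef, Submodule.mem_comap]
    exact Submodule.mem_span_singleton_mul.2 ⟨c, hc, hs⟩
  obtain ⟨K, hK⟩ := Ideal.dvd_span_singleton.2 hsJ
  have h1 : Submodule.span R {(s : ℂ)} =
      Submodule.span R {(r : ℂ)} * I * IsLocalization.coeSubmodule ℂ K := by
    rw [← hJ, ← IsLocalization.coeSubmodule_mul, ← hK, IsLocalization.coeSubmodule_span_singleton]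
    rfl
  apply IsUnit.of_mul_eq_one
    (Submodule.span R {(r : ℂ)} * IsLocalization.coeSubmodule ℂ K * Submodule.span R {(s : ℂ)⁻¹})
  have h2 : I * (Submodule.span R {(r : ℂ)} * IsLocalization.coeSubmodule ℂ K *
      Submodule.span R {(s : ℂ)⁻¹}) =
      (Submodule.span R {(r : ℂ)} * I * IsLocalization.coeSubmodule ℂ K) *
        Submodule.span R {(s : ℂ)⁻¹} := by
    ring
  rw [h2, ← h1, Submodule.span_mul_span, Set.singleton_mul_singleton, mul_inv_cancel₀ hs0,
    Submodule.one_eq_span]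

end Pool.Agent.Lib.MP0cb87d
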