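import Pool.Agent.Lib.MP_0cb87d_ag.Stmts

/-! Item B2: the absolute value of the determinant of an anti-triangular block matrix. -/

namespace Pool.Agent.Lib.MP0cb87d

namespace B2aux

/-- `κ` is the fibre of the first projection over `k`. -/
def fibre (κ : Type) (m : ℕ) (k : Fin m) : κ ≃ {x : Fin m × κ // x.1 = k} where
  toFun a := ⟨(k, a), rfl⟩
  invFun x := x.1.2
  left_inv _ := rfl
  right_inv := by
    rintro ⟨⟨i, a⟩, rfl⟩
    rfl

end B2aux

theorem stB2 : StB2 := by
  intro κ _ _ m s hs G G₀ h0 h1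
  set σ : Equiv.Perm (Fin m × κ) := Equiv.prodCongr Fin.revPerm (Equiv.refl κ) with hσ
  have hσv : ∀ x : Fin m × κ, σ x = (x.1.rev, x.2) := fun x => rfl
  have hdet : ‖(G.submatrix σ id).det‖ = ‖G.det‖ := by
    rw [Matrix.det_permute, norm_mul]
    rcases Int.units_eq_one_or (Equiv.Perm.sign σ) with h | h <;> rw [h] <;> simp
  have hbt : (G.submatrix σ id).BlockTriangular Prod.fst := by
    rintro ⟨i, a⟩ ⟨j, b⟩ hij
    have hij' : j < i := hij
    simp only [Matrix.submatrix_apply, hσv, id]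
    refine h0 _ _ _ _ ?_
    have h2 : (i.rev : ℕ) = m - (i + 1) := Fin.val_rev i
    have h3 : (j : ℕ) < i := hij'
    have h4 : (i : ℕ) < m := i.2
    omega
  have hs1 : ‖(s : ℂ)‖ = 1 := by
    rcases hs with h | h <;> rw [h] <;> simp
  rw [← hdet, hbt.det_fintype, norm_prod]
  have hblock : ∀ k : Fin m, ‖((G.submatrix σ id).toSquareBlock Prod.fst k).det‖ = ‖G₀.det‖ := by
    intro k
    rw [← Matrix.det_submatrix_equiv_self (B2aux.fibre κ m k)]
    have h5 : ((G.submatrix σ id).toSquareBlock Prod.fst k).submatrix (B2aux.fibre κ m k)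
        (B2aux.fibre κ m k) = (s : ℂ) • G₀ := by
      ext a b
      show G (σ (k, a)) (k, b) = (s : ℂ) • G₀ a b
      rw [hσv, smul_eq_mul]
      refine h1 _ _ _ _ ?_
      have h2 : (k.rev : ℕ) = m - (k + 1) := Fin.val_rev k
      have h4 : (k : ℕ) < m := k.2
      show ((k.rev : Fin m) : ℕ) + (k : ℕ) + 1 = m
      omega
    rw [h5, Matrix.det_smul, norm_mul, norm_pow, hs1, one_pow, one_mul]
  rw [Finset.prod_congr rfl fun k _ => hblock k, Finset.prod_const, Finset.card_univ,
    Fintype.card_fin]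

end Pool.Agent.Lib.MP0cb87d
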