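import Mathlib

/-!
Definitions used by the statements on L-equivalent K3 surfaces.
-/

namespace Pool.Agent.Lib.MP0cb87d.LEq

open TensorProduct

section Complexification

variable (V : Type) [AddCommGroup V]

/-- The complexification `ℂ ⊗ V` of an abelian group. -/
def Cx : Type := ℂ ⊗[ℤ] V

noncomputable instance : AddCommGroup (Cx V) := inferInstanceAs (AddCommGroup (ℂ ⊗[ℤ] V))

noncomputable instance : Module ℂ (Cx V) := inferInstanceAs (Module ℂ (ℂ ⊗[ℤ] V))

variable {V}

/-- The element `1 ⊗ v`. -/
noncomputable def toCx (v : V) : Cx V := (1 : ℂ) ⊗ₜ[ℤ] v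

/-- Complex conjugation `z ⊗ v ↦ (conj z) ⊗ v`. -/
noncomputable def bar (x : Cx V) : Cx V :=
  LinearMap.rTensor V (starRingEnd ℂ).toAddMonoidHom.toIntLinearMap x

/-- The complex linear extension of a homomorphism. -/
noncomputable def extend {W : Type} [AddCommGroup W] (f : V →+ W) (x : Cx V) : Cx W :=
  f.toIntLinearMap.baseChange ℂ x

/-- The complex bilinear extension of an integral bilinear form. -/
noncomputable def pair (b : LinearMap.BilinForm ℤ V) (x y : Cx V) : ℂ :=
  b.baseChange ℂ x y

end Complexification

/-- A decomposition `ℂ ⊗ V = ⨁ comp k` with `comp (-k)` conjugate to `comp k` (think of the sum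
of the `H^{p,q}` with `p - q = k`). -/
structure IsHodgeDecomposition {V : Type} [AddCommGroup V] (comp : ℤ → Submodule ℂ (Cx V)) :
    Prop where
  internal : DirectSum.IsInternal comp
  bar_mem : ∀ k, ∀ x ∈ comp k, bar x ∈ comp (-k)

/-- Orthogonality of `comp k` and `comp l` for `k + l ≠ 0`. -/
def IsOrthogonal {V : Type} [AddCommGroup V] (comp : ℤ → Submodule ℂ (Cx V))
    (b : LinearMap.BilinForm ℤ V) : Prop :=
  ∀ k l, k + l ≠ 0 → ∀ x ∈ comp k, ∀ y ∈ comp l, pair b x y = 0

/-- Some form with the same orthogonality satisfies `i ^ k * (x, conj x) > 0` for all nonzero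
`x` in `comp k`. -/
def IsPolarizable {V : Type} [AddCommGroup V] (comp : ℤ → Submodule ℂ (Cx V)) : Prop :=
  ∃ b : LinearMap.BilinForm ℤ V, IsOrthogonal comp b ∧
    ∀ k, ∀ x ∈ comp k, x ≠ 0 → 0 < (Complex.I ^ k * pair b x (bar x)).re

/-- A unimodular Hodge lattice: a free abelian group `V` of finite rank with a Hodge
decomposition, which is polarizable, and with a unimodular symmetric bilinear form for which
`comp k` and `comp l` are orthogonal if `k + l ≠ 0`. -/
structure HodgeLattice where
  V : Type
  [grp : AddCommGroup V]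
  [free : Module.Free ℤ V]
  [fin : Module.Finite ℤ V]
  comp : ℤ → Submodule ℂ (Cx V)
  hodge : IsHodgeDecomposition comp
  form : LinearMap.BilinForm ℤ V
  symm : ∀ x y, form x y = form y x
  unimodular : Function.Bijective form
  orth : IsOrthogonal comp form
  polarizable : IsPolarizable comp

attribute [instance] HodgeLattice.grp HodgeLattice.free HodgeLattice.fin

/-- The value of the form. -/
def HodgeLattice.dot (N : HodgeLattice) (x y : N.V) : ℤ := N.form x y

/-- Homomorphisms compatible with the Hodge decompositions. -/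
def IsHodge (N M : HodgeLattice) (f : N.V →+ M.V) : Prop :=
  ∀ k, ∀ x ∈ N.comp k, extend f x ∈ M.comp k

/-- The maps `b i` satisfy `(b i x, b j y) = 0` if `i + j + 1 < m` and `= s (x, y)` if
`i + j + 1 = m` (no condition if `i + j + 1 > m`). -/
def AntiTriangular (s : ℤ) (m : ℕ) (N M : HodgeLattice) (b : Fin m → N.V →+ M.V) : Prop :=
  ∀ i j : Fin m, ∀ x y, ((i : ℕ) + j + 1 < m → M.dot (b i x) (b j y) = 0) ∧
    ((i : ℕ) + j + 1 = m → M.dot (b i x) (b j y) = s * N.dot x y)

/-- `M` is the sum of `m` copies of `N`, embedded by Hodge maps `b i`, with `(b i x, b j y) = 0`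
if `i + j + 1 < m` and `= (x, y)` if `i + j + 1 = m`. This is the cohomology of the bundle of
projective spaces of dimension `m - 1` of a vector bundle on a variety with cohomology `N`. -/
def Bundle (m : ℕ) (N M : HodgeLattice) : Prop :=
  ∃ b : Fin m → N.V →+ M.V, (∀ i, IsHodge N M (b i)) ∧
    Function.Bijective (fun z : Fin m → N.V => ∑ i, b i (z i)) ∧ AntiTriangular 1 m N M b

/-- `M` is the orthogonal sum of `A` and of `m` copies of `N` embedded by Hodge maps `b i`, with
`(b i x, b j y) = 0` if `i + j + 1 < m` and `= - (x, y)` if `i + j + 1 = m`. For `A = H(X)`,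
`N = H(Z)` this is the cohomology of the blow-up of `X` along `Z` of codimension `m + 1`. -/
def BlowupLattice (m : ℕ) (A N M : HodgeLattice) : Prop :=
  ∃ (a : A.V →+ M.V) (b : Fin m → N.V →+ M.V), IsHodge A M a ∧ (∀ i, IsHodge N M (b i)) ∧
    Function.Bijective (fun z : A.V × (Fin m → N.V) => a z.1 + ∑ i, b i (z.2 i)) ∧
    (∀ x y, M.dot (a x) (a y) = A.dot x y) ∧
    (∀ i x y, M.dot (a x) (b i y) = 0) ∧ AntiTriangular (-1) m N M b

/-- `M` is the orthogonal sum of `A` and `B`. -/
def OrthSum (A B M : HodgeLattice) : Prop :=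
  ∃ (a : A.V →+ M.V) (b : B.V →+ M.V), IsHodge A M a ∧ IsHodge B M b ∧
    Function.Bijective (fun z : A.V × B.V => a z.1 + b z.2) ∧
    (∀ x y, M.dot (a x) (a y) = A.dot x y) ∧ (∀ x y, M.dot (b x) (b y) = B.dot x y) ∧
    (∀ x y, M.dot (a x) (b y) = 0)

/-- A theory of even cohomology: isomorphism classes of smooth projective varieties with their
even integral cohomology modulo torsion (a unimodular Hodge lattice for the cup product), the
products with the projective line, and the relations: `X` is empty; `S` is the disjoint union of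
`X` and `Y`; `B` is the blow-up of `X` along the smooth subvariety `Z` of codimension `m + 1`,
with exceptional divisor `E`. -/
structure EvenCohomology where
  Var : Type
  H : Var → HodgeLattice
  timesP1 : Var → Var
  IsEmptyVar : Var → Prop
  IsUnion : Var → Var → Var → Prop
  IsBlowup : Var → Var → ℕ → Var → Var → Prop
  timesP1_spec : ∀ X, Bundle 2 (H X) (H (timesP1 X))
  empty_spec : ∀ X, IsEmptyVar X → Subsingleton (H X).V
  union_spec : ∀ X Y S, IsUnion X Y S → OrthSum (H X) (H Y) (H S)
  blowup_spec : ∀ X Z m B E, IsBlowup X Z m B E →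
    BlowupLattice m (H X) (H Z) (H B) ∧ Bundle (m + 1) (H Z) (H E)

namespace EvenCohomology

variable (C : EvenCohomology)

open FreeAbelianGroup in
/-- Bittner's relations: `[X] = 0` for `X` empty, `[S] = [X] + [Y]` for a disjoint union,
`[B] - [E] = [X] - [Z]` for a blow-up.  The quotient of the free abelian group by them is the
Grothendieck group of varieties. -/
def relations : AddSubgroup (FreeAbelianGroup C.Var) :=
  AddSubgroup.closure
    ({z | ∃ X, C.IsEmptyVar X ∧ z = of X} ∪
     {z | ∃ X Y S, C.IsUnion X Y S ∧ z = of S - (of X + of Y)} ∪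
     {z | ∃ X Z m B E, C.IsBlowup X Z m B E ∧ z = (of B - of E) - (of X - of Z)})

open FreeAbelianGroup in
/-- Multiplication by the class of the affine line: `[X] ↦ [X × ℙ¹] - [X]`. -/
def mulL : FreeAbelianGroup C.Var →+ FreeAbelianGroup C.Var :=
  lift fun X => of (C.timesP1 X) - of X

/-- `X` and `Y` are L-equivalent: `𝕃 ^ n ([X] - [Y]) = 0` in the Grothendieck group for some
`n`. -/
def LEquivalent (X Y : C.Var) : Prop :=
  ∃ n : ℕ, (C.mulL)^[n] (FreeAbelianGroup.of X - FreeAbelianGroup.of Y) ∈ C.relations

end EvenCohomology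

section K3

variable (N M : HodgeLattice)

/-- The algebraic classes: the elements of `V` in `comp 0`. -/
def IsAlgebraic (y : N.V) : Prop := toCx y ∈ N.comp 0

/-- The transcendental classes: orthogonal to all algebraic classes. -/
def IsTranscendental (x : N.V) : Prop := ∀ y, IsAlgebraic N y → N.dot x y = 0

variable {N} in
theorem IsTranscendental.add {a b : N.V} (ha : IsTranscendental N a)
    (hb : IsTranscendental N b) : IsTranscendental N (a + b) :=
  fun y hy => by
    have h1 := ha y hy
    have h2 := hb y hy
    simp only [HodgeLattice.dot] at *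
    simp [h1, h2]

theorem IsTranscendental.zero : IsTranscendental N 0 := fun y _ => by simp [HodgeLattice.dot]

variable {N} in
theorem IsTranscendental.neg {a : N.V} (ha : IsTranscendental N a) :
    IsTranscendental N (-a) :=
  fun y hy => by
    have h1 := ha y hy
    simp only [HodgeLattice.dot] at *
    simp [h1]

/-- The group of the transcendental classes. -/
def transcendental : AddSubgroup N.V where
  carrier := {x | IsTranscendental N x}
  add_mem' := IsTranscendental.add
  zero_mem' := IsTranscendental.zero N
  neg_mem' := IsTranscendental.neg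

/-- The transcendental lattice. -/
def T : Type := transcendental N

instance : AddCommGroup (T N) := inferInstanceAs (AddCommGroup (transcendental N))

/-- The inclusion of the transcendental lattice. -/
def T.incl : T N →+ N.V := (transcendental N).subtype

variable {N} in
/-- The form on the transcendental lattice. -/
def T.dot (x y : T N) : ℤ := N.dot (T.incl N x) (T.incl N y)

/-- The even cohomology of a K3 surface: `comp k = 0` unless `k = -2, 0, 2`, `comp 2` is a line
on which `(x, conj x) > 0`, and `(x, conj x) < 0` for nonzero `x` in `comp 0` orthogonal to the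
algebraic classes (the Hodge index theorem). -/
structure IsK3 : Prop where
  comp_eq_bot : ∀ k, k ≠ -2 → k ≠ 0 → k ≠ 2 → N.comp k = ⊥
  finrank_comp : Module.finrank ℂ (N.comp 2) = 1
  pos : ∀ x ∈ N.comp 2, x ≠ 0 → 0 < (pair N.form x (bar x)).re
  index : ∀ x ∈ N.comp 0, (∀ y, IsAlgebraic N y → pair N.form x (toCx y) = 0) → x ≠ 0 →
    (pair N.form x (bar x)).re < 0

/-- The elements of type `k` of the complexification of the transcendental lattice. -/
def OfType (k : ℤ) (x : Cx (T N)) : Prop := extend (T.incl N) x ∈ N.comp k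

variable {N M} in
/-- Homomorphisms between transcendental lattices compatible with the Hodge decompositions. -/
def IsHodgeTrans (f : T N →+ T M) : Prop := ∀ k x, OfType N k x → OfType M k (extend f x)

/-- Some Hodge endomorphism of the transcendental lattice acts on `comp 2` as multiplication
by `c`. -/
def IsMultiplier (c : ℂ) : Prop :=
  ∃ f : T N →+ T N, IsHodgeTrans f ∧ ∀ x, OfType N 2 x → extend f x = c • x

theorem extend_comp {U V W : Type} [AddCommGroup U] [AddCommGroup V] [AddCommGroup W]
    (f : V →+ W) (g : U →+ V) (x : Cx U) : extend (f.comp g) x = extend f (extend g x) := by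
  have h : (f.comp g).toIntLinearMap = f.toIntLinearMap ∘ₗ g.toIntLinearMap := by
    ext; rfl
  simp only [extend, h, LinearMap.baseChange_comp]
  rfl

theorem extend_add {V W : Type} [AddCommGroup V] [AddCommGroup W] (f g : V →+ W) (x : Cx V) :
    extend (f + g) x = extend f x + extend g x := by
  have h : (f + g).toIntLinearMap = f.toIntLinearMap + g.toIntLinearMap := by
    ext; rfl
  simp only [extend, h, LinearMap.baseChange_add]
  rfl

theorem extend_neg {V W : Type} [AddCommGroup V] [AddCommGroup W] (f : V →+ W) (x : Cx V) :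
    extend (-f) x = - extend f x := by
  have h : (-f).toIntLinearMap = - f.toIntLinearMap := by
    ext; rfl
  simp only [extend, h, LinearMap.baseChange_neg]
  rfl

theorem extend_map_add {V W : Type} [AddCommGroup V] [AddCommGroup W] (f : V →+ W)
    (x y : Cx V) : extend f (x + y) = extend f x + extend f y :=
  map_add (f.toIntLinearMap.baseChange ℂ) _ _

theorem extend_map_neg {V W : Type} [AddCommGroup V] [AddCommGroup W] (f : V →+ W)
    (x : Cx V) : extend f (-x) = - extend f x :=
  map_neg (f.toIntLinearMap.baseChange ℂ) _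

theorem extend_map_zero {V W : Type} [AddCommGroup V] [AddCommGroup W] (f : V →+ W) :
    extend f (0 : Cx V) = 0 :=
  map_zero (f.toIntLinearMap.baseChange ℂ)

theorem extend_zero {V W : Type} [AddCommGroup V] [AddCommGroup W] (x : Cx V) :
    extend (0 : V →+ W) x = 0 := by
  have h : (0 : V →+ W).toIntLinearMap = 0 := by
    ext; rfl
  simp only [extend, h, LinearMap.baseChange_zero]
  rfl

theorem extend_id {V : Type} [AddCommGroup V] (x : Cx V) : extend (AddMonoidHom.id V) x = x := by
  have h : (AddMonoidHom.id V).toIntLinearMap = LinearMap.id := by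
    ext; rfl
  simp only [extend, h, LinearMap.baseChange_id]
  rfl

variable {N} in
theorem IsMultiplier.mul {a b : ℂ} (ha : IsMultiplier N a) (hb : IsMultiplier N b) :
    IsMultiplier N (a * b) := by
  obtain ⟨f, hf, hfa⟩ := ha
  obtain ⟨g, hg, hgb⟩ := hb
  refine ⟨f.comp g, fun k x hx => ?_, fun x hx => ?_⟩
  · rw [extend_comp]
    exact hf k _ (hg k x hx)
  · rw [extend_comp, hfa _ (hg 2 x hx), hgb x hx, smul_smul]

theorem IsMultiplier.one : IsMultiplier N 1 :=
  ⟨AddMonoidHom.id _, fun k x hx => by rw [extend_id]; exact hx,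
    fun x _ => by rw [extend_id, one_smul]⟩

variable {N} in
theorem IsMultiplier.add {a b : ℂ} (ha : IsMultiplier N a) (hb : IsMultiplier N b) :
    IsMultiplier N (a + b) := by
  obtain ⟨f, hf, hfa⟩ := ha
  obtain ⟨g, hg, hgb⟩ := hb
  refine ⟨f + g, fun k x hx => ?_, fun x hx => ?_⟩
  · rw [extend_add, OfType, extend_map_add]
    exact add_mem (hf k x hx) (hg k x hx)
  · rw [extend_add, hfa x hx, hgb x hx, add_smul]

theorem IsMultiplier.zero : IsMultiplier N 0 :=
  ⟨0, fun k x _ => by rw [extend_zero, OfType, extend_map_zero]; exact zero_mem _,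
    fun x _ => by rw [extend_zero, zero_smul]⟩

variable {N} in
theorem IsMultiplier.neg {a : ℂ} (ha : IsMultiplier N a) : IsMultiplier N (-a) := by
  obtain ⟨f, hf, hfa⟩ := ha
  refine ⟨-f, fun k x hx => ?_, fun x hx => ?_⟩
  · rw [extend_neg, OfType, extend_map_neg]
    exact neg_mem (hf k x hx)
  · rw [extend_neg, hfa x hx, neg_smul]

/-- The ring of Hodge endomorphisms of the transcendental lattice, as a ring of complex
numbers. -/
def multipliers : Subring ℂ where
  carrier := {c | IsMultiplier N c}
  mul_mem' := IsMultiplier.mul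
  one_mem' := IsMultiplier.one N
  add_mem' := IsMultiplier.add
  zero_mem' := IsMultiplier.zero N
  neg_mem' := IsMultiplier.neg

/-- The transcendental lattices are Hodge isometric. -/
def HodgeIsometric : Prop :=
  ∃ e : T N ≃+ T M, IsHodgeTrans e.toAddMonoidHom ∧ IsHodgeTrans e.symm.toAddMonoidHom ∧
    ∀ x y, T.dot (e x) (e y) = T.dot x y

/-- The transcendental lattices are Hodge isometric over the rational numbers: for some `n > 0`
there is an injective Hodge map between them, with image of finite index, which multiplies the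
form by `n ^ 2`. -/
def RationallyHodgeIsometric : Prop :=
  ∃ (n : ℕ) (f : T N →+ T M), 0 < n ∧ IsHodgeTrans f ∧ Function.Injective f ∧
    (∃ m : ℕ, 0 < m ∧ ∀ y, ∃ x, f x = m • y) ∧ ∀ x y, T.dot (f x) (f y) = (n : ℤ) ^ 2 * T.dot x y

end K3

end Pool.Agent.Lib.MP0cb87d.LEq
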