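import Pool.Agent.Lib.MP_0cb87d_ag.Final
import Pool.Agent.Lib.MP_0cb87d_ag.Statement

/-! The theorem on K3 surfaces in terms of the definitions of `Statement`. -/

namespace Pool.Agent.Lib.MP0cb87d.LEq

open TensorProduct

/-- The lattice in terms of the definitions of `Defs`. -/
def lat (N : HodgeLattice) : MP0cb87d.HodgeLattice where
  V := N.V
  comp := N.comp
  internal := N.hodge.internal
  conj_mem := N.hodge.bar_mem
  form := N.form
  symm := N.symm
  unimodular := N.unimodular
  orth := N.orth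
  polarizable := N.polarizable

/-- The theory in terms of the definitions of `Defs`. -/
def thy (C : EvenCohomology) : MP0cb87d.EvenCohomology where
  Var := C.Var
  H := fun X => lat (C.H X)
  timesP1 := C.timesP1
  IsEmptyVar := C.IsEmptyVar
  IsUnion := C.IsUnion
  IsBlowup := C.IsBlowup
  timesP1_spec := fun X => by
    obtain ⟨b, h1, h2, h3⟩ := C.timesP1_spec X
    exact ⟨fun i => (b i).toIntLinearMap, h1, h2, fun i j hij x y => (h3 i j x y).1 hij,
      fun i j hij x y => (h3 i j x y).2 hij⟩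
  empty_spec := C.empty_spec
  union_spec := fun X Y S h => by
    obtain ⟨a, b, h1, h2, h3, h4, h5, h6⟩ := C.union_spec X Y S h
    exact ⟨a.toIntLinearMap, b.toIntLinearMap, h1, h2, h3, h4, h5, h6⟩
  blowup_spec := fun X Z m B E h => by
    obtain ⟨⟨a, b, h1, h2, h3, h4, h5, h6⟩, b', k1, k2, k3⟩ := C.blowup_spec X Z m B E h
    refine ⟨⟨a.toIntLinearMap, fun i => (b i).toIntLinearMap, h1, h2, h3, h4, h5,
      fun i j hij x y => (h6 i j x y).1 hij, fun i j hij x y => ?_⟩,
      ⟨fun i => (b' i).toIntLinearMap, k1, k2, fun i j hij x y => (k3 i j x y).1 hij,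
      fun i j hij x y => (k3 i j x y).2 hij⟩⟩
    have := (h6 i j x y).2 hij
    rw [neg_one_mul] at this
    exact this

theorem lequivalent (C : EvenCohomology) (X Y : C.Var) (h : C.LEquivalent X Y) :
    (thy C).LEquivalent X Y := h

theorem k3 (N : HodgeLattice) (h : IsK3 N) : MP0cb87d.IsK3 (lat N) :=
  ⟨h.1, h.2, h.3, h.4⟩

theorem rat (N M : HodgeLattice) (h : MP0cb87d.RationallyHodgeIsometric (lat N) (lat M)) :
    RationallyHodgeIsometric N M := by
  obtain ⟨n, f, h1, h2, h3, h4, h5⟩ := h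
  exact ⟨n, f.toAddMonoidHom, h1, h2, h3, h4, h5⟩

theorem isom (N M : HodgeLattice) (h : MP0cb87d.HodgeIsometric (lat N) (lat M)) :
    HodgeIsometric N M := by
  obtain ⟨e, h1, h2, h3⟩ := h
  exact ⟨e.toAddEquiv, h1, h2, h3⟩

theorem mult (N : HodgeLattice) : MP0cb87d.multipliers (lat N) = multipliers N := by
  ext c
  constructor
  · rintro ⟨f, h1, h2⟩
    exact ⟨f.toAddMonoidHom, h1, h2⟩
  · rintro ⟨f, h1, h2⟩
    exact ⟨f.toIntLinearMap, h1, h2⟩

theorem rationally (C : EvenCohomology) (X Y : C.Var) (hX : IsK3 (C.H X)) (hY : IsK3 (C.H Y))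
    (h : C.LEquivalent X Y) : RationallyHodgeIsometric (C.H X) (C.H Y) :=
  rat _ _ (main (thy C) X Y (k3 _ hX) (k3 _ hY) (lequivalent C X Y h)).1

theorem integrally (C : EvenCohomology) (X Y : C.Var) (hX : IsK3 (C.H X)) (hY : IsK3 (C.H Y))
    (h : C.LEquivalent X Y) (hint : IsIntegrallyClosed (multipliers (C.H X))) :
    HodgeIsometric (C.H X) (C.H Y) := by
  refine isom _ _ ((main (thy C) X Y (k3 _ hX) (k3 _ hY) (lequivalent C X Y h)).2 ?_)
  have := mult (C.H X)
  change IsIntegrallyClosed (MP0cb87d.multipliers (lat (C.H X)))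
  rw [this]
  exact hint

end Pool.Agent.Lib.MP0cb87d.LEq
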