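import Pool.Agent.Lib.MP_0cb87d_ag.Stmts

/-! Module C1: the projections of a direct sum of Hodge lattices are Hodge maps. -/

namespace Pool.Agent.Lib.MP0cb87d

open TensorProduct

namespace C1aux

/-- the decomposition as a linear equivalence -/
noncomputable def D (N : HodgeLattice) : (DirectSum ℤ fun k => N.comp k) ≃ₗ[ℂ] ℂ ⊗[ℤ] N.V :=
  LinearEquiv.ofBijective (DirectSum.coeLinearMap N.comp) N.internal

/-- the component of degree `l` -/
noncomputable def cp (N : HodgeLattice) (l : ℤ) : ℂ ⊗[ℤ] N.V →ₗ[ℂ] ℂ ⊗[ℤ] N.V :=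
  (N.comp l).subtype ∘ₗ (DirectSum.component ℂ ℤ (fun k => N.comp k) l) ∘ₗ (D N).symm.toLinearMap

lemma D_of (N : HodgeLattice) (k : ℤ) (x : N.comp k) :
    D N (DirectSum.lof ℂ ℤ (fun k => N.comp k) k x) = x :=
  DirectSum.coeLinearMap_lof N.comp k x

lemma cp_mem {N : HodgeLattice} {k l : ℤ} {x : ℂ ⊗[ℤ] N.V} (hx : x ∈ N.comp k) :
    cp N l x = if k = l then x else 0 := by
  have h1 : (D N).symm x = DirectSum.lof ℂ ℤ (fun k => N.comp k) k ⟨x, hx⟩ := by
    rw [LinearEquiv.symm_apply_eq, D_of]
  simp only [cp, LinearMap.comp_apply, LinearEquiv.coe_coe]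
  rw [h1]
  by_cases h : k = l
  · subst h
    rw [if_pos rfl, DirectSum.component.lof_self]
    rfl
  · rw [if_neg h, DirectSum.component.of, dif_neg h]
    simp

lemma mem_of_cp {N : HodgeLattice} {k : ℤ} {x : ℂ ⊗[ℤ] N.V} (h : ∀ l, l ≠ k → cp N l x = 0) :
    x ∈ N.comp k := by
  have h1 : (D N).symm x = DirectSum.lof ℂ ℤ (fun k => N.comp k) k
      (DirectSum.component ℂ ℤ (fun k => N.comp k) k ((D N).symm x)) := by
    apply DirectSum.ext_component ℂ
    intro l
    by_cases hl : l = k
    · subst hl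
      rw [DirectSum.component.lof_self]
    · rw [DirectSum.component.of, dif_neg (Ne.symm hl)]
      have h2 := h l hl
      simp only [cp, LinearMap.comp_apply, LinearEquiv.coe_coe] at h2
      exact Subtype.ext h2
  rw [LinearEquiv.symm_apply_eq, D_of] at h1
  rw [h1]
  exact Subtype.property _

lemma cp_comm {N M : HodgeLattice} {f : N.V →ₗ[ℤ] M.V} (hf : IsHodge N M f) (l : ℤ)
    (x : ℂ ⊗[ℤ] N.V) : cp M l (f.baseChange ℂ x) = f.baseChange ℂ (cp N l x) := by
  have h : (cp M l ∘ₗ f.baseChange ℂ) ∘ₗ (D N).toLinearMap =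
      (f.baseChange ℂ ∘ₗ cp N l) ∘ₗ (D N).toLinearMap := by
    apply DirectSum.linearMap_ext
    intro j
    ext y
    simp only [LinearMap.comp_apply, LinearEquiv.coe_coe]
    rw [D_of, cp_mem (hf j _ y.2), cp_mem y.2]
    split_ifs
    · rfl
    · rw [map_zero]
  have h2 := LinearMap.congr_fun h ((D N).symm x)
  simpa only [LinearMap.comp_apply, LinearEquiv.coe_coe, LinearEquiv.apply_symm_apply] using h2

end C1aux

open C1aux in
theorem stC1 : StC1 := by
  intro m A N M a b ha hb hbij
  set L : (A.V × (Fin m → N.V)) →ₗ[ℤ] M.V :=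
    a.coprod (∑ i, b i ∘ₗ LinearMap.proj i) with hL
  have hLa : ∀ z, L z = a z.1 + ∑ i, b i (z.2 i) := by
    intro z
    simp [hL, LinearMap.coprod_apply, LinearMap.sum_apply]
  have hLb : Function.Bijective L := by
    have : (L : (A.V × (Fin m → N.V)) → M.V) = fun z => a z.1 + ∑ i, b i (z.2 i) := funext hLa
    rw [this]; exact hbij
  set e := LinearEquiv.ofBijective L hLb with he
  have hea : ∀ x, e.symm (a x) = (x, 0) := by
    intro x
    rw [LinearEquiv.symm_apply_eq]
    simp [he, LinearEquiv.ofBijective_apply, hLa]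
  have heb : ∀ i y, e.symm (b i y) = (0, Pi.single i y) := by
    intro i y
    rw [LinearEquiv.symm_apply_eq]
    rw [he, LinearEquiv.ofBijective_apply, hLa]
    simp only [map_zero, zero_add]
    rw [Finset.sum_eq_single i]
    · simp
    · intro j _ hj
      simp [Pi.single_eq_of_ne hj]
    · intro h; exact absurd (Finset.mem_univ i) h
  set p : M.V →ₗ[ℤ] A.V := LinearMap.fst ℤ _ _ ∘ₗ e.symm.toLinearMap with hp
  set r : Fin m → M.V →ₗ[ℤ] N.V := fun i =>
    LinearMap.proj i ∘ₗ LinearMap.snd ℤ _ _ ∘ₗ e.symm.toLinearMap with hr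
  have pa : ∀ x, p (a x) = x := fun x => by simp [hp, hea]
  have pb : ∀ i y, p (b i y) = 0 := fun i y => by simp [hp, heb]
  have ra : ∀ i x, r i (a x) = 0 := fun i x => by simp [hr, hea]
  have rb : ∀ i j y, r i (b j y) = if i = j then y else 0 := by
    intro i j y
    simp only [hr, LinearMap.comp_apply, LinearEquiv.coe_coe, heb, LinearMap.snd_apply,
      LinearMap.proj_apply]
    by_cases h : i = j
    · subst h; simp
    · simp [h]
  have hsum : ∀ x, x = a (p x) + ∑ i, b i (r i x) := by
    intro x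
    have h1 := e.apply_symm_apply x
    rw [he, LinearEquiv.ofBijective_apply, hLa] at h1
    exact h1.symm
  -- the identities over the complex numbers
  have cpa : ∀ x, p.baseChange ℂ (a.baseChange ℂ x) = x := by
    have h1 : p ∘ₗ a = LinearMap.id := LinearMap.ext pa
    intro x
    rw [← LinearMap.comp_apply, ← LinearMap.baseChange_comp, h1, LinearMap.baseChange_id]
    rfl
  have cpb : ∀ i x, p.baseChange ℂ ((b i).baseChange ℂ x) = 0 := by
    intro i x
    have h1 : p ∘ₗ b i = 0 := LinearMap.ext (pb i)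
    rw [← LinearMap.comp_apply, ← LinearMap.baseChange_comp, h1, LinearMap.baseChange_zero]
    rfl
  have cra : ∀ i x, (r i).baseChange ℂ (a.baseChange ℂ x) = 0 := by
    intro i x
    have h1 : r i ∘ₗ a = 0 := LinearMap.ext (ra i)
    rw [← LinearMap.comp_apply, ← LinearMap.baseChange_comp, h1, LinearMap.baseChange_zero]
    rfl
  have crb : ∀ i j x, (r i).baseChange ℂ ((b j).baseChange ℂ x) = if i = j then x else 0 := by
    intro i j x
    by_cases h : i = j
    · subst h
      have h1 : r i ∘ₗ b i = LinearMap.id := LinearMap.ext fun y => by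
        rw [LinearMap.comp_apply, rb, if_pos rfl]; rfl
      rw [← LinearMap.comp_apply, ← LinearMap.baseChange_comp, h1, LinearMap.baseChange_id,
        if_pos rfl]
      rfl
    · have h1 : r i ∘ₗ b j = 0 := LinearMap.ext fun y => by
        rw [LinearMap.comp_apply, rb, if_neg h]; rfl
      rw [← LinearMap.comp_apply, ← LinearMap.baseChange_comp, h1, LinearMap.baseChange_zero,
        if_neg h]
      rfl
  have csum : ∀ x, x = a.baseChange ℂ (p.baseChange ℂ x) +
      ∑ i, (b i).baseChange ℂ ((r i).baseChange ℂ x) := by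
    intro x
    induction x using TensorProduct.induction_on with
    | zero => simp
    | tmul c v =>
      simp only [LinearMap.baseChange_tmul]
      rw [← TensorProduct.tmul_sum, ← TensorProduct.tmul_add, ← hsum v]
    | add x y hx hy =>
      conv_lhs => rw [hx, hy]
      simp only [map_add, Finset.sum_add_distrib]
      abel
  -- the components
  have key : ∀ k x, x ∈ M.comp k → ∀ l, l ≠ k →
      cp A l (p.baseChange ℂ x) = 0 ∧ ∀ i, cp N l ((r i).baseChange ℂ x) = 0 := by
    intro k x hx l hl
    have h1 : cp M l x = 0 := by rw [cp_mem hx, if_neg (Ne.symm hl)]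
    have h2 : a.baseChange ℂ (cp A l (p.baseChange ℂ x)) +
        ∑ i, (b i).baseChange ℂ (cp N l ((r i).baseChange ℂ x)) = 0 := by
      rw [← h1]
      conv_rhs => rw [csum x]
      rw [map_add, map_sum, cp_comm ha]
      congr 1
      exact Finset.sum_congr rfl fun i _ => (cp_comm (hb i) l _).symm
    constructor
    · have h3 := congrArg (p.baseChange ℂ) h2
      rw [map_add, map_sum, cpa, map_zero] at h3
      rw [Finset.sum_eq_zero (fun i _ => cpb i _), add_zero] at h3
      exact h3
    · intro i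
      have h3 := congrArg ((r i).baseChange ℂ) h2
      rw [map_add, map_sum, cra, map_zero, zero_add] at h3
      simp only [crb] at h3
      simpa using h3
  refine ⟨p, r, fun k x hx => ?_, fun i k x hx => ?_, pa, pb, ra, rb, hsum⟩
  · exact mem_of_cp fun l hl => (key k x hx l hl).1
  · exact mem_of_cp fun l hl => (key k x hx l hl).2 i

end Pool.Agent.Lib.MP0cb87d
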