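import Pool.Agent.Lib.MP_0cb87d_ag.Stmts

/-! Frames of the pieces give a frame of the sum (module C2). -/

namespace Pool.Agent.Lib.MP0cb87d

open TensorProduct

namespace C2aux

section Abstract

variable {R : Subring ℂ} {U V W : Type} [AddCommGroup U] [Module ℂ U] [AddCommGroup V]
  [Module ℂ V] [AddCommGroup W] [Module ℂ W] {ι κ : Type} {m : ℕ}

lemma mem_rows [Fintype ι] (e : ι → W) (L : Submodule R W) (c : ι → ℂ) :
    c ∈ rows e L ↔ ∑ i, c i • e i ∈ L := by
  unfold rows
  rw [Submodule.mem_comap, LinearMap.restrictScalars_apply, Fintype.linearCombination_apply]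

/-- The family of the images of `e` and of the `m` images of `e'`. -/
def fr (a : U →ₗ[ℂ] W) (b : Fin m → V →ₗ[ℂ] W) (e : ι → U) (e' : κ → V) :
    ι ⊕ (Fin m × κ) → W :=
  Sum.elim (fun i => a (e i)) (fun x => b x.1 (e' x.2))

lemma sum_fr [Fintype ι] [Fintype κ] (a : U →ₗ[ℂ] W) (b : Fin m → V →ₗ[ℂ] W) (e : ι → U)
    (e' : κ → V) (c : ι ⊕ (Fin m × κ) → ℂ) :
    ∑ x, c x • fr a b e e' x =
      a (∑ i, c (Sum.inl i) • e i) + ∑ i, b i (∑ j, c (Sum.inr (i, j)) • e' j) := by
  rw [Fintype.sum_sum_type, Fintype.sum_prod_type]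
  simp only [fr, Sum.elim_inl, Sum.elim_inr, map_sum, map_smul]

/-- The relations between the embeddings and the projections. -/
structure Rel (a : U →ₗ[ℂ] W) (b : Fin m → V →ₗ[ℂ] W) (p : W →ₗ[ℂ] U) (r : Fin m → W →ₗ[ℂ] V) :
    Prop where
  pa : ∀ x, p (a x) = x
  pb : ∀ i y, p (b i y) = 0
  ra : ∀ i x, r i (a x) = 0
  rb : ∀ i j y, r i (b j y) = if i = j then y else 0
  dec : ∀ x, x = a (p x) + ∑ i, b i (r i x)

variable {a : U →ₗ[ℂ] W} {b : Fin m → V →ₗ[ℂ] W} {p : W →ₗ[ℂ] U} {r : Fin m → W →ₗ[ℂ] V}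

lemma p_sum (h : Rel a b p r) (u : U) (v : Fin m → V) : p (a u + ∑ i, b i (v i)) = u := by
  rw [map_add, h.pa, map_sum]
  simp [h.pb]

lemma r_sum (h : Rel a b p r) (u : U) (v : Fin m → V) (i : Fin m) :
    r i (a u + ∑ j, b j (v j)) = v i := by
  rw [map_add, h.ra, map_sum]
  simp [h.rb]

lemma indep [Fintype ι] [Fintype κ] (h : Rel a b p r) (e : ι → U) (e' : κ → V)
    (he : LinearIndependent ℂ e) (he' : LinearIndependent ℂ e') :
    LinearIndependent ℂ (fr a b e e') := by
  rw [Fintype.linearIndependent_iff] at he he' ⊢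
  intro c hc x
  rw [sum_fr] at hc
  have h1 := p_sum h (∑ i, c (Sum.inl i) • e i) (fun i => ∑ j, c (Sum.inr (i, j)) • e' j)
  rw [hc, map_zero] at h1
  have h2 := fun i => r_sum h (∑ i, c (Sum.inl i) • e i)
    (fun i => ∑ j, c (Sum.inr (i, j)) • e' j) i
  simp only [hc, map_zero] at h2
  rcases x with i | ⟨i, j⟩
  · exact he (fun i => c (Sum.inl i)) h1.symm i
  · exact he' (fun j => c (Sum.inr (i, j))) (h2 i).symm j

variable (LU : Submodule R U) (LV : Submodule R V) (LW : Submodule R W)

/-- Compatibility of the lattices with the maps. -/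
structure Comp (a : U →ₗ[ℂ] W) (b : Fin m → V →ₗ[ℂ] W) (p : W →ₗ[ℂ] U) (r : Fin m → W →ₗ[ℂ] V)
    (LU : Submodule R U) (LV : Submodule R V) (LW : Submodule R W) : Prop where
  ha : ∀ x ∈ LU, a x ∈ LW
  hb : ∀ i, ∀ y ∈ LV, b i y ∈ LW
  hp : ∀ z ∈ LW, p z ∈ LU
  hr : ∀ i, ∀ z ∈ LW, r i z ∈ LV

variable {LU LV LW}

lemma map_span_le (f : U →ₗ[ℂ] W) (S : Set U) (T : Submodule ℂ W) (h : ∀ x ∈ S, f x ∈ T) :
    ∀ x ∈ Submodule.span ℂ S, f x ∈ T := by
  intro x hx
  have : Submodule.span ℂ S ≤ T.comap f := Submodule.span_le.2 h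
  exact this hx

lemma span_eq (h : Rel a b p r) (hL : Comp a b p r LU LV LW) (e : ι → U) (e' : κ → V)
    (he : Submodule.span ℂ (Set.range e) = Submodule.span ℂ (LU : Set U))
    (he' : Submodule.span ℂ (Set.range e') = Submodule.span ℂ (LV : Set V)) :
    Submodule.span ℂ (Set.range (fr a b e e')) = Submodule.span ℂ (LW : Set W) := by
  apply le_antisymm
  · rw [Submodule.span_le]
    rintro _ ⟨x, rfl⟩
    rcases x with i | ⟨i, j⟩
    · refine map_span_le a (LU : Set U) _ (fun x hx => Submodule.subset_span (hL.ha x hx)) _ ?_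
      rw [← he]
      exact Submodule.subset_span ⟨i, rfl⟩
    · refine map_span_le (b i) (LV : Set V) _
        (fun x hx => Submodule.subset_span (hL.hb i x hx)) _ ?_
      rw [← he']
      exact Submodule.subset_span ⟨j, rfl⟩
  · rw [Submodule.span_le]
    intro y hy
    have hy' : y ∈ LW := hy
    show y ∈ Submodule.span ℂ (Set.range (fr a b e e'))
    rw [h.dec y]
    refine add_mem ?_ (sum_mem fun i _ => ?_)
    · refine map_span_le a (Set.range e) _ ?_ _ ?_
      · rintro _ ⟨i, rfl⟩
        exact Submodule.subset_span ⟨Sum.inl i, rfl⟩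
      · rw [he]
        exact Submodule.subset_span (hL.hp y hy')
    · refine map_span_le (b i) (Set.range e') _ ?_ _ ?_
      · rintro _ ⟨j, rfl⟩
        exact Submodule.subset_span ⟨Sum.inr (i, j), rfl⟩
      · rw [he']
        exact Submodule.subset_span (hL.hr i y hy')

lemma mem_iff (h : Rel a b p r) (hL : Comp a b p r LU LV LW) (u : U) (v : Fin m → V) :
    a u + ∑ i, b i (v i) ∈ LW ↔ u ∈ LU ∧ ∀ i, v i ∈ LV := by
  constructor
  · intro hx
    refine ⟨?_, fun i => ?_⟩
    · have := hL.hp _ hx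
      rwa [p_sum h] at this
    · have := hL.hr i _ hx
      rwa [r_sum h] at this
  · rintro ⟨hu, hv⟩
    exact add_mem (hL.ha u hu) (sum_mem fun i _ => hL.hb i _ (hv i))

lemma rows_eq [Fintype ι] [Fintype κ] (h : Rel a b p r) (hL : Comp a b p r LU LV LW)
    (e : ι → U) (e' : κ → V) :
    rows (fr a b e e') LW = prodRows (rows e LU) (powRows m (rows e' LV)) := by
  ext c
  rw [mem_rows, sum_fr, mem_iff h hL]
  unfold prodRows powRows
  rw [Submodule.mem_inf, Submodule.mem_comap, Submodule.mem_comap, Submodule.mem_iInf, mem_rows]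
  refine and_congr Iff.rfl (forall_congr' fun i => ?_)
  rw [Submodule.mem_comap, mem_rows]
  rfl

lemma isFrame [Fintype ι] [Fintype κ] (h : Rel a b p r) (hL : Comp a b p r LU LV LW)
    (e : ι → U) (e' : κ → V) (he : IsFrame LU e) (he' : IsFrame LV e') :
    IsFrame LW (fr a b e e') :=
  ⟨indep h e e' he.1 he'.1, span_eq h hL e e' he.2 he'.2⟩

lemma detIdeal_eq [Fintype ι] [DecidableEq ι] [Fintype κ] [DecidableEq κ] (h1 : StA1) (h2 : StA2)
    (h : Rel a b p r) (hL : Comp a b p r LU LV LW) (e : ι → U) (e' : κ → V) :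
    detIdeal (rows (fr a b e e') LW) = detIdeal (rows e LU) * detIdeal (rows e' LV) ^ m := by
  rw [rows_eq h hL, h1, h2]

end Abstract

/-- Base change of the relations. -/
lemma rel_baseChange {A N M : Type} [AddCommGroup A] [AddCommGroup N] [AddCommGroup M] {m : ℕ}
    (a : A →ₗ[ℤ] M) (b : Fin m → N →ₗ[ℤ] M) (p : M →ₗ[ℤ] A) (r : Fin m → M →ₗ[ℤ] N)
    (pa : ∀ x, p (a x) = x) (pb : ∀ i y, p (b i y) = 0) (ra : ∀ i x, r i (a x) = 0)
    (rb : ∀ i j y, r i (b j y) = if i = j then y else 0)
    (dec : ∀ x, x = a (p x) + ∑ i, b i (r i x)) :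
    Rel (a.baseChange ℂ) (fun i => (b i).baseChange ℂ) (p.baseChange ℂ)
      (fun i => (r i).baseChange ℂ) := by
  refine ⟨fun x => ?_, fun i y => ?_, fun i x => ?_, fun i j y => ?_, fun x => ?_⟩
  · induction x using TensorProduct.induction_on with
    | zero => simp
    | tmul z v => simp [pa]
    | add x y hx hy => rw [map_add, map_add, hx, hy]
  · induction y using TensorProduct.induction_on with
    | zero => simp
    | tmul z v => simp [pb]
    | add x y hx hy => rw [map_add, map_add, hx, hy, add_zero]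
  · induction x using TensorProduct.induction_on with
    | zero => simp
    | tmul z v => simp [ra]
    | add x y hx hy => rw [map_add, map_add, hx, hy, add_zero]
  · induction y using TensorProduct.induction_on with
    | zero => simp
    | tmul z v =>
      simp only [LinearMap.baseChange_tmul, rb]
      split_ifs <;> simp
    | add x y hx hy =>
      rw [map_add, map_add, hx, hy]
      split_ifs <;> simp
  · induction x using TensorProduct.induction_on with
    | zero => simp
    | tmul z v =>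
      simp only [LinearMap.baseChange_tmul]
      rw [← TensorProduct.tmul_sum, ← TensorProduct.tmul_add, ← dec v]
    | add x y hx hy =>
      simp only [map_add, Finset.sum_add_distrib]
      conv_lhs => rw [hx, hy]
      abel

lemma conj_baseChange {N M : Type} [AddCommGroup N] [AddCommGroup M] (f : N →ₗ[ℤ] M)
    (x : ℂ ⊗[ℤ] N) : conj M (f.baseChange ℂ x) = f.baseChange ℂ (conj N x) := by
  induction x using TensorProduct.induction_on with
  | zero => simp
  | tmul z v => rfl
  | add x y hx hy => simp only [map_add, hx, hy]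

lemma form_baseChange {N M : Type} [AddCommGroup N] [AddCommGroup M]
    (Φ : LinearMap.BilinForm ℤ M) (f : N →ₗ[ℤ] M) (g : N →ₗ[ℤ] M)
    (Ψ : LinearMap.BilinForm ℤ N) (s : ℤ) (h : ∀ x y, Φ (f x) (g y) = s * Ψ x y)
    (x y : ℂ ⊗[ℤ] N) :
    Φ.baseChange ℂ (f.baseChange ℂ x) (g.baseChange ℂ y) = (s : ℂ) * Ψ.baseChange ℂ x y := by
  induction x using TensorProduct.induction_on with
  | zero => simp
  | tmul z v =>
    induction y using TensorProduct.induction_on with
    | zero => simp
    | tmul w u =>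
      simp only [LinearMap.baseChange_tmul, LinearMap.BilinForm.baseChange_tmul, h]
      simp only [zsmul_eq_mul]
      push_cast
      ring
    | add x y hx hy => simp only [map_add, hx, hy, mul_add]
  | add x y hx hy => simp only [map_add, LinearMap.add_apply, hx, hy, mul_add]

lemma form_baseChange_zero {N N' M : Type} [AddCommGroup N] [AddCommGroup N'] [AddCommGroup M]
    (Φ : LinearMap.BilinForm ℤ M) (f : N →ₗ[ℤ] M) (g : N' →ₗ[ℤ] M)
    (h : ∀ x y, Φ (f x) (g y) = 0) (x : ℂ ⊗[ℤ] N) (y : ℂ ⊗[ℤ] N') :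
    Φ.baseChange ℂ (f.baseChange ℂ x) (g.baseChange ℂ y) = 0 := by
  induction x using TensorProduct.induction_on with
  | zero => simp
  | tmul z v =>
    induction y using TensorProduct.induction_on with
    | zero => simp
    | tmul w u =>
      simp only [LinearMap.baseChange_tmul, LinearMap.BilinForm.baseChange_tmul, h]
      simp
    | add x y hx hy => simp only [map_add, hx, hy, add_zero]
  | add x y hx hy => simp only [map_add, LinearMap.add_apply, hx, hy, add_zero]

end C2aux

open C2aux in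
/-- Frames of the pieces give a frame of the sum. -/
theorem stC2 (h1 : StA1) (h2 : StA2) (hb : StB2) (hc : StC1) : StC2 := by
  intro R F s hs m A N M hG ι κ _ _ _ _ e e' he he'
  obtain ⟨a, b, haH, hbH, hbij, haa, hab, hlt, heq⟩ := hG
  obtain ⟨p, r, hpH, hrH, pa, pb, ra, rb, dec⟩ := hc m A N M a b haH hbH hbij
  have hrel := rel_baseChange a b p r pa pb ra rb dec
  have hcomp : Comp (a.baseChange ℂ) (fun i => (b i).baseChange ℂ) (p.baseChange ℂ)
      (fun i => (r i).baseChange ℂ) (F.L A) (F.L N) (F.L M) :=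
    ⟨F.map A M a haH, fun i => F.map N M (b i) (hbH i), F.map M A p hpH,
      fun i => F.map M N (r i) (hrH i)⟩
  refine ⟨fr (a.baseChange ℂ) (fun i => (b i).baseChange ℂ) e e', isFrame hrel hcomp e e' he he',
    detIdeal_eq h1 h2 hrel hcomp e e', ?_⟩
  set e'' := fr (a.baseChange ℂ) (fun i => (b i).baseChange ℂ) e e' with he''
  have hba : ∀ i x y, M.form (b i x) (a y) = 0 := fun i x y => by rw [M.symm, hab]
  let G : Matrix (Fin m × κ) (Fin m × κ) ℂ := Matrix.of fun x y =>
    M.form.baseChange ℂ ((b x.1).baseChange ℂ (e' x.2)) (conj M.V ((b y.1).baseChange ℂ (e' y.2)))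
  have hgram : gram M e'' = Matrix.fromBlocks (gram A e) 0 0 G := by
    ext x y
    rcases x with i | x <;> rcases y with j | y
    · show M.form.baseChange ℂ (a.baseChange ℂ (e i)) (conj M.V (a.baseChange ℂ (e j))) =
        A.form.baseChange ℂ (e i) (conj A.V (e j))
      rw [conj_baseChange, form_baseChange M.form a a A.form 1
        (fun x y => by rw [haa, one_mul])]
      simp
    · show M.form.baseChange ℂ (a.baseChange ℂ (e i))
        (conj M.V ((b y.1).baseChange ℂ (e' y.2))) = 0
      rw [conj_baseChange]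
      exact form_baseChange_zero _ _ _ (fun x z => hab y.1 x z) _ _
    · show M.form.baseChange ℂ ((b x.1).baseChange ℂ (e' x.2))
        (conj M.V (a.baseChange ℂ (e j))) = 0
      rw [conj_baseChange]
      exact form_baseChange_zero _ _ _ (fun z y => hba x.1 z y) _ _
    · rfl
  rw [hgram, Matrix.det_fromBlocks_zero₂₁, norm_mul]
  congr 1
  refine hb κ m s hs G (gram N e') (fun i j c d hij => ?_) (fun i j c d hij => ?_)
  · show M.form.baseChange ℂ ((b i).baseChange ℂ (e' c))
      (conj M.V ((b j).baseChange ℂ (e' d))) = 0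
    rw [conj_baseChange]
    exact form_baseChange_zero _ _ _ (hlt i j hij) _ _
  · show M.form.baseChange ℂ ((b i).baseChange ℂ (e' c))
      (conj M.V ((b j).baseChange ℂ (e' d))) = (s : ℂ) * N.form.baseChange ℂ (e' c) (conj N.V (e' d))
    rw [conj_baseChange]
    exact form_baseChange M.form (b i) (b j) N.form s (heq i j hij) _ _

end Pool.Agent.Lib.MP0cb87d
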