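import Pool.Agent.Lib.MP_0cb87d_ag.Stmts

/-! Module C3: comparison of two frames. -/

namespace Pool.Agent.Lib.MP0cb87d

open TensorProduct

namespace C3aux

lemma conj_tmul (V : Type) [AddCommGroup V] (a : ℂ) (v : V) :
    conj V (a ⊗ₜ[ℤ] v) = (starRingEnd ℂ a) ⊗ₜ[ℤ] v := LinearMap.rTensor_tmul _ _ _ _

lemma conj_smul (V : Type) [AddCommGroup V] (c : ℂ) (x : ℂ ⊗[ℤ] V) :
    conj V (c • x) = (starRingEnd ℂ c) • conj V x := by
  induction x using TensorProduct.induction_on with
  | zero => simp
  | tmul a v => simp only [TensorProduct.smul_tmul', conj_tmul, smul_eq_mul, map_mul]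
  | add x y hx hy => simp only [smul_add, map_add, hx, hy]

lemma linComb_vecMul {ι W : Type} [Fintype ι] [AddCommGroup W] [Module ℂ W]
    (e f : ι → W) (P : Matrix ι ι ℂ) (hP : ∀ i, ∑ j, P i j • e j = f i) (c : ι → ℂ) :
    ∑ j, (Matrix.vecMul c P) j • e j = ∑ i, c i • f i := by
  simp only [Matrix.vecMul, dotProduct, Finset.sum_smul, ← hP, Finset.smul_sum, smul_smul]
  rw [Finset.sum_comm]

lemma mem_rows {R : Subring ℂ} {ι W : Type} [Fintype ι] [AddCommGroup W] [Module ℂ W]
    (e : ι → W) (L : Submodule R W) (c : ι → ℂ) : c ∈ rows e L ↔ ∑ i, c i • e i ∈ L := by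
  simp [rows, Fintype.linearCombination_apply]

lemma gram_change (N : HodgeLattice) {ι : Type} [Fintype ι] (e f : ι → ℂ ⊗[ℤ] N.V)
    (P : Matrix ι ι ℂ) (hP : ∀ i, ∑ j, P i j • e j = f i) :
    gram N f = P * gram N e * P.conjTranspose := by
  ext i j
  simp only [gram, Matrix.of_apply, Matrix.mul_apply, Matrix.conjTranspose_apply, ← hP,
    map_sum, LinearMap.sum_apply, map_smul, LinearMap.smul_apply, conj_smul, smul_eq_mul,
    Finset.sum_mul, Finset.mul_sum]
  refine Finset.sum_congr rfl fun k _ => Finset.sum_congr rfl fun l _ => ?_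
  simp only [RCLike.star_def]
  ring

/-- The comparison of the determinant ideals, in an abstract complex vector space. -/
lemma rows_change (h3 : StA3) (h4 : StA4) {R : Subring ℂ} {ι κ W : Type} [Fintype ι]
    [DecidableEq ι] [Fintype κ] [DecidableEq κ] [AddCommGroup W] [Module ℂ W]
    (L : Submodule R W) (e : ι → W) (e' : κ → W) (he : LinearIndependent ℂ e)
    (he' : LinearIndependent ℂ e')
    (hspan : Submodule.span ℂ (Set.range e) = Submodule.span ℂ (Set.range e')) :
    Fintype.card ι = Fintype.card κ ∧ ∃ (σ : ι ≃ κ) (P : Matrix ι ι ℂ), P.det ≠ 0 ∧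
      (∀ i, ∑ j, P i j • e j = e' (σ i)) ∧
      detIdeal (rows e' L) = Submodule.span R {P.det⁻¹} * detIdeal (rows e L) := by
  have hcard : Fintype.card ι = Fintype.card κ := by
    rw [← finrank_span_eq_card he, ← finrank_span_eq_card he', hspan]
  refine ⟨hcard, ?_⟩
  let σ : ι ≃ κ := Fintype.equivOfCardEq hcard
  let f : ι → W := fun i => e' (σ i)
  have hf : LinearIndependent ℂ f := he'.comp σ σ.injective
  have hrange : Set.range f = Set.range e' := by
    change Set.range (e' ∘ σ) = _
    rw [Set.range_comp, Set.range_eq_univ.2 σ.surjective, Set.image_univ]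
  have hP : ∀ i, ∃ p : ι → ℂ, ∑ j, p j • e j = f i := by
    intro i
    rw [← Submodule.mem_span_range_iff_exists_fun ℂ, hspan, ← hrange]
    exact Submodule.subset_span ⟨i, rfl⟩
  have hQ : ∀ i, ∃ p : ι → ℂ, ∑ j, p j • f j = e i := by
    intro i
    rw [← Submodule.mem_span_range_iff_exists_fun ℂ, hrange, ← hspan]
    exact Submodule.subset_span ⟨i, rfl⟩
  choose P hP using hP
  choose Q hQ using hQ
  have hPQ : (Matrix.of P) * (Matrix.of Q) = 1 := by
    ext i k
    have h1 : ∑ k, (Matrix.vecMul (P i) (Matrix.of Q)) k • f k =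
        ∑ k, (Pi.single i (1 : ℂ) : ι → ℂ) k • f k := by
      rw [linComb_vecMul f e (Matrix.of Q) hQ (P i), hP i]
      simp [Pi.single_apply, ite_smul]
    have h2 := (Fintype.linearIndependent_iff.1 hf)
      (fun k => (Matrix.vecMul (P i) (Matrix.of Q)) k - (Pi.single i (1 : ℂ) : ι → ℂ) k) (by
        simp only [sub_smul, Finset.sum_sub_distrib, h1, sub_self]) k
    rw [sub_eq_zero] at h2
    rw [Matrix.mul_apply, Matrix.one_apply]
    simp only [Matrix.vecMul, dotProduct, Matrix.of_apply] at h2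
    simp only [Matrix.of_apply]
    rw [h2]
    simp [Pi.single_apply, eq_comm]
  have hdet : (Matrix.of P).det ≠ 0 := by
    intro h0
    have := congrArg Matrix.det hPQ
    rw [Matrix.det_mul, h0, zero_mul, Matrix.det_one] at this
    exact zero_ne_one this
  have hrows := h4 R ι (rows e L) (rows f L) (Matrix.of P) hdet (by
    intro c
    rw [mem_rows, mem_rows, linComb_vecMul e f (Matrix.of P) hP c])
  have hcomap : (rows f L).comap (LinearMap.funLeft R ℂ σ) = rows e' L := by
    ext g
    rw [Submodule.mem_comap, mem_rows, mem_rows]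
    have : ∑ i, (LinearMap.funLeft R ℂ σ g) i • f i = ∑ k, g k • e' k := by
      simp only [LinearMap.funLeft_apply, f]
      exact Equiv.sum_comp σ (fun k => g k • e' k)
    rw [this]
  have h3' := h3 R ι κ σ (rows f L)
  rw [hcomap] at h3'
  refine ⟨σ, Matrix.of P, hdet, hP, ?_⟩
  rw [h3', hrows, ← mul_assoc, Submodule.span_mul_span, Set.singleton_mul_singleton,
      inv_mul_cancel₀ hdet, ← Submodule.one_eq_span, one_mul]

end C3aux

open C3aux in
theorem stC3 (h3 : StA3) (h4 : StA4) : StC3 := by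
  intro R N L ι κ _ _ _ _ e e' he he'
  have hspan : Submodule.span ℂ (Set.range e) = Submodule.span ℂ (Set.range e') :=
    he.2.trans he'.2.symm
  obtain ⟨hcard, σ, P, hdet, hP, hrows⟩ := rows_change h3 h4 L e e' he.1 he'.1 hspan
  refine ⟨hcard, P.det⁻¹, inv_ne_zero hdet, hrows, ?_⟩
  have hg : gram N (fun i => e' (σ i)) = (gram N e').submatrix σ σ := rfl
  have hg2 : (gram N (fun i => e' (σ i))).det = (gram N e').det := by
    rw [hg, Matrix.det_submatrix_equiv_self]
  rw [← hg2, gram_change N e _ P hP, Matrix.det_mul, Matrix.det_mul,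
    Matrix.det_conjTranspose, norm_mul, norm_mul, norm_star, norm_inv]
  have : ‖P.det‖ ≠ 0 := norm_ne_zero_iff.2 hdet
  field_simp

end Pool.Agent.Lib.MP0cb87d
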