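import Pool.Agent.Lib.MP_0cb87d_ag.Stmts

/-!
Module C4: the Gram determinant of a frame is not zero.
-/

namespace Pool.Agent.Lib.MP0cb87d

open TensorProduct

namespace C4aux

theorem conj_tmul (V : Type) [AddCommGroup V] (a : ℂ) (v : V) :
    conj V (a ⊗ₜ[ℤ] v) = (starRingEnd ℂ a) ⊗ₜ[ℤ] v := rfl

theorem conj_smul (V : Type) [AddCommGroup V] (c : ℂ) (x : ℂ ⊗[ℤ] V) :
    conj V (c • x) = (starRingEnd ℂ c) • conj V x := by
  induction x using TensorProduct.induction_on with
  | zero => simp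
  | tmul a v =>
    rw [TensorProduct.smul_tmul', conj_tmul, conj_tmul, TensorProduct.smul_tmul']
    congr 1
    simp
  | add x y hx hy => rw [smul_add, map_add, hx, hy, map_add, smul_add]

end C4aux

open C4aux in
theorem stC4 : StC4 := by
  intro R F N ι _ _ e he hdet
  obtain ⟨c, hc, hcg⟩ := Matrix.exists_vecMul_eq_zero_iff.2 hdet
  apply hc
  have hx1 : (∑ i, c i • e i) ∈ Submodule.span ℂ (Set.range e) :=
    Submodule.sum_mem _ fun i _ => Submodule.smul_mem _ _ (Submodule.subset_span ⟨i, rfl⟩)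
  have hx : (∑ i, c i • e i) ∈ Submodule.span ℂ (F.L N : Set (ℂ ⊗[ℤ] N.V)) := he.2.le hx1
  have key : ∀ j, N.form.baseChange ℂ (∑ i, c i • e i) (conj N.V (e j)) = 0 := by
    intro j
    rw [map_sum, LinearMap.sum_apply]
    have h := congrFun hcg j
    rw [Pi.zero_apply, Matrix.vecMul, dotProduct] at h
    rw [← h]
    refine Finset.sum_congr rfl fun i _ => ?_
    rw [map_smul, LinearMap.smul_apply, smul_eq_mul]
    rfl
  have hx0 : (∑ i, c i • e i) = 0 := by
    refine F.nondeg N _ hx fun y hy => ?_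
    have hy1 : y ∈ Submodule.span ℂ (F.L N : Set (ℂ ⊗[ℤ] N.V)) := Submodule.subset_span hy
    have hy' : y ∈ Submodule.span ℂ (Set.range e) := he.2.ge hy1
    obtain ⟨d, rfl⟩ := (Submodule.mem_span_range_iff_exists_fun ℂ).1 hy'
    have h1 : conj N.V (∑ j, d j • e j) = ∑ j, (starRingEnd ℂ (d j)) • conj N.V (e j) := by
      rw [map_sum]
      exact Finset.sum_congr rfl fun j _ => conj_smul _ _ _
    rw [h1, map_sum]
    refine Finset.sum_eq_zero fun j _ => ?_
    rw [map_smul, key, smul_zero]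
  have hli := Fintype.linearIndependent_iff.1 he.1 c hx0
  funext i
  exact hli i

end Pool.Agent.Lib.MP0cb87d
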