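import Pool.Agent.Lib.MP_0cb87d_ag.Stmts

/-! Module D0: the zero lattice and the formal measure argument. -/

namespace Pool.Agent.Lib.MP0cb87d

open TensorProduct

namespace D0aux

/-- The zero Hodge lattice. -/
noncomputable def zeroLattice : HodgeLattice where
  V := PUnit
  comp := fun _ => ⊥
  internal := by
    have hs : Subsingleton (ℂ ⊗[ℤ] PUnit) := inferInstance
    constructor
    · intro x y _
      refine DFinsupp.ext fun i => ?_
      exact Subsingleton.elim _ _
    · intro y
      exact ⟨0, Subsingleton.elim _ _⟩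
  conj_mem := fun k x hx => by
    rw [Submodule.mem_bot] at hx ⊢
    rw [hx, map_zero]
  form := 0
  symm := fun x y => rfl
  unimodular := by
    constructor
    · intro x y _
      exact Subsingleton.elim _ _
    · intro l
      refine ⟨0, ?_⟩
      ext x
      rw [Subsingleton.elim x 0, map_zero, map_zero]
  orth := fun k l _ x hx y _ => by
    rw [Submodule.mem_bot] at hx
    rw [hx, map_zero, LinearMap.zero_apply]
  polarizable := by
    refine ⟨0, fun k l _ x hx y _ => ?_, fun k x hx hx0 => ?_⟩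
    · rw [Submodule.mem_bot] at hx
      rw [hx, map_zero, LinearMap.zero_apply]
    · rw [Submodule.mem_bot] at hx
      exact absurd hx hx0

theorem isHodge_zero (N M : HodgeLattice) : IsHodge N M 0 := by
  intro k x _
  rw [LinearMap.baseChange_zero, LinearMap.zero_apply]
  exact zero_mem _

theorem gen_of_orthSum {A B M : HodgeLattice} (h : OrthSum A B M) : Gen 1 1 A B M := by
  obtain ⟨a, b, ha, hb, hbij, haa, hbb, hab⟩ := h
  refine ⟨a, fun _ => b, ha, fun _ => hb, ?_, haa, fun _ x y => hab x y, ?_, ?_⟩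
  · have : (fun z : A.V × (Fin 1 → B.V) => a z.1 + ∑ i : Fin 1, b (z.2 i)) =
        (fun z : A.V × B.V => a z.1 + b z.2) ∘
          (Prod.map id (Equiv.funUnique (Fin 1) B.V)) := by
      funext z
      simp
    rw [this]
    exact hbij.comp (Function.bijective_id.prodMap (Equiv.bijective _))
  · intro i j hij
    omega
  · intro i j _ x y
    rw [hbb, one_mul]

theorem gen_of_blowup {m : ℕ} {A N M : HodgeLattice} (h : BlowupLattice m A N M) :
    Gen (-1) m A N M := by
  obtain ⟨a, b, ha, hb, hbij, haa, hab, h1, h2⟩ := h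
  refine ⟨a, b, ha, hb, hbij, haa, hab, h1, ?_⟩
  intro i j hij x y
  rw [h2 i j hij x y, neg_one_mul]

end D0aux

open D0aux

theorem stD0 : StD0 := by
  intro s m N M h
  obtain ⟨b, hb, hbij, h1, h2⟩ := h
  refine ⟨zeroLattice, (inferInstance : Subsingleton PUnit), 0, b, isHodge_zero _ _, hb, ?_,
    ?_, ?_, h1, h2⟩
  · constructor
    · intro z w hzw
      have h3 : (fun z : Fin m → N.V => ∑ i, b i (z i)) z.2 =
          (fun z : Fin m → N.V => ∑ i, b i (z i)) w.2 := by
        simpa using hzw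
      refine Prod.ext ?_ (hbij.1 h3)
      exact (Subsingleton.elim (α := PUnit) z.1 w.1)
    · intro y
      obtain ⟨z, hz⟩ := hbij.2 y
      refine ⟨((0 : zeroLattice.V), z), ?_⟩
      simpa using hz
  · intro x y
    have h3 : M.form ((0 : zeroLattice.V →ₗ[ℤ] M.V) x) ((0 : zeroLattice.V →ₗ[ℤ] M.V) y) = 0 := by
      rw [LinearMap.zero_apply, map_zero, LinearMap.zero_apply]
    have h4 : zeroLattice.form x y = 0 := rfl
    rw [h3, h4]
  · intro i x y
    rw [LinearMap.zero_apply, map_zero, LinearMap.zero_apply]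

theorem stD (h0 : StD0) (h1 : StD1) : StD := by
  intro R F C X Y hXY ι κ _ _ _ _ e e' he he'
  obtain ⟨G, _, δ, n, hgen, hzero, hcomp⟩ := h1 R F
  -- the measure
  let μ : FreeAbelianGroup C.Var →+ G × ℤ :=
    FreeAbelianGroup.lift fun X => (δ (C.H X), n (C.H X))
  have hμ : ∀ X, μ (FreeAbelianGroup.of X) = (δ (C.H X), n (C.H X)) := fun X =>
    FreeAbelianGroup.lift_apply_of _ X
  have hbundle : ∀ (m : ℕ) (N M : HodgeLattice), Bundle 1 m N M →
      δ M = m • δ N ∧ n M = m * n N := by
    intro m N M hb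
    obtain ⟨Z, hZ, hg⟩ := h0 1 m N M hb
    obtain ⟨h2, h3⟩ := hgen 1 m Z N M (Or.inl rfl) hg
    obtain ⟨h4, h5⟩ := hzero Z hZ
    rw [h4, zero_add] at h2
    rw [h5, zero_add] at h3
    exact ⟨h2, h3⟩
  have hrel : ∀ z ∈ C.relations, μ z = 0 := by
    intro z hz
    have hle : C.relations ≤ μ.ker := by
      refine (AddSubgroup.closure_le _).2 ?_
      rintro w ((⟨X, hX, rfl⟩ | ⟨X, Y, S, hS, rfl⟩) | ⟨X, Z, m, B, E, hB, rfl⟩)
      · rw [SetLike.mem_coe, AddMonoidHom.mem_ker, hμ]
        obtain ⟨h4, h5⟩ := hzero (C.H X) (C.empty_spec X hX)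
        rw [h4, h5]
        rfl
      · rw [SetLike.mem_coe, AddMonoidHom.mem_ker, map_sub, map_add, hμ, hμ, hμ]
        obtain ⟨h4, h5⟩ := hgen 1 1 _ _ _ (Or.inl rfl) (gen_of_orthSum (C.union_spec X Y S hS))
        rw [h4, h5]
        ext
        · simp
        · simp
      · rw [SetLike.mem_coe, AddMonoidHom.mem_ker, map_sub, map_sub, map_sub, hμ, hμ, hμ, hμ]
        obtain ⟨hbl, hbu⟩ := C.blowup_spec X Z m B E hB
        obtain ⟨h4, h5⟩ := hgen (-1) m _ _ _ (Or.inr rfl) (gen_of_blowup hbl)
        obtain ⟨h6, h7⟩ := hbundle (m + 1) _ _ hbu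
        rw [h4, h5, h6, h7]
        ext
        · simp only [Prod.fst_sub, Prod.fst_zero, add_smul, one_smul]
          abel
        · simp only [Prod.snd_sub, Prod.snd_zero]
          push_cast
          ring
    exact AddMonoidHom.mem_ker.1 (hle hz)
  have hmul : ∀ z, μ (C.mulL z) = μ z := by
    intro z
    have hc : μ.comp C.mulL = μ := by
      refine FreeAbelianGroup.lift_ext _ _ fun X => ?_
      rw [AddMonoidHom.comp_apply]
      have h2 : C.mulL (FreeAbelianGroup.of X) =
          FreeAbelianGroup.of (C.timesP1 X) - FreeAbelianGroup.of X :=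
        FreeAbelianGroup.lift_apply_of _ X
      rw [h2, map_sub, hμ, hμ]
      obtain ⟨h3, h4⟩ := hbundle 2 _ _ (C.timesP1_spec X)
      rw [h3, h4]
      ext
      · simp only [Prod.fst_sub, two_smul]
        abel
      · simp only [Prod.snd_sub]
        push_cast
        ring
    exact DFunLike.congr_fun hc z
  have hiter : ∀ (k : ℕ) z, μ ((C.mulL)^[k] z) = μ z := by
    intro k
    induction k with
    | zero => intro z; rfl
    | succ k ih =>
      intro z
      rw [Function.iterate_succ_apply, ih, hmul]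
  obtain ⟨k, hk⟩ := hXY
  have h2 := hrel _ hk
  rw [hiter, map_sub, hμ, hμ, sub_eq_zero, Prod.mk.injEq] at h2
  exact hcomp _ _ h2.1 h2.2 ι κ e e' he he'

end Pool.Agent.Lib.MP0cb87d
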