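import Pool.Agent.Lib.MP_0cb87d_ag.Stmts

/-! The invariant of Hodge lattices with values in an abelian group. -/

namespace Pool.Agent.Lib.MP0cb87d

open TensorProduct

namespace D1aux

/-- The span of one complex number, as a homomorphism of monoids. -/
noncomputable def spanHom (R : Subring ℂ) : ℂ →* Submodule R ℂ where
  toFun c := Submodule.span R {c}
  map_one' := Submodule.one_eq_span.symm
  map_mul' a b := by
    rw [Submodule.span_mul_span, Set.singleton_mul_singleton]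

/-- The change of the pair (determinant ideal, inverse Gram determinant) by a complex number. -/
noncomputable def chg (R : Subring ℂ) : ℂˣ →* (Submodule R ℂ)ˣ × ℝˣ :=
  (Units.map (spanHom R)).prod (Units.map ((normHom : ℂ →*₀ ℝ).toMonoidHom ^ 2))

theorem chg_fst (R : Subring ℂ) (c : ℂˣ) :
    (((chg R c).1 : (Submodule R ℂ)ˣ) : Submodule R ℂ) = Submodule.span R {(c : ℂ)} := rfl

theorem chg_snd (R : Subring ℂ) (c : ℂˣ) : (((chg R c).2 : ℝˣ) : ℝ) = ‖(c : ℂ)‖ ^ 2 := rfl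

/-- The group of values. -/
abbrev Val (R : Subring ℂ) : Type := ((Submodule R ℂ)ˣ × ℝˣ) ⧸ (chg R).range

theorem isUnit_frame (h3 : StC3) {R : Subring ℂ} (F : LatFunctor R) (N : HodgeLattice)
    {ι : Type} [Fintype ι] [DecidableEq ι] (e : ι → ℂ ⊗[ℤ] N.V) (he : IsFrame (F.L N) e) :
    IsUnit (detIdeal (rows e (F.L N))) := by
  obtain ⟨n, e₀, h₀, hu⟩ := F.inv N
  obtain ⟨-, c, hc, h, -⟩ := h3 R N (F.L N) (Fin n) ι e₀ e h₀ he
  rw [h]
  exact IsUnit.mul ((chg R (Units.mk0 c hc)).1.isUnit) hu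

/-- The value of a frame. -/
noncomputable def val (h3 : StC3) (h4 : StC4) {R : Subring ℂ} (F : LatFunctor R)
    (N : HodgeLattice) {ι : Type} [Fintype ι] [DecidableEq ι] (e : ι → ℂ ⊗[ℤ] N.V)
    (he : IsFrame (F.L N) e) : (Submodule R ℂ)ˣ × ℝˣ :=
  ((isUnit_frame h3 F N e he).unit,
    Units.mk0 (‖(gram N e).det‖⁻¹) (inv_ne_zero (norm_ne_zero_iff.2 (h4 R F N ι e he))))

theorem val_fst (h3 : StC3) (h4 : StC4) {R : Subring ℂ} (F : LatFunctor R)
    (N : HodgeLattice) {ι : Type} [Fintype ι] [DecidableEq ι] (e : ι → ℂ ⊗[ℤ] N.V)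
    (he : IsFrame (F.L N) e) :
    ((val h3 h4 F N e he).1 : Submodule R ℂ) = detIdeal (rows e (F.L N)) := rfl

theorem val_snd (h3 : StC3) (h4 : StC4) {R : Subring ℂ} (F : LatFunctor R)
    (N : HodgeLattice) {ι : Type} [Fintype ι] [DecidableEq ι] (e : ι → ℂ ⊗[ℤ] N.V)
    (he : IsFrame (F.L N) e) :
    ((val h3 h4 F N e he).2 : ℝ) = ‖(gram N e).det‖⁻¹ := rfl

theorem val_eq (h3 : StC3) (h4 : StC4) {R : Subring ℂ} (F : LatFunctor R)
    (N : HodgeLattice) {ι κ : Type} [Fintype ι] [DecidableEq ι] [Fintype κ] [DecidableEq κ]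
    (e : ι → ℂ ⊗[ℤ] N.V) (he : IsFrame (F.L N) e) (e' : κ → ℂ ⊗[ℤ] N.V)
    (he' : IsFrame (F.L N) e') :
    (QuotientGroup.mk (val h3 h4 F N e he) : Val R) = QuotientGroup.mk (val h3 h4 F N e' he') := by
  obtain ⟨-, c, hc, h, hg⟩ := h3 R N (F.L N) ι κ e e' he he'
  rw [QuotientGroup.eq]
  refine ⟨Units.mk0 c hc, ?_⟩
  rw [eq_inv_mul_iff_mul_eq]
  refine Prod.ext (Units.ext ?_) (Units.ext ?_)
  · rw [Prod.fst_mul, Units.val_mul, val_fst, val_fst, chg_fst, h, mul_comm, Units.val_mk0]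
  · rw [Prod.snd_mul, Units.val_mul, val_snd, val_snd, chg_snd, hg, Units.val_mk0]
    have h1 : ‖c‖ ≠ 0 := norm_ne_zero_iff.2 hc
    have h2 : ‖(gram N e').det‖ ≠ 0 := norm_ne_zero_iff.2 (h4 R F N κ e' he')
    field_simp

theorem gen_self (N : HodgeLattice) (h : Subsingleton N.V) : Gen 1 1 N N N := by
  refine ⟨LinearMap.id, fun _ => LinearMap.id, fun k x hx => ?_, fun _ k x hx => ?_, ⟨?_, ?_⟩,
    fun x y => rfl, fun i x y => ?_, fun i j _ x y => ?_, fun i j _ x y => ?_⟩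
  · rwa [LinearMap.baseChange_id, LinearMap.id_apply]
  · rwa [LinearMap.baseChange_id, LinearMap.id_apply]
  · exact Function.injective_of_subsingleton _
  · exact fun y => ⟨0, Subsingleton.elim _ _⟩
  · rw [Subsingleton.elim x 0]; simp
  · rw [Subsingleton.elim x 0]; simp
  · rw [Subsingleton.elim x 0]; simp

theorem eq_zero_aux {G : Type} [AddCommGroup G] {x : G} (h : x = x + 1 • x) : x = 0 := by
  rw [one_nsmul] at h
  exact left_eq_add.1 h

end D1aux

open D1aux in
theorem stD1 (h2 : StC2) (h3 : StC3) (h4 : StC4) : StD1 := by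
  intro R F
  choose n e he _ using F.inv
  set δ : HodgeLattice → Additive (Val R) := fun N =>
    Additive.ofMul (QuotientGroup.mk (val h3 h4 F N (e N) (he N))) with hδ
  have key : ∀ (N : HodgeLattice) {ι : Type} [Fintype ι] [DecidableEq ι] (f : ι → ℂ ⊗[ℤ] N.V)
      (hf : IsFrame (F.L N) f), δ N = Additive.ofMul (QuotientGroup.mk (val h3 h4 F N f hf)) ∧
        (n N : ℤ) = Fintype.card ι := by
    intro N ι _ _ f hf
    refine ⟨congrArg Additive.ofMul (val_eq h3 h4 F N (e N) (he N) f hf), ?_⟩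
    have h := (h3 R N (F.L N) (Fin (n N)) ι (e N) f (he N) hf).1
    rw [Fintype.card_fin] at h
    exact_mod_cast h
  have add : ∀ (s : ℤ) (m : ℕ) (A N M : HodgeLattice), (s = 1 ∨ s = -1) → Gen s m A N M →
      δ M = δ A + m • δ N ∧ (n M : ℤ) = n A + m * n N := by
    intro s m A N M hs hG
    obtain ⟨f, hf, hd, hg⟩ := h2 R F s hs m A N M hG (Fin (n A)) (Fin (n N)) (e A) (e N)
      (he A) (he N)
    obtain ⟨k1, k2⟩ := key M f hf
    constructor
    · rw [k1, hδ]
      have : val h3 h4 F M f hf = val h3 h4 F A (e A) (he A) * val h3 h4 F N (e N) (he N) ^ m := by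
        refine Prod.ext (Units.ext ?_) (Units.ext ?_)
        · rw [Prod.fst_mul, Prod.pow_fst, Units.val_mul, Units.val_pow_eq_pow_val, val_fst, val_fst,
            val_fst, hd]
        · rw [Prod.snd_mul, Prod.pow_snd, Units.val_mul, Units.val_pow_eq_pow_val, val_snd, val_snd,
            val_snd, hg, mul_inv, inv_pow]
      rw [this]
      rfl
    · rw [k2]
      simp
  refine ⟨Additive (Val R), inferInstance, δ, fun N => (n N : ℤ), add, ?_, ?_⟩
  · intro N hN
    obtain ⟨h5, h6⟩ := add 1 1 N N N (Or.inl rfl) (gen_self N hN)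
    constructor
    · exact eq_zero_aux h5
    · have h7 : (n N : ℤ) = n N + ((1 : ℕ) : ℤ) * n N := h6
      rw [Nat.cast_one, one_mul] at h7
      exact left_eq_add.1 h7
  · intro N M hNM hn ι κ _ _ _ _ f f' hf hf'
    obtain ⟨k1, k2⟩ := key N f hf
    obtain ⟨k3, k4⟩ := key M f' hf'
    have hn' : (n N : ℤ) = n M := hn
    refine ⟨?_, ?_⟩
    · rw [k2, k4] at hn'
      exact_mod_cast hn'
    · rw [k1, k3] at hNM
      have h5 : (QuotientGroup.mk (val h3 h4 F N f hf) : Val R) =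
        QuotientGroup.mk (val h3 h4 F M f' hf') := hNM
      rw [QuotientGroup.eq] at h5
      obtain ⟨c, hc⟩ := h5
      rw [eq_inv_mul_iff_mul_eq] at hc
      refine ⟨c, c.ne_zero, ?_, ?_⟩
      · have h6 := congrArg (fun z : (Submodule R ℂ)ˣ × ℝˣ => (z.1 : Submodule R ℂ)) hc
        simp only [Prod.fst_mul, Units.val_mul, val_fst, chg_fst] at h6
        rw [← h6, mul_comm]
      · have h6 := congrArg (fun z : (Submodule R ℂ)ˣ × ℝˣ => (z.2 : ℝ)) hc
        simp only [Prod.snd_mul, Units.val_mul, val_snd, chg_snd] at h6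
        have h7 : ‖(gram N f).det‖ ≠ 0 := norm_ne_zero_iff.2 (h4 R F N ι f hf)
        have h8 : ‖(gram M f').det‖ ≠ 0 := norm_ne_zero_iff.2 (h4 R F M κ f' hf')
        field_simp at h6
        linarith

end Pool.Agent.Lib.MP0cb87d
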