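import Mathlib

/-! Definitions used by the statement on L-equivalent K3 surfaces. -/

namespace Pool.Agent.Lib.MP0cb87d

open TensorProduct

/-- Complex conjugation on the complexification `ℂ ⊗ V` of an abelian group `V`. -/
noncomputable def conj (V : Type) [AddCommGroup V] : ℂ ⊗[ℤ] V →ₗ[ℤ] ℂ ⊗[ℤ] V :=
  LinearMap.rTensor V (starRingEnd ℂ).toAddMonoidHom.toIntLinearMap

/-- A unimodular Hodge lattice: a free abelian group `V` of finite rank with a decomposition
`ℂ ⊗ V = ⨁ comp k` with `comp (-k)` conjugate to `comp k` (think of `H^{p,q}` with `p - q = k`),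
a unimodular symmetric bilinear form for which `comp k` and `comp l` are orthogonal if
`k + l ≠ 0`, and which is polarizable: some other bilinear form `ψ` with the same orthogonality
has `i ^ k * ψ (x, conj x) > 0` for all nonzero `x` in `comp k`. -/
structure HodgeLattice where
  V : Type
  [grp : AddCommGroup V]
  [free : Module.Free ℤ V]
  [fin : Module.Finite ℤ V]
  comp : ℤ → Submodule ℂ (ℂ ⊗[ℤ] V)
  internal : DirectSum.IsInternal comp
  conj_mem : ∀ k, ∀ x ∈ comp k, conj V x ∈ comp (-k)
  form : LinearMap.BilinForm ℤ V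
  symm : ∀ x y, form x y = form y x
  unimodular : Function.Bijective (form : V → V →ₗ[ℤ] ℤ)
  orth : ∀ k l, k + l ≠ 0 → ∀ x ∈ comp k, ∀ y ∈ comp l, form.baseChange ℂ x y = 0
  polarizable : ∃ ψ : LinearMap.BilinForm ℤ V,
    (∀ k l, k + l ≠ 0 → ∀ x ∈ comp k, ∀ y ∈ comp l, ψ.baseChange ℂ x y = 0) ∧
    ∀ k, ∀ x ∈ comp k, x ≠ 0 → 0 < (Complex.I ^ k * ψ.baseChange ℂ x (conj V x)).re

attribute [instance] HodgeLattice.grp HodgeLattice.free HodgeLattice.fin

/-- Homomorphisms compatible with the Hodge decompositions. -/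
def IsHodge (N M : HodgeLattice) (f : N.V →ₗ[ℤ] M.V) : Prop :=
  ∀ k, ∀ x ∈ N.comp k, f.baseChange ℂ x ∈ M.comp k

/-- `M` is the sum of `m` copies of `N`, embedded by Hodge maps `b i`, with
`(b i x, b j y) = 0` if `i + j + 1 < m` and `= s (x, y)` if `i + j + 1 = m` (no condition if
`i + j + 1 > m`). For `s = 1` this is the cohomology of the bundle of projective spaces of
dimension `m - 1` of a vector bundle on a variety with cohomology `N`. -/
def Bundle (s : ℤ) (m : ℕ) (N M : HodgeLattice) : Prop :=
  ∃ b : Fin m → N.V →ₗ[ℤ] M.V, (∀ i, IsHodge N M (b i)) ∧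
    Function.Bijective (fun z : Fin m → N.V => ∑ i, b i (z i)) ∧
    (∀ i j : Fin m, (i : ℕ) + j + 1 < m → ∀ x y, M.form (b i x) (b j y) = 0) ∧
    (∀ i j : Fin m, (i : ℕ) + j + 1 = m → ∀ x y, M.form (b i x) (b j y) = s * N.form x y)

/-- `M` is the orthogonal sum of `A` and of `m` copies of `N` embedded as in `Bundle (-1) m`. For
`A = H(X)`, `N = H(Z)` this is the cohomology of the blow-up of `X` along `Z` of codimension
`m + 1`. -/
def BlowupLattice (m : ℕ) (A N M : HodgeLattice) : Prop :=
  ∃ (a : A.V →ₗ[ℤ] M.V) (b : Fin m → N.V →ₗ[ℤ] M.V), IsHodge A M a ∧ (∀ i, IsHodge N M (b i)) ∧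
    Function.Bijective (fun z : A.V × (Fin m → N.V) => a z.1 + ∑ i, b i (z.2 i)) ∧
    (∀ x y, M.form (a x) (a y) = A.form x y) ∧
    (∀ i x y, M.form (a x) (b i y) = 0) ∧
    (∀ i j : Fin m, (i : ℕ) + j + 1 < m → ∀ x y, M.form (b i x) (b j y) = 0) ∧
    (∀ i j : Fin m, (i : ℕ) + j + 1 = m → ∀ x y, M.form (b i x) (b j y) = - N.form x y)

/-- `M` is the orthogonal sum of `A` and `B`. -/
def OrthSum (A B M : HodgeLattice) : Prop :=
  ∃ (a : A.V →ₗ[ℤ] M.V) (b : B.V →ₗ[ℤ] M.V), IsHodge A M a ∧ IsHodge B M b ∧
    Function.Bijective (fun z : A.V × B.V => a z.1 + b z.2) ∧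
    (∀ x y, M.form (a x) (a y) = A.form x y) ∧ (∀ x y, M.form (b x) (b y) = B.form x y) ∧
    (∀ x y, M.form (a x) (b y) = 0)

/-- A theory of even cohomology: isomorphism classes of smooth projective varieties with their
even integral cohomology modulo torsion (a unimodular Hodge lattice for the cup product), the
products with the projective line, and the relations: `X` is empty; `S` is the disjoint union of
`X` and `Y`; `B` is the blow-up of `X` along the smooth subvariety `Z` of codimension `m + 1`,
with exceptional divisor `E`. -/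
structure EvenCohomology where
  Var : Type
  H : Var → HodgeLattice
  timesP1 : Var → Var
  IsEmptyVar : Var → Prop
  IsUnion : Var → Var → Var → Prop
  IsBlowup : Var → Var → ℕ → Var → Var → Prop
  timesP1_spec : ∀ X, Bundle 1 2 (H X) (H (timesP1 X))
  empty_spec : ∀ X, IsEmptyVar X → Subsingleton (H X).V
  union_spec : ∀ X Y S, IsUnion X Y S → OrthSum (H X) (H Y) (H S)
  blowup_spec : ∀ X Z m B E, IsBlowup X Z m B E →
    BlowupLattice m (H X) (H Z) (H B) ∧ Bundle 1 (m + 1) (H Z) (H E)

namespace EvenCohomology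

variable (C : EvenCohomology)

open FreeAbelianGroup in
/-- Bittner's relations: `[X] = 0` for `X` empty, `[S] = [X] + [Y]` for a disjoint union,
`[B] - [E] = [X] - [Z]` for a blow-up.  The quotient of the free abelian group by them is the
Grothendieck group of varieties. -/
def relations : AddSubgroup (FreeAbelianGroup C.Var) :=
  AddSubgroup.closure
    ({z | ∃ X, C.IsEmptyVar X ∧ z = of X} ∪
     {z | ∃ X Y S, C.IsUnion X Y S ∧ z = of S - (of X + of Y)} ∪
     {z | ∃ X Z m B E, C.IsBlowup X Z m B E ∧ z = (of B - of E) - (of X - of Z)})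

open FreeAbelianGroup in
/-- Multiplication by the class of the affine line: `[X] ↦ [X × ℙ¹] - [X]`. -/
def mulL : FreeAbelianGroup C.Var →+ FreeAbelianGroup C.Var :=
  lift fun X => of (C.timesP1 X) - of X

/-- `X` and `Y` are L-equivalent: `𝕃 ^ n ([X] - [Y]) = 0` in the Grothendieck group for some
`n`. -/
def LEquivalent (X Y : C.Var) : Prop :=
  ∃ n : ℕ, (C.mulL)^[n] (FreeAbelianGroup.of X - FreeAbelianGroup.of Y) ∈ C.relations

end EvenCohomology

section K3

variable (N M : HodgeLattice)

/-- The algebraic classes: the elements of `V` in `comp 0`. -/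
def algebraic : Submodule ℤ N.V where
  carrier := {y | (1 : ℂ) ⊗ₜ[ℤ] y ∈ N.comp 0}
  add_mem' := fun {a b} ha hb => by
    simp only [Set.mem_ofPred_eq, TensorProduct.tmul_add] at *
    exact add_mem ha hb
  zero_mem' := by simp
  smul_mem' := fun c x hx => by
    simp only [Set.mem_ofPred_eq, TensorProduct.tmul_smul] at *
    exact zsmul_mem hx c

/-- The transcendental lattice: the orthogonal complement of the algebraic classes. -/
def transcendental : Submodule ℤ N.V where
  carrier := {x | ∀ y ∈ algebraic N, N.form x y = 0}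
  add_mem' := fun {a b} ha hb y hy => by simp [ha y hy, hb y hy]
  zero_mem' := fun y hy => by simp
  smul_mem' := fun c x hx y hy => by simp [hx y hy]

/-- The even cohomology of a K3 surface: `comp k = 0` unless `k = -2, 0, 2`, `comp 2` is a line
on which `(x, conj x) > 0`, and `(x, conj x) < 0` for nonzero `x` in `comp 0` orthogonal to the
algebraic classes (the Hodge index theorem). -/
structure IsK3 : Prop where
  comp_eq_bot : ∀ k, k ≠ -2 → k ≠ 0 → k ≠ 2 → N.comp k = ⊥
  finrank_comp : Module.finrank ℂ (N.comp 2) = 1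
  pos : ∀ x ∈ N.comp 2, x ≠ 0 → 0 < (N.form.baseChange ℂ x (conj N.V x)).re
  index : ∀ x ∈ N.comp 0, (∀ y ∈ algebraic N, N.form.baseChange ℂ x (1 ⊗ₜ y) = 0) → x ≠ 0 →
    (N.form.baseChange ℂ x (conj N.V x)).re < 0

/-- The inclusion of the complexification of the transcendental lattice. -/
noncomputable def incl : ℂ ⊗[ℤ] (transcendental N) →ₗ[ℂ] ℂ ⊗[ℤ] N.V :=
  (transcendental N).subtype.baseChange ℂ

/-- Homomorphisms between transcendental lattices compatible with the Hodge decompositions. -/
def IsHodgeTrans (f : transcendental N →ₗ[ℤ] transcendental M) : Prop :=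
  ∀ k x, incl N x ∈ N.comp k → incl M (f.baseChange ℂ x) ∈ M.comp k

/-- The ring of Hodge endomorphisms of the transcendental lattice, as a ring of complex numbers:
`c` belongs to it if some Hodge endomorphism acts on `comp 2` as multiplication by `c`. -/
noncomputable def multipliers : Subring ℂ where
  carrier := {c | ∃ f : transcendental N →ₗ[ℤ] transcendental N, IsHodgeTrans N N f ∧
    ∀ x, incl N x ∈ N.comp 2 → f.baseChange ℂ x = c • x}
  mul_mem' := by
    rintro a b ⟨f, hf, hfa⟩ ⟨g, hg, hgb⟩
    refine ⟨f ∘ₗ g, fun k x hx => ?_, fun x hx => ?_⟩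
    · rw [LinearMap.baseChange_comp]
      exact hf k _ (hg k x hx)
    · rw [LinearMap.baseChange_comp, LinearMap.comp_apply, hfa _ (hg 2 x hx), hgb x hx, smul_smul]
  one_mem' := ⟨LinearMap.id, fun k x hx => by simpa using hx, fun x hx => by simp⟩
  add_mem' := by
    rintro a b ⟨f, hf, hfa⟩ ⟨g, hg, hgb⟩
    refine ⟨f + g, fun k x hx => ?_, fun x hx => ?_⟩
    · rw [LinearMap.baseChange_add, LinearMap.add_apply, map_add]
      exact add_mem (hf k x hx) (hg k x hx)
    · rw [LinearMap.baseChange_add, LinearMap.add_apply, hfa x hx, hgb x hx, add_smul]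
  zero_mem' := ⟨0, fun k x hx => by simp, fun x hx => by simp⟩
  neg_mem' := by
    rintro a ⟨f, hf, hfa⟩
    refine ⟨-f, fun k x hx => ?_, fun x hx => ?_⟩
    · rw [LinearMap.baseChange_neg, LinearMap.neg_apply, map_neg]
      exact neg_mem (hf k x hx)
    · rw [LinearMap.baseChange_neg, LinearMap.neg_apply, hfa x hx, neg_smul]

/-- The transcendental lattices are Hodge isometric. -/
def HodgeIsometric : Prop :=
  ∃ e : transcendental N ≃ₗ[ℤ] transcendental M, IsHodgeTrans N M e ∧ IsHodgeTrans M N e.symm ∧
    ∀ x y : transcendental N, M.form (e x) (e y) = N.form x y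

/-- The transcendental lattices are Hodge isometric over the rational numbers: for some `n > 0`
there is an injective Hodge map between them, with image of finite index, which multiplies the
form by `n ^ 2`. -/
def RationallyHodgeIsometric : Prop :=
  ∃ (n : ℕ) (f : transcendental N →ₗ[ℤ] transcendental M), 0 < n ∧ IsHodgeTrans N M f ∧ Function.Injective f ∧
    (∃ m : ℕ, 0 < m ∧ ∀ y : transcendental M, ∃ x : transcendental N, f x = m • y) ∧
    ∀ x y : transcendental N, M.form (f x) (f y) = (n : ℤ) ^ 2 * N.form x y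

end K3

/-- The theorem: if two K3 surfaces `X`, `Y` are L-equivalent, then their transcendental lattices
are Hodge isometric over the rational numbers, and Hodge isometric if the ring of Hodge
endomorphisms of the transcendental lattice of `X` is integrally closed. -/
def MainStatement : Prop :=
  ∀ (C : EvenCohomology) (X Y : C.Var), IsK3 (C.H X) → IsK3 (C.H Y) → C.LEquivalent X Y →
    RationallyHodgeIsometric (C.H X) (C.H Y) ∧
      (IsIntegrallyClosed (multipliers (C.H X)) → HodgeIsometric (C.H X) (C.H Y))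

end Pool.Agent.Lib.MP0cb87d
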