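import Pool.Agent.Lib.MP_0cb87d_ag.Stmts

/-! Duality in Hodge lattices. -/

namespace Pool.Agent.Lib.MP0cb87d

open TensorProduct

namespace E1aux

lemma eq_zero_of_orth (N : HodgeLattice) (x : ℂ ⊗[ℤ] N.V)
    (h : ∀ v : ℂ ⊗[ℤ] N.V, N.form.baseChange ℂ v x = 0) : x = 0 := by
  classical
  let b := Module.Free.chooseBasis ℤ N.V
  have hu : ∀ i, ∃ u : N.V, ∀ v, N.form u v = b.coord i v := by
    intro i
    obtain ⟨u, hu⟩ := N.unimodular.2 (b.coord i)
    exact ⟨u, fun v => congrArg (fun f : N.V →ₗ[ℤ] ℤ => f v) hu⟩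
  choose u hu using hu
  have key : ∀ x : ℂ ⊗[ℤ] N.V, x = ∑ i, (N.form.baseChange ℂ ((1 : ℂ) ⊗ₜ[ℤ] u i) x) •
      ((1 : ℂ) ⊗ₜ[ℤ] b i) := by
    intro x
    induction x using TensorProduct.induction_on with
    | zero => simp
    | tmul c v =>
      conv_lhs => rw [← b.sum_repr v]
      rw [TensorProduct.tmul_sum]
      refine Finset.sum_congr rfl fun i _ => ?_
      have e : ((b.repr v i • c : ℂ)) • ((1 : ℂ) ⊗ₜ[ℤ] b i) = (b.repr v i • c) ⊗ₜ[ℤ] b i := by
        rw [TensorProduct.smul_tmul', smul_eq_mul, mul_one]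
      rw [LinearMap.BilinForm.baseChange_tmul, hu, one_mul, TensorProduct.tmul_smul,
        TensorProduct.smul_tmul', Module.Basis.coord_apply, e]
    | add x y hx hy =>
      conv_lhs => rw [hx, hy]
      rw [← Finset.sum_add_distrib]
      refine Finset.sum_congr rfl fun i _ => ?_
      rw [map_add, add_smul]
  rw [key x]
  exact Finset.sum_eq_zero fun i _ => by rw [h, zero_smul]

/-- every vector is a finite sum of components -/
lemma exists_sum (N : HodgeLattice) (x : ℂ ⊗[ℤ] N.V) :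
    ∃ (s : Finset ℤ) (c : ℤ → ℂ ⊗[ℤ] N.V), (∀ k, c k ∈ N.comp k) ∧ x = ∑ k ∈ s, c k := by
  classical
  obtain ⟨d, hd⟩ := N.internal.2 x
  refine ⟨d.support, fun k => (d k : ℂ ⊗[ℤ] N.V), fun k => (d k).2, ?_⟩
  rw [← hd]
  exact DirectSum.coeAddMonoidHom_eq_dfinsuppSum _ d

lemma mem_comp (N : HodgeLattice) (k : ℤ) (y : ℂ ⊗[ℤ] N.V)
    (h : ∀ l, l + k ≠ 0 → ∀ x ∈ N.comp l, N.form.baseChange ℂ x y = 0) : y ∈ N.comp k := by
  classical
  obtain ⟨s, c, hc, hy⟩ := exists_sum N y
  have h0 : ∀ l ∈ s, l ≠ k → c l = 0 := by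
    intro l hl hlk
    refine eq_zero_of_orth N _ fun v => ?_
    obtain ⟨s', c', hc', hv⟩ := exists_sum N v
    rw [hv, map_sum, LinearMap.sum_apply]
    refine Finset.sum_eq_zero fun j _ => ?_
    by_cases hj : j + l = 0
    · have h1 : N.form.baseChange ℂ (c' j) y = 0 := h j (by omega) _ (hc' j)
      rw [hy, map_sum, Finset.sum_eq_single l] at h1
      · exact h1
      · intro i _ hi
        exact N.orth j i (by omega) _ (hc' j) _ (hc i)
      · intro h2
        exact absurd hl h2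
    · exact N.orth j l hj _ (hc' j) _ (hc l)
  rw [hy]
  refine Submodule.sum_mem _ fun l hl => ?_
  by_cases hlk : l = k
  · rw [hlk]
    exact hc k
  · rw [h0 l hl hlk]
    exact Submodule.zero_mem _

end E1aux

open E1aux

theorem stE1 : StE1 := by
  intro X S N ψ hψ f hf
  let q : N.V ≃ₗ[ℤ] (N.V →ₗ[ℤ] ℤ) := LinearEquiv.ofBijective N.form N.unimodular
  let g : S →ₗ[ℤ] N.V := q.symm.toLinearMap ∘ₗ (LinearMap.flip ψ) ∘ₗ f
  have hg : ∀ (x : N.V) (t : S), N.form x (g t) = ψ x (f t) := by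
    intro x t
    rw [N.symm]
    have h1 : q (g t) = LinearMap.flip ψ (f t) := q.apply_symm_apply _
    exact congrArg (fun l : N.V →ₗ[ℤ] ℤ => l x) h1
  have hgC : ∀ (x : ℂ ⊗[ℤ] N.V) (t : ℂ ⊗[ℤ] S),
      N.form.baseChange ℂ x (g.baseChange ℂ t) = ψ.baseChange ℂ x (f.baseChange ℂ t) := by
    intro x t
    induction t using TensorProduct.induction_on with
    | zero => simp
    | tmul c t =>
      induction x using TensorProduct.induction_on with
      | zero => simp
      | tmul c' x =>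
        rw [LinearMap.baseChange_tmul, LinearMap.baseChange_tmul,
          LinearMap.BilinForm.baseChange_tmul, LinearMap.BilinForm.baseChange_tmul, hg]
      | add x y hx hy =>
        rw [map_add, LinearMap.add_apply, hx, hy, map_add, LinearMap.add_apply]
    | add s t hs ht =>
      rw [map_add, map_add, hs, ht, map_add, map_add]
  refine ⟨g, fun k t ht => mem_comp N k _ fun l hl x hx => ?_, hg, hgC⟩
  rw [hgC]
  exact hψ l k hl x hx _ (hf k t ht)

theorem stE2 : StE2 := by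
  intro N l hl
  obtain ⟨y, hy⟩ := N.unimodular.2 l
  have hy' : ∀ x, l x = N.form x y := by
    intro x
    rw [N.symm]
    exact (congrArg (fun l : N.V →ₗ[ℤ] ℤ => l x) hy).symm
  have hC : ∀ x : ℂ ⊗[ℤ] N.V, N.form.baseChange ℂ x ((1 : ℂ) ⊗ₜ[ℤ] y) =
      TensorProduct.AlgebraTensorModule.rid ℤ ℂ ℂ (l.baseChange ℂ x) := by
    intro x
    induction x using TensorProduct.induction_on with
    | zero => simp
    | tmul c v =>
      rw [LinearMap.baseChange_tmul, TensorProduct.AlgebraTensorModule.rid_tmul,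
        LinearMap.BilinForm.baseChange_tmul, mul_one, hy']
    | add x y hx hy =>
      rw [map_add, LinearMap.add_apply, hx, hy, map_add, map_add]
  refine ⟨y, mem_comp N 0 _ fun k hk x hx => ?_, hy'⟩
  rw [hC, hl k (by omega) x hx, map_zero]

end Pool.Agent.Lib.MP0cb87d
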