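import Pool.Agent.Lib.MP_0cb87d_ag.Stmts

/-! Module F1: the complexification of the transcendental lattice. -/

set_option autoImplicit false

namespace Pool.Agent.Lib.MP0cb87d

open TensorProduct

namespace F1aux

/-- The inclusion of the complexification of a subgroup is injective. -/
theorem incl_injective (N : HodgeLattice) : Function.Injective (incl N) :=
  Module.Flat.lTensor_preserves_injective_linearMap (M := ℂ) (transcendental N).subtype
    (transcendental N).injective_subtype

/-- The products with finitely many elements, as a homomorphism. -/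
def prodMap (N : HodgeLattice) {n : ℕ} (y : Fin n → N.V) : N.V →ₗ[ℤ] (Fin n → ℤ) :=
  LinearMap.pi fun i => N.form.flip (y i)

theorem exact_prodMap (N : HodgeLattice) {n : ℕ} (y : Fin n → N.V)
    (hy : Submodule.span ℤ (Set.range y) = algebraic N) :
    Function.Exact (transcendental N).subtype (prodMap N y) := by
  intro x
  constructor
  · intro hx
    refine ⟨⟨x, ?_⟩, rfl⟩
    intro z hz
    rw [← hy] at hz
    induction hz using Submodule.span_induction with
    | mem z hz =>
      obtain ⟨i, rfl⟩ := hz
      exact congrFun hx i
    | zero => simp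
    | add a b _ _ ha hb => rw [map_add, ha, hb, add_zero]
    | smul c a _ ha => rw [map_smul, ha, smul_zero]
  · rintro ⟨t, rfl⟩
    funext i
    have h : y i ∈ algebraic N := by
      rw [← hy]
      exact Submodule.subset_span ⟨i, rfl⟩
    exact t.2 (y i) h

theorem piScalar_prodMap (N : HodgeLattice) {n : ℕ} (y : Fin n → N.V) (x : ℂ ⊗[ℤ] N.V)
    (i : Fin n) :
    TensorProduct.piScalarRight ℤ ℂ ℂ (Fin n) (LinearMap.lTensor ℂ (prodMap N y) x) i =
      N.form.baseChange ℂ x (1 ⊗ₜ y i) := by
  induction x using TensorProduct.induction_on with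
  | zero => simp
  | add a b ha hb => rw [map_add, map_add, map_add, Pi.add_apply, ha, hb, LinearMap.add_apply]
  | tmul c v =>
    rw [LinearMap.lTensor_tmul, LinearMap.BilinForm.baseChange_tmul]
    simp [prodMap]

end F1aux

open F1aux in
theorem stF1 : StF1 := by
  intro N
  refine ⟨incl_injective N, ?_⟩
  obtain ⟨n, y, hy⟩ := Submodule.fg_iff_exists_fin_generating_family.1
    (IsNoetherian.noetherian (algebraic N))
  have hex := Module.Flat.lTensor_exact ℂ (exact_prodMap N y hy)
  intro x
  have h1 : (∃ t, incl N t = x) ↔ LinearMap.lTensor ℂ (prodMap N y) x = 0 := (hex x).symm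
  rw [h1]
  constructor
  · intro h z hz
    rw [← hy] at hz
    induction hz using Submodule.span_induction with
    | mem z hz =>
      obtain ⟨i, rfl⟩ := hz
      rw [← piScalar_prodMap, h, map_zero, Pi.zero_apply]
    | zero => simp
    | add a b _ _ ha hb => rw [TensorProduct.tmul_add, map_add, ha, hb, add_zero]
    | smul c a _ ha => rw [TensorProduct.tmul_smul, map_zsmul, ha, smul_zero]
  · intro h
    apply (TensorProduct.piScalarRight ℤ ℂ ℂ (Fin n)).injective
    rw [map_zero]
    funext i
    rw [piScalar_prodMap, Pi.zero_apply]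
    apply h
    rw [← hy]
    exact Submodule.subset_span ⟨i, rfl⟩

end Pool.Agent.Lib.MP0cb87d
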