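import Pool.Agent.Lib.MP_0cb87d_ag.Stmts

/-! Module F2: periods and nondegeneracy of the transcendental lattice of a K3 surface. -/

set_option autoImplicit false

namespace Pool.Agent.Lib.MP0cb87d

open TensorProduct

namespace F2aux

theorem conj_tmul (V : Type) [AddCommGroup V] (a : ℂ) (v : V) :
    conj V (a ⊗ₜ[ℤ] v) = (starRingEnd ℂ a) ⊗ₜ[ℤ] v := rfl

theorem conj_conj (V : Type) [AddCommGroup V] (x : ℂ ⊗[ℤ] V) : conj V (conj V x) = x := by
  induction x using TensorProduct.induction_on with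
  | zero => simp
  | tmul a v => rw [conj_tmul, conj_tmul, Complex.conj_conj]
  | add x y hx hy => rw [map_add, map_add, hx, hy]

theorem conj_smul (V : Type) [AddCommGroup V] (c : ℂ) (x : ℂ ⊗[ℤ] V) :
    conj V (c • x) = (starRingEnd ℂ c) • conj V x := by
  induction x using TensorProduct.induction_on with
  | zero => simp
  | tmul a v =>
    rw [TensorProduct.smul_tmul', conj_tmul, conj_tmul, TensorProduct.smul_tmul', smul_eq_mul,
      smul_eq_mul, map_mul]
  | add x y hx hy => rw [smul_add, map_add, hx, hy, map_add, smul_add]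

theorem form_conj {V : Type} [AddCommGroup V] (B : LinearMap.BilinForm ℤ V) (x y : ℂ ⊗[ℤ] V) :
    B.baseChange ℂ (conj V x) (conj V y) = starRingEnd ℂ (B.baseChange ℂ x y) := by
  induction x using TensorProduct.induction_on with
  | zero => simp
  | add x x' hx hx' => rw [map_add, map_add, map_add, LinearMap.add_apply, LinearMap.add_apply,
      map_add, hx, hx']
  | tmul a v =>
    induction y using TensorProduct.induction_on with
    | zero => simp
    | add y y' hy hy' => rw [map_add, map_add, map_add, hy, hy', map_add]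
    | tmul b w =>
      rw [conj_tmul, conj_tmul, LinearMap.BilinForm.baseChange_tmul,
        LinearMap.BilinForm.baseChange_tmul]
      simp

theorem form_symm {V : Type} [AddCommGroup V] (B : LinearMap.BilinForm ℤ V)
    (hB : ∀ x y, B x y = B y x) (x y : ℂ ⊗[ℤ] V) :
    B.baseChange ℂ x y = B.baseChange ℂ y x := by
  induction x using TensorProduct.induction_on with
  | zero => simp
  | add x x' hx hx' => rw [map_add, map_add, LinearMap.add_apply, hx, hx']
  | tmul a v =>
    induction y using TensorProduct.induction_on with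
    | zero => simp
    | add y y' hy hy' => rw [map_add, map_add, LinearMap.add_apply, hy, hy']
    | tmul b w =>
      rw [LinearMap.BilinForm.baseChange_tmul, LinearMap.BilinForm.baseChange_tmul, hB v w,
        mul_comm]

/-- Products of integral vectors. -/
theorem form_one (N : HodgeLattice) (x y : N.V) :
    N.form.baseChange ℂ (1 ⊗ₜ x) (1 ⊗ₜ y) = (N.form x y : ℂ) := by
  rw [LinearMap.BilinForm.baseChange_tmul]
  simp

/-- The map `x ↦ 1 ⊗ x` is injective. -/
theorem one_tmul_eq_zero (N : HodgeLattice) (x : N.V) (h : (1 : ℂ) ⊗ₜ[ℤ] x = 0) : x = 0 := by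
  apply N.unimodular.1
  rw [map_zero]
  apply LinearMap.ext
  intro y
  have h1 := form_one N x y
  rw [h, map_zero, LinearMap.zero_apply] at h1
  rw [LinearMap.zero_apply]
  exact_mod_cast h1.symm

/-- The Hodge decomposition of the cohomology of a K3 surface. -/
theorem decomp (N : HodgeLattice) (hN : IsK3 N) (z : ℂ ⊗[ℤ] N.V) :
    ∃ a ∈ N.comp (-2), ∃ b ∈ N.comp 0, ∃ c ∈ N.comp 2, z = a + b + c := by
  have htop : (⨆ k, N.comp k) ≤ (N.comp (-2) ⊔ N.comp 0) ⊔ N.comp 2 := by
    apply iSup_le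
    intro k
    by_cases h1 : k = -2
    · subst h1
      exact le_sup_of_le_left le_sup_left
    by_cases h2 : k = 0
    · subst h2
      exact le_sup_of_le_left le_sup_right
    by_cases h3 : k = 2
    · subst h3
      exact le_sup_right
    rw [hN.comp_eq_bot k h1 h2 h3]
    exact bot_le
  rw [N.internal.submodule_iSup_eq_top] at htop
  obtain ⟨y, hy, c, hc, h1⟩ := Submodule.mem_sup.1 (htop (Submodule.mem_top (x := z)))
  obtain ⟨a, ha, b, hb, h2⟩ := Submodule.mem_sup.1 hy
  exact ⟨a, ha, b, hb, c, hc, by rw [h2, h1]⟩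

/-- The part of type `2` is a line. -/
theorem line (N : HodgeLattice) (hN : IsK3 N) {w : ℂ ⊗[ℤ] N.V} (hw : w ∈ N.comp 2) (hw0 : w ≠ 0)
    {x : ℂ ⊗[ℤ] N.V} (hx : x ∈ N.comp 2) : ∃ c : ℂ, c • w = x := by
  have h0 : (⟨w, hw⟩ : N.comp 2) ≠ 0 := by
    intro h
    exact hw0 (congrArg Subtype.val h)
  obtain ⟨c, hc⟩ := (finrank_eq_one_iff_of_nonzero' _ h0).1 hN.finrank_comp ⟨x, hx⟩
  exact ⟨c, congrArg Subtype.val hc⟩

/-- A transcendental element orthogonal to the period is zero. -/
theorem eq_zero_of_period (N : HodgeLattice) (hN : IsK3 N) {w : ℂ ⊗[ℤ] N.V} (hw : w ∈ N.comp 2)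
    (hw0 : w ≠ 0) (t : N.V) (ht : t ∈ transcendental N)
    (h : N.form.baseChange ℂ (1 ⊗ₜ t) w = 0) : t = 0 := by
  have hp : N.form.baseChange ℂ w (conj N.V w) ≠ 0 := by
    intro h0
    have h1 := hN.pos w hw hw0
    rw [h0] at h1
    exact lt_irrefl _ h1
  have hcw : conj N.V w ∈ N.comp (-2) := N.conj_mem 2 w hw
  have h' : N.form.baseChange ℂ (1 ⊗ₜ t) (conj N.V w) = 0 := by
    have h1 := form_conj N.form ((1 : ℂ) ⊗ₜ[ℤ] t) w
    rw [conj_tmul, map_one, h, map_zero] at h1
    exact h1
  obtain ⟨a, ha, b, hb, c, hc, hz⟩ := decomp N hN (1 ⊗ₜ t)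
  have hc0 : c = 0 := by
    obtain ⟨r, hr⟩ := line N hN hw hw0 hc
    rw [hz, map_add, map_add, LinearMap.add_apply, LinearMap.add_apply,
      N.orth (-2) (-2) (by norm_num) a ha _ hcw, N.orth 0 (-2) (by norm_num) b hb _ hcw,
      zero_add, zero_add, ← hr, map_smul, LinearMap.smul_apply, smul_eq_mul] at h'
    rw [← hr, (mul_eq_zero.1 h').resolve_right hp, zero_smul]
  have ha0 : a = 0 := by
    have hca : conj N.V a ∈ N.comp 2 := by
      have h1 := N.conj_mem (-2) a ha
      rwa [neg_neg] at h1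
    obtain ⟨r, hr⟩ := line N hN hw hw0 hca
    have ha1 : a = (starRingEnd ℂ r) • conj N.V w := by
      rw [← conj_smul, hr, conj_conj]
    rw [hz, map_add, map_add, LinearMap.add_apply, LinearMap.add_apply,
      N.orth 0 2 (by norm_num) b hb _ hw, N.orth 2 2 (by norm_num) c hc _ hw,
      add_zero, add_zero, ha1, map_smul, LinearMap.smul_apply, smul_eq_mul,
      form_symm N.form N.symm (conj N.V w) w] at h
    rw [ha1, (mul_eq_zero.1 h).resolve_right hp, zero_smul]
  have halg : t ∈ algebraic N := by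
    change (1 : ℂ) ⊗ₜ[ℤ] t ∈ N.comp 0
    rw [hz, ha0, hc0, zero_add, add_zero]
    exact hb
  have hmem : (1 : ℂ) ⊗ₜ[ℤ] t ∈ N.comp 0 := halg
  apply one_tmul_eq_zero
  by_contra hne
  have h1 := hN.index _ hmem (fun y hy => by rw [form_one, ht y hy, Int.cast_zero]) hne
  rw [conj_tmul, map_one, form_one, ht t halg, Int.cast_zero, Complex.zero_re] at h1
  exact lt_irrefl _ h1

/-- An element of the radical is orthogonal to the complexification. -/
theorem form_incl_zero (N : HodgeLattice) (t : transcendental N)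
    (h : ∀ t' : transcendental N, N.form t t' = 0) (x : ℂ ⊗[ℤ] (transcendental N)) :
    N.form.baseChange ℂ (1 ⊗ₜ (t : N.V)) (incl N x) = 0 := by
  induction x using TensorProduct.induction_on with
  | zero => simp
  | add x y hx hy => rw [map_add, map_add, hx, hy, add_zero]
  | tmul c t' =>
    rw [incl, LinearMap.baseChange_tmul, LinearMap.BilinForm.baseChange_tmul,
      Submodule.subtype_apply, h t']
    simp

end F2aux

open F2aux in
theorem stF2 (h1 : StF1) : StF2 := by
  intro N hN
  have hex : ∃ ω, IsPeriod N ω := by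
    have h2 : N.comp 2 ≠ ⊥ := by
      intro h
      have h3 := hN.finrank_comp
      rw [h, finrank_bot] at h3
      exact zero_ne_one h3
    obtain ⟨w, hw, hw0⟩ := Submodule.exists_mem_ne_zero_of_ne_bot h2
    obtain ⟨ω, hω⟩ := ((h1 N).2 w).2 (fun y hy => N.orth 2 0 (by norm_num) w hw _ hy)
    exact ⟨ω, by rw [hω]; exact hw, by rw [hω]; exact hw0⟩
  refine ⟨hex, ?_, ?_⟩
  · intro t ht
    obtain ⟨ω, hω, hω0⟩ := hex
    exact Subtype.ext (eq_zero_of_period N hN hω hω0 t t.2 (form_incl_zero N t ht ω))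
  · rintro ω ⟨hω, hω0⟩ t ht
    exact Subtype.ext (eq_zero_of_period N hN hω hω0 t t.2 ht)

end Pool.Agent.Lib.MP0cb87d
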