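import Pool.Agent.Lib.MP_0cb87d_ag.Stmts

/-! Modules F3 and F4: irreducibility of the transcendental lattice of a K3 surface. -/

set_option autoImplicit false

namespace Pool.Agent.Lib.MP0cb87d

open TensorProduct

namespace F3aux

/-- A functional on a lattice with a nondegenerate form has a multiple which is given by the
form. -/
theorem exists_dual {T : Type} [AddCommGroup T] [Module.Free ℤ T] [Module.Finite ℤ T]
    (B : LinearMap.BilinForm ℤ T) (hB : ∀ t, (∀ t', B t t' = 0) → t = 0) (g : T →ₗ[ℤ] ℤ) :
    ∃ (d : ℤ) (t0 : T), d ≠ 0 ∧ ∀ t, B t0 t = d * g t := by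
  classical
  let b := Module.Free.chooseBasis ℤ T
  let G : Matrix (Module.Free.ChooseBasisIndex ℤ T) (Module.Free.ChooseBasisIndex ℤ T) ℤ :=
    Matrix.of fun i j => B (b i) (b j)
  have hdet : G.det ≠ 0 := by
    intro h0
    obtain ⟨v, hv, hvG⟩ := Matrix.exists_vecMul_eq_zero_iff.2 h0
    apply hv
    have h1 : ∑ i, v i • b i = 0 := by
      apply hB
      have h2 : B (∑ i, v i • b i) = 0 := by
        apply b.ext
        intro j
        have h3 := congrFun hvG j
        rw [Matrix.vecMul, dotProduct] at h3
        rw [map_sum, LinearMap.sum_apply, LinearMap.zero_apply]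
        simp only [map_smul, LinearMap.smul_apply, smul_eq_mul]
        exact h3
      intro t'
      rw [h2, LinearMap.zero_apply]
    funext i
    exact (Fintype.linearIndependent_iff.1 b.linearIndependent) v h1 i
  let w : Module.Free.ChooseBasisIndex ℤ T → ℤ := Matrix.vecMul (fun i => g (b i)) G.adjugate
  have hw : Matrix.vecMul w G = G.det • (fun i => g (b i)) := by
    rw [Matrix.vecMul_vecMul, Matrix.adjugate_mul, Matrix.vecMul_smul, Matrix.vecMul_one]
  refine ⟨G.det, ∑ i, w i • b i, hdet, ?_⟩
  have h4 : B (∑ i, w i • b i) = G.det • g := by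
    apply b.ext
    intro j
    have h3 := congrFun hw j
    rw [Matrix.vecMul, dotProduct] at h3
    rw [map_sum, LinearMap.sum_apply]
    simp only [map_smul, LinearMap.smul_apply, smul_eq_mul]
    exact h3
  intro t
  rw [h4, LinearMap.smul_apply, smul_eq_mul]

/-- The form of `t0` with an element of the complexification. -/
theorem form_incl (N : HodgeLattice) (t0 : transcendental N) (g : transcendental N →ₗ[ℤ] ℤ)
    (d : ℤ) (h : ∀ t : transcendental N, N.form t0 t = d * g t)
    (x : ℂ ⊗[ℤ] (transcendental N)) :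
    N.form.baseChange ℂ (1 ⊗ₜ (t0 : N.V)) (incl N x) =
      (d : ℂ) * TensorProduct.rid ℤ ℂ (g.baseChange ℂ x) := by
  induction x using TensorProduct.induction_on with
  | zero => simp
  | add x y hx hy => rw [map_add, map_add, hx, hy, map_add, map_add, mul_add]
  | tmul c t =>
    rw [incl, LinearMap.baseChange_tmul, LinearMap.baseChange_tmul, TensorProduct.rid_tmul,
      LinearMap.BilinForm.baseChange_tmul]
    simp only [Submodule.subtype_apply]
    rw [h t]
    simp [mul_comm, mul_left_comm]

end F3aux

open F3aux in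
theorem stF3 (_h1 : StF1) (h2 : StF2) : StF3 := by
  intro N hN ω hω P _ _ _ f hf
  obtain ⟨-, hnd, hirr⟩ := h2 N hN
  have : Module.Finite ℤ (transcendental N) := inferInstance
  have : Module.Free ℤ (transcendental N) := inferInstance
  have key : ∀ p : P →ₗ[ℤ] ℤ, p ∘ₗ f = 0 := by
    intro p
    obtain ⟨d, t0, hd, ht⟩ := exists_dual (N.form.restrict (transcendental N))
      (fun t ht => hnd t ht) (p ∘ₗ f)
    have h3 := form_incl N t0 (p ∘ₗ f) d ht ω
    have h4 : (p ∘ₗ f).baseChange ℂ ω = 0 := by
      rw [LinearMap.baseChange_comp, LinearMap.comp_apply, hf, map_zero]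
    rw [h4, map_zero, mul_zero] at h3
    have h5 := hirr ω hω t0 h3
    apply LinearMap.ext
    intro t
    have h6 := ht t
    rw [h5] at h6
    simp only [map_zero, LinearMap.zero_apply] at h6
    rw [LinearMap.zero_apply]
    exact (mul_eq_zero.1 h6.symm).resolve_left hd
  apply LinearMap.ext
  intro t
  let b := Module.Free.chooseBasis ℤ P
  apply b.ext_elem
  intro i
  have h7 := LinearMap.congr_fun (key (b.coord i)) t
  rw [LinearMap.comp_apply, LinearMap.zero_apply, Module.Basis.coord_apply] at h7
  rw [h7]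
  simp

theorem stF4 (h2 : StF2) (h3 : StF3) : StF4 := by
  intro N M hN f hf t y hy
  obtain ⟨⟨ω, hω⟩, -, -⟩ := h2 N hN
  let l : transcendental N →ₗ[ℤ] ℤ := (M.form.flip y) ∘ₗ f
  have hl : ∀ x : ℂ ⊗[ℤ] (transcendental N), TensorProduct.rid ℤ ℂ (l.baseChange ℂ x) =
      M.form.baseChange ℂ (f.baseChange ℂ x) (1 ⊗ₜ y) := by
    intro x
    induction x using TensorProduct.induction_on with
    | zero => simp
    | add x y hx hy => rw [map_add, map_add, hx, hy, map_add, map_add, LinearMap.add_apply]
    | tmul c t =>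
      rw [LinearMap.baseChange_tmul, LinearMap.baseChange_tmul, TensorProduct.rid_tmul,
        LinearMap.BilinForm.baseChange_tmul]
      simp [l]
  have h4 : l.baseChange ℂ ω = 0 := by
    apply (TensorProduct.rid ℤ ℂ).injective
    rw [hl, map_zero]
    exact M.orth 2 0 (by norm_num) _ (hf 2 ω hω.1) _ hy
  have h5 := h3 N hN ω hω ℤ l h4
  have h6 := LinearMap.congr_fun h5 t
  simpa [l] using h6

end Pool.Agent.Lib.MP0cb87d
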