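import Pool.Agent.Lib.MP_0cb87d_ag.Stmts

/-! Module F5: a Hodge form on the transcendental lattice is a multiple of the form. -/

namespace Pool.Agent.Lib.MP0cb87d

open TensorProduct

namespace F5aux

lemma conj_tmul {V : Type} [AddCommGroup V] (a : ℂ) (v : V) :
    conj V (a ⊗ₜ[ℤ] v) = (starRingEnd ℂ a) ⊗ₜ[ℤ] v := rfl

lemma incl_tmul (N : HodgeLattice) (a : ℂ) (v : transcendental N) :
    incl N (a ⊗ₜ[ℤ] v) = a ⊗ₜ[ℤ] (v : N.V) := rfl

lemma incl_conj (N : HodgeLattice) (x : ℂ ⊗[ℤ] (transcendental N)) :
    incl N (conj _ x) = conj _ (incl N x) := by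
  induction x using TensorProduct.induction_on with
  | zero => simp
  | tmul a v => rfl
  | add x y hx hy => simp only [map_add, hx, hy]

/-- Decomposition of an element of the complexification. -/
lemma exists_decomp (N : HodgeLattice) (hN : IsK3 N) (x : ℂ ⊗[ℤ] N.V) :
    ∃ a ∈ N.comp (-2), ∃ b ∈ N.comp 0, ∃ c ∈ N.comp 2, x = a + b + c := by
  have h1 : (⨆ k, N.comp k) = ⊤ := N.internal.submodule_iSup_eq_top
  have h2 : (⨆ k, N.comp k) ≤ N.comp (-2) ⊔ N.comp 0 ⊔ N.comp 2 := by
    refine iSup_le fun k => ?_
    by_cases h : k = -2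
    · subst h; exact le_sup_of_le_left le_sup_left
    by_cases h0 : k = 0
    · subst h0; exact le_sup_of_le_left le_sup_right
    by_cases h2 : k = 2
    · subst h2; exact le_sup_right
    rw [hN.comp_eq_bot k h h0 h2]
    exact bot_le
  have hx : x ∈ N.comp (-2) ⊔ N.comp 0 ⊔ N.comp 2 := h2 (h1 ▸ Submodule.mem_top)
  obtain ⟨y, hy, c, hc, rfl⟩ := Submodule.mem_sup.1 hx
  obtain ⟨a, ha, b, hb, rfl⟩ := Submodule.mem_sup.1 hy
  exact ⟨a, ha, b, hb, c, hc, rfl⟩

/-- Decomposition of an element of the complexified transcendental lattice. -/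
lemma exists_decomp_trans (h1 : StF1) (N : HodgeLattice) (hN : IsK3 N)
    (z : ℂ ⊗[ℤ] (transcendental N)) :
    ∃ w : ℤ → ℂ ⊗[ℤ] (transcendental N), (∀ k, incl N (w k) ∈ N.comp k) ∧
      z = w (-2) + w 0 + w 2 := by
  obtain ⟨a, ha, b, hb, c, hc, hz⟩ := exists_decomp N hN (incl N z)
  obtain ⟨hinj, hrange⟩ := h1 N
  have hz0 : ∀ y ∈ algebraic N, N.form.baseChange ℂ (incl N z) (1 ⊗ₜ y) = 0 :=
    (hrange _).1 ⟨z, rfl⟩
  have ha0 : ∀ y ∈ algebraic N, N.form.baseChange ℂ a (1 ⊗ₜ y) = 0 := fun y hy =>
    N.orth (-2) 0 (by norm_num) a ha _ hy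
  have hc0 : ∀ y ∈ algebraic N, N.form.baseChange ℂ c (1 ⊗ₜ y) = 0 := fun y hy =>
    N.orth 2 0 (by norm_num) c hc _ hy
  have hb0 : ∀ y ∈ algebraic N, N.form.baseChange ℂ b (1 ⊗ₜ y) = 0 := fun y hy => by
    have h := hz0 y hy
    rw [hz] at h
    simp only [map_add, LinearMap.add_apply, ha0 y hy, hc0 y hy, zero_add, add_zero] at h
    exact h
  obtain ⟨a', rfl⟩ := (hrange a).2 ha0
  obtain ⟨b', rfl⟩ := (hrange b).2 hb0
  obtain ⟨c', rfl⟩ := (hrange c).2 hc0
  refine ⟨fun k => if k = -2 then a' else if k = 0 then b' else if k = 2 then c' else 0,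
    fun k => ?_, ?_⟩
  · by_cases h : k = -2
    · subst h; simpa using ha
    by_cases h0 : k = 0
    · subst h0; simpa using hb
    by_cases h2 : k = 2
    · subst h2; simpa using hc
    · simp only [h, h0, h2, if_false, map_zero]
      exact Submodule.zero_mem _
  · apply hinj
    simpa using hz

lemma coe_sum_repr (N : HodgeLattice) {ι : Type} [Fintype ι]
    (b : Module.Basis ι ℤ (transcendental N)) (t' : transcendental N) :
    (t' : N.V) = ∑ j, b.repr t' j • ((b j : transcendental N) : N.V) := by
  conv_lhs => rw [← b.sum_repr t']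
  rw [AddSubmonoidClass.coe_finsetSum]
  rfl

/-- The Gram matrix of a basis. -/
noncomputable def gramT (N : HodgeLattice) {ι : Type} (b : Module.Basis ι ℤ (transcendental N)) :
    Matrix ι ι ℤ := Matrix.of fun i j => N.form (b i) (b j)

lemma det_gram_ne_zero (N : HodgeLattice)
    (hnd : ∀ t : transcendental N, (∀ t' : transcendental N, N.form t t' = 0) → t = 0)
    {ι : Type} [Fintype ι] [DecidableEq ι] (b : Module.Basis ι ℤ (transcendental N)) :
    (gramT N b).det ≠ 0 := by
  intro h0
  obtain ⟨v, hv, hv0⟩ := Matrix.exists_vecMul_eq_zero_iff.2 h0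
  apply hv
  have ht : (∑ i, v i • b i : transcendental N) = 0 := by
    apply hnd
    intro t'
    have key : ∀ j, N.form ((∑ i, v i • b i : transcendental N) : N.V) (b j) = 0 := by
      intro j
      have h := congrFun hv0 j
      simp only [Matrix.vecMul, dotProduct, Pi.zero_apply, gramT, Matrix.of_apply] at h
      rw [← h]
      simp [map_sum]
    rw [coe_sum_repr N b t', map_sum]
    refine Finset.sum_eq_zero fun j _ => ?_
    rw [map_smul, key j, smul_zero]
  have hli := b.linearIndependent
  rw [Fintype.linearIndependent_iff] at hli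
  funext i
  exact hli v ht i

/-- A finite free lattice with a nondegenerate form: division by the discriminant. -/
lemma exists_adjoint (N : HodgeLattice)
    (hnd : ∀ t : transcendental N, (∀ t' : transcendental N, N.form t t' = 0) → t = 0)
    (β : LinearMap.BilinForm ℤ (transcendental N)) :
    ∃ d : ℤ, d ≠ 0 ∧ ∃ f : transcendental N →ₗ[ℤ] transcendental N,
      ∀ t t' : transcendental N, N.form (f t : transcendental N) t' = d * β t t' := by
  classical
  let b := Module.Free.chooseBasis ℤ (transcendental N)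
  have hG : (gramT N b).det ≠ 0 := det_gram_ne_zero N hnd b
  generalize hGG : gramT N b = G at hG
  refine ⟨G.det, hG, ?_⟩
  let f : transcendental N →ₗ[ℤ] transcendental N :=
    ∑ i, (∑ k, (G.adjugate k i) • (β.flip (b k))).smulRight (b i)
  refine ⟨f, fun t t' => ?_⟩
  have key : ∀ j, N.form ((f t : transcendental N) : N.V) (b j) = G.det * β t (b j) := by
    intro j
    have h1 : ((f t : transcendental N) : N.V) =
        ∑ i, (∑ k, G.adjugate k i * β t (b k)) • ((b i : transcendental N) : N.V) := by
      simp [f, LinearMap.sum_apply]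
    rw [h1, map_sum, LinearMap.sum_apply]
    have h2 : ∀ i, (N.form ((∑ k, G.adjugate k i * β t (b k)) • ((b i : transcendental N) : N.V)))
        (b j) = ∑ k, β t (b k) * (G.adjugate k i * G i j) := by
      intro i
      rw [map_smul, LinearMap.smul_apply, smul_eq_mul, Finset.sum_mul]
      refine Finset.sum_congr rfl fun k _ => ?_
      rw [← hGG]
      simp only [gramT, Matrix.of_apply]
      ring
    rw [Finset.sum_congr rfl fun i _ => h2 i, Finset.sum_comm]
    have h3 : ∀ k, ∑ i, β t (b k) * (G.adjugate k i * G i j) =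
        β t (b k) * (G.det * if k = j then 1 else 0) := by
      intro k
      rw [← Finset.mul_sum]
      congr 1
      have h4 := congrFun (congrFun (Matrix.adjugate_mul G) k) j
      rw [Matrix.mul_apply] at h4
      rw [h4]
      simp [Matrix.smul_apply, Matrix.one_apply]
    rw [Finset.sum_congr rfl fun k _ => h3 k]
    simp [mul_comm]
  have h2 : t' = ∑ j, b.repr t' j • b j := (b.sum_repr t').symm
  rw [coe_sum_repr N b t', map_sum]
  conv_rhs => rw [h2]
  rw [map_sum, Finset.mul_sum]
  refine Finset.sum_congr rfl fun j _ => ?_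
  rw [map_smul, map_smul, key j, smul_eq_mul, smul_eq_mul]
  ring

lemma form_baseChange (N : HodgeLattice) (d : ℤ)
    (β : LinearMap.BilinForm ℤ (transcendental N)) (f : transcendental N →ₗ[ℤ] transcendental N)
    (hf : ∀ t t' : transcendental N, N.form (f t : transcendental N) t' = d * β t t')
    (s z : ℂ ⊗[ℤ] (transcendental N)) :
    N.form.baseChange ℂ (incl N (f.baseChange ℂ s)) (incl N z) = d * β.baseChange ℂ s z := by
  induction s using TensorProduct.induction_on with
  | zero => simp
  | add x y hx hy =>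
    simp only [map_add, LinearMap.add_apply, hx, hy, mul_add]
  | tmul a t =>
    induction z using TensorProduct.induction_on with
    | zero => simp
    | add x y hx hy =>
      simp only [map_add, hx, hy, mul_add]
    | tmul c t' =>
      rw [LinearMap.baseChange_tmul, incl_tmul, incl_tmul]
      rw [LinearMap.BilinForm.baseChange_tmul, LinearMap.BilinForm.baseChange_tmul, hf]
      simp only [zsmul_eq_mul, Int.cast_mul]
      ring

/-- Nondegeneracy of the complexified transcendental lattice. -/
lemma nondeg_complex (N : HodgeLattice)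
    (hnd : ∀ t : transcendental N, (∀ t' : transcendental N, N.form t t' = 0) → t = 0)
    (z : ℂ ⊗[ℤ] (transcendental N))
    (hz : ∀ z', N.form.baseChange ℂ (incl N z) (incl N z') = 0) : z = 0 := by
  classical
  let b := Module.Free.chooseBasis ℤ (transcendental N)
  have hG : (gramT N b).det ≠ 0 := det_gram_ne_zero N hnd b
  let B := b.baseChange ℂ
  have hz1 : z = ∑ i, B.repr z i • B i := (B.sum_repr z).symm
  have hB : ∀ i, B i = (1 : ℂ) ⊗ₜ[ℤ] b i := fun i => by simp [B]
  have hv : Matrix.vecMul (fun i => B.repr z i) ((gramT N b).map (Int.castRingHom ℂ)) = 0 := by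
    funext j
    have h := hz (B j)
    rw [hz1] at h
    simp only [map_sum, map_smul, LinearMap.sum_apply, LinearMap.smul_apply, smul_eq_mul] at h
    simp only [Matrix.vecMul, dotProduct, Pi.zero_apply, Matrix.map_apply]
    rw [← h]
    refine Finset.sum_congr rfl fun i _ => ?_
    rw [hB i, hB j, incl_tmul, incl_tmul, LinearMap.BilinForm.baseChange_tmul]
    simp [gramT]
  have hdet : ((gramT N b).map (Int.castRingHom ℂ)).det ≠ 0 := by
    rw [← RingHom.mapMatrix_apply, ← RingHom.map_det]
    simpa using hG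
  have h0 := Matrix.eq_zero_of_vecMul_eq_zero hdet hv
  rw [hz1]
  refine Finset.sum_eq_zero fun i _ => ?_
  have := congrFun h0 i
  simp only [Pi.zero_apply] at this
  rw [this, zero_smul]

end F5aux

open F5aux

theorem stF5 (h1 : StF1) (h2 : StF2) (h3 : StF3) : StF5 := by
  intro N hN ω hω β hβ
  obtain ⟨hex, hnd, hnd2⟩ := h2 N hN
  obtain ⟨d, hd, f, hf⟩ := exists_adjoint N hnd β
  have hfC := form_baseChange N d β f hf
  have hHodge : IsHodgeTrans N N f := by
    intro k s hs
    obtain ⟨w, hw, hz⟩ := exists_decomp_trans h1 N hN (f.baseChange ℂ s)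
    have hw0 : ∀ m, (m = -2 ∨ m = 0 ∨ m = 2) → m ≠ k → w m = 0 := by
      intro m hm hmk
      apply nondeg_complex N hnd
      intro z'
      obtain ⟨w', hw', hz'⟩ := exists_decomp_trans h1 N hN z'
      have e1 : N.form.baseChange ℂ (incl N (w m)) (incl N z') =
          N.form.baseChange ℂ (incl N (w m)) (incl N (w' (-m))) := by
        rw [hz']
        rcases hm with rfl | rfl | rfl
        · rw [map_add, map_add, map_add, map_add,
            N.orth (-2) (-2) (by norm_num) _ (hw _) _ (hw' _),
            N.orth (-2) 0 (by norm_num) _ (hw _) _ (hw' _)]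
          simp
        · rw [map_add, map_add, map_add, map_add,
            N.orth 0 (-2) (by norm_num) _ (hw _) _ (hw' _),
            N.orth 0 2 (by norm_num) _ (hw _) _ (hw' _)]
          simp
        · rw [map_add, map_add, map_add, map_add,
            N.orth 2 2 (by norm_num) _ (hw _) _ (hw' _),
            N.orth 2 0 (by norm_num) _ (hw _) _ (hw' _)]
          simp
      have e2 : N.form.baseChange ℂ (incl N (f.baseChange ℂ s)) (incl N (w' (-m))) =
          N.form.baseChange ℂ (incl N (w m)) (incl N (w' (-m))) := by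
        rw [hz]
        rcases hm with rfl | rfl | rfl
        · rw [map_add, map_add, map_add, map_add, LinearMap.add_apply, LinearMap.add_apply,
            N.orth 0 (-(-2)) (by norm_num) _ (hw _) _ (hw' _),
            N.orth 2 (-(-2)) (by norm_num) _ (hw _) _ (hw' _)]
          simp
        · rw [map_add, map_add, map_add, map_add, LinearMap.add_apply, LinearMap.add_apply,
            N.orth (-2) (-0) (by norm_num) _ (hw _) _ (hw' _),
            N.orth 2 (-0) (by norm_num) _ (hw _) _ (hw' _)]
          simp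
        · rw [map_add, map_add, map_add, map_add, LinearMap.add_apply, LinearMap.add_apply,
            N.orth (-2) (-2) (by norm_num) _ (hw _) _ (hw' _),
            N.orth 0 (-2) (by norm_num) _ (hw _) _ (hw' _)]
          simp
      rw [e1, ← e2, hfC, hβ k (-m) (by omega) s (w' (-m)) hs (hw' _), mul_zero]
    by_cases hk : k = -2 ∨ k = 0 ∨ k = 2
    · rcases hk with rfl | rfl | rfl
      · rw [hz, hw0 0 (by norm_num) (by norm_num), hw0 2 (by norm_num) (by norm_num), add_zero,
          add_zero]
        exact hw _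
      · rw [hz, hw0 (-2) (by norm_num) (by norm_num), hw0 2 (by norm_num) (by norm_num), zero_add,
          add_zero]
        exact hw _
      · rw [hz, hw0 (-2) (by norm_num) (by norm_num), hw0 0 (by norm_num) (by norm_num), zero_add,
          zero_add]
        exact hw _
    · push Not at hk
      rw [hz, hw0 (-2) (by norm_num) (Ne.symm hk.1), hw0 0 (by norm_num) (Ne.symm hk.2.1),
        hw0 2 (by norm_num) (Ne.symm hk.2.2)]
      simp
  -- the line
  have hline : ∀ z, incl N z ∈ N.comp 2 → ∃ a : ℂ, z = a • ω := by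
    intro z hz
    have h5 : ∃ a : ℂ, a • (⟨incl N ω, hω.1⟩ : N.comp 2) = ⟨incl N z, hz⟩ := by
      apply exists_smul_eq_of_finrank_eq_one hN.finrank_comp
      intro h0
      exact hω.2 (congrArg Subtype.val h0)
    obtain ⟨a, ha⟩ := h5
    refine ⟨a, (h1 N).1 ?_⟩
    rw [map_smul]
    exact (congrArg Subtype.val ha).symm
  obtain ⟨c, hc⟩ := hline _ (hHodge 2 ω hω.1)
  have hcmul : c ∈ multipliers N := by
    refine ⟨f, hHodge, fun x hx => ?_⟩
    obtain ⟨a, rfl⟩ := hline x hx
    rw [map_smul, hc, smul_smul, smul_smul, mul_comm]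
  have hmain : (d : ℂ) * β.baseChange ℂ ω (conj _ ω) =
      c * N.form.baseChange ℂ (incl N ω) (conj _ (incl N ω)) := by
    rw [← hfC, hc, map_smul, map_smul, LinearMap.smul_apply, smul_eq_mul, incl_conj]
  refine ⟨⟨d, hd, c, hcmul, hmain⟩, fun h0 => ?_⟩
  rw [h0, mul_zero] at hmain
  have hpos := hN.pos _ hω.1 hω.2
  have hc0 : c = 0 := by
    rcases mul_eq_zero.1 hmain.symm with h | h
    · exact h
    · rw [h] at hpos
      simp at hpos
  have hf0 : f = 0 := by
    apply h3 N hN ω hω
    rw [hc, hc0, zero_smul]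
  ext t t'
  have h6 := hf t t'
  rw [hf0] at h6
  simp only [LinearMap.zero_apply, Submodule.coe_zero, map_zero] at h6
  have h7 : β t t' = 0 := by
    rcases mul_eq_zero.1 h6.symm with h | h
    · exact absurd h hd
    · exact h
  simp [h7]

end Pool.Agent.Lib.MP0cb87d
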