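import Pool.Agent.Lib.MP_0cb87d_ag.Stmts

/-! The ring of multipliers is a finitely generated abelian group; it and its field of fractions
are Dedekind domains. -/

namespace Pool.Agent.Lib.MP0cb87d

open TensorProduct

namespace F6aux

/-- Additive subgroups of finitely generated `ℤ`-modules. -/
theorem fg_of_le_range {A B : Type} [AddCommGroup A] [AddCommGroup B] [Module.Finite ℤ A]
    (ψ : A →+ B) (S : AddSubgroup B) (h : ∀ b ∈ S, ∃ a, ψ a = b) : S.FG := by
  have h1 : S = (S.comap ψ).map ψ := by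
    ext b
    constructor
    · intro hb
      obtain ⟨a, rfl⟩ := h b hb
      exact ⟨a, hb, rfl⟩
    · rintro ⟨a, ha, rfl⟩
      exact ha
  have h2 : (AddSubgroup.toIntSubmodule (S.comap ψ)).FG := IsNoetherian.noetherian _
  have h3 := h2.map ψ.toIntLinearMap
  rw [Submodule.fg_iff_addSubgroup_fg] at h3
  have h4 : (Submodule.map ψ.toIntLinearMap
      (AddSubgroup.toIntSubmodule (S.comap ψ))).toAddSubgroup = (S.comap ψ).map ψ := rfl
  rw [h1, ← h4]
  exact h3

theorem exists_functional {W : Type} [AddCommGroup W] [Module ℂ W] {ω : W} (h : ω ≠ 0) :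
    ∃ lam : W →ₗ[ℂ] ℂ, lam ω = 1 := by
  have h1 : ¬ ∀ φ : Module.Dual ℂ W, φ ω = 0 := by
    intro h2
    exact h ((Module.forall_dual_apply_eq_zero_iff ℂ ω).1 h2)
  push Not at h1
  obtain ⟨φ, hφ⟩ := h1
  refine ⟨(φ ω)⁻¹ • φ, ?_⟩
  rw [LinearMap.smul_apply, smul_eq_mul, inv_mul_cancel₀ hφ]

end F6aux

open F6aux

theorem stF6 (h2 : StF2) (_h3 : StF3) : StF6 := by
  intro N hN
  obtain ⟨⟨ω, hω, hω0⟩, -, -⟩ := h2 N hN
  have hne : ω ≠ 0 := by
    rintro rfl
    exact hω0 (map_zero _)
  obtain ⟨lam, hlam⟩ := exists_functional hne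
  let ψ : (transcendental N →ₗ[ℤ] transcendental N) →+ ℂ :=
    { toFun := fun f => lam (f.baseChange ℂ ω)
      map_zero' := by simp
      map_add' := fun f g => by
        rw [LinearMap.baseChange_add, LinearMap.add_apply, map_add] }
  refine fg_of_le_range ψ _ ?_
  rintro c ⟨f, -, hf⟩
  refine ⟨f, ?_⟩
  change lam (f.baseChange ℂ ω) = c
  rw [hf ω hω, map_smul, hlam, smul_eq_mul, mul_one]

namespace F6aux

theorem finite (h6 : StF6) (N : HodgeLattice) (hN : IsK3 N) : Module.Finite ℤ (multipliers N) := by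
  have h := h6 N hN
  rw [← AddSubgroup.toIntSubmodule_toAddSubgroup (multipliers N).toAddSubgroup,
    ← Submodule.fg_iff_addSubgroup_fg] at h
  exact Module.Finite.iff_fg.2 h

theorem isField (h6 : StF6) (N : HodgeLattice) (hN : IsK3 N) : IsField (multField N) := by
  have hfin := finite h6 N hN
  refine ⟨⟨0, 1, zero_ne_one⟩, mul_comm, ?_⟩
  rintro ⟨c, n, hn, hc⟩ hc0
  have hc0' : c ≠ 0 := fun h => hc0 (Subtype.ext h)
  have hint : Algebra.IsIntegral ℤ (multipliers N) := Algebra.IsIntegral.of_finite ℤ _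
  have ha0 : (⟨(n : ℂ) * c, hc⟩ : multipliers N) ≠ 0 := by
    intro h
    have h' : (n : ℂ) * c = 0 := congrArg Subtype.val h
    rcases mul_eq_zero.1 h' with h1 | h1
    · exact hn (by exact_mod_cast h1)
    · exact hc0' h1
  have halg : IsAlgebraic ℤ (⟨(n : ℂ) * c, hc⟩ : multipliers N) :=
    (hint.isIntegral _).isAlgebraic
  obtain ⟨r, hr, ⟨b, hb⟩⟩ := halg.exists_nonzero_dvd (mem_nonZeroDivisors_of_ne_zero ha0)
  have hb' : (r : ℂ) = (n : ℂ) * c * b := by
    have := congrArg (Subtype.val : multipliers N → ℂ) hb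
    simpa using this
  have hr' : (r : ℂ) ≠ 0 := by exact_mod_cast hr
  refine ⟨⟨(n : ℂ) * b / r, r, hr, ?_⟩, ?_⟩
  · rw [mul_div_cancel₀ _ hr']
    exact mul_mem (intCast_mem _ n) b.2
  · apply Subtype.ext
    change c * ((n : ℂ) * b / r) = 1
    rw [mul_div_assoc', ← mul_assoc, mul_comm c, ← hb', div_self hr']

end F6aux

theorem stF7 (h6 : StF6) : StF7 := by
  intro N hN
  constructor
  · intro hcl
    have hfin := F6aux.finite h6 N hN
    have hint : Algebra.IsIntegral ℤ (multipliers N) := Algebra.IsIntegral.of_finite ℤ _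
    have hnoeth : IsNoetherianRing (multipliers N) := by
      have : IsNoetherian ℤ (multipliers N) := inferInstance
      exact isNoetherian_of_tower ℤ this
    have hdim : Ring.DimensionLEOne (multipliers N) := Ring.DimensionLEOne.of_isIntegral ℤ _
    exact { hnoeth, hdim, hcl with }
  · have hf := F6aux.isField h6 N hN
    have := hf.isPrincipalIdealRing
    infer_instance

end Pool.Agent.Lib.MP0cb87d
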