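import Pool.Agent.Lib.MP_0cb87d_ag.Stmts

/-! Module G3: the lattices `homLat` have invertible determinant ideals. -/

set_option autoImplicit false

namespace Pool.Agent.Lib.MP0cb87d

open TensorProduct

namespace G3aux

variable {V V' : Type} [AddCommGroup V] [AddCommGroup V']

lemma conj_tmul (z : ℂ) (v : V) : conj V (z ⊗ₜ[ℤ] v) = (starRingEnd ℂ z) ⊗ₜ[ℤ] v := rfl

lemma conj_smul (c : ℂ) (x : ℂ ⊗[ℤ] V) : conj V (c • x) = (starRingEnd ℂ c) • conj V x := by
  induction x using TensorProduct.induction_on with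
  | zero => simp
  | tmul z v => simp only [TensorProduct.smul_tmul', conj_tmul, smul_eq_mul, map_mul]
  | add x y hx hy => rw [smul_add, map_add, hx, hy, map_add, smul_add]

lemma conj_baseChange (f : V →ₗ[ℤ] V') (x : ℂ ⊗[ℤ] V) :
    conj V' (f.baseChange ℂ x) = f.baseChange ℂ (conj V x) := by
  induction x using TensorProduct.induction_on with
  | zero => simp
  | tmul z v => simp only [LinearMap.baseChange_tmul, conj_tmul]
  | add x y hx hy => rw [map_add, map_add, hx, hy, map_add, map_add]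

lemma comp_baseChange (ψ : LinearMap.BilinForm ℤ V') (f g : V →ₗ[ℤ] V') (x y : ℂ ⊗[ℤ] V) :
    LinearMap.BilinForm.baseChange ℂ (ψ.compl₁₂ f g) x y =
      ψ.baseChange ℂ (f.baseChange ℂ x) (g.baseChange ℂ y) := by
  induction x using TensorProduct.induction_on with
  | zero => simp
  | add x x' hx hx' => simp only [map_add, LinearMap.add_apply, hx, hx']
  | tmul z v =>
    induction y using TensorProduct.induction_on with
    | zero => simp
    | add y y' hy hy' => simp only [map_add, hy, hy']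
    | tmul z' v' =>
      simp only [LinearMap.BilinForm.baseChange_tmul, LinearMap.baseChange_tmul,
        LinearMap.compl₁₂_apply]

/-- A determinant with entries in a subring is in the subring. -/
lemma det_mem {n : ℕ} (K : Subring ℂ) (M : Matrix (Fin n) (Fin n) ℂ) (h : ∀ i j, M i j ∈ K) :
    M.det ∈ K := by
  have h1 : M = K.subtype.mapMatrix (Matrix.of fun i j => (⟨M i j, h i j⟩ : K)) := by
    ext i j
    rfl
  rw [h1, ← RingHom.map_det]
  exact Subtype.property _

/-- The set of the vectors `f ω`. -/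
def homSet (X : HodgeLattice) (ω : ℂ ⊗[ℤ] (transcendental X)) (N : HodgeLattice) :
    Set (ℂ ⊗[ℤ] N.V) :=
  {v | ∃ f : transcendental X →ₗ[ℤ] N.V, IsHodgeFrom X (transcendental X) N f ∧
    f.baseChange ℂ ω = v}

lemma homLat_eq (R : Subring ℂ) (X : HodgeLattice) (ω : ℂ ⊗[ℤ] (transcendental X))
    (N : HodgeLattice) : homLat R X ω N = Submodule.span R (homSet X ω N) := rfl

/-- The Hodge maps, a group. -/
def hodgeMaps (X N : HodgeLattice) : Submodule ℤ (transcendental X →ₗ[ℤ] N.V) where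
  carrier := {f | IsHodgeFrom X (transcendental X) N f}
  add_mem' := by
    intro f g hf hg k x hx
    rw [LinearMap.baseChange_add, LinearMap.add_apply]
    exact add_mem (hf k x hx) (hg k x hx)
  zero_mem' := by
    intro k x hx
    rw [LinearMap.baseChange_zero, LinearMap.zero_apply]
    exact zero_mem _
  smul_mem' := by
    intro c f hf k x hx
    rw [LinearMap.baseChange_smul, LinearMap.smul_apply]
    exact zsmul_mem (hf k x hx) c

/-- Evaluation at `ω`. -/
noncomputable def evalω (X N : HodgeLattice) (ω : ℂ ⊗[ℤ] (transcendental X)) :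
    (transcendental X →ₗ[ℤ] N.V) →+ ℂ ⊗[ℤ] N.V where
  toFun f := f.baseChange ℂ ω
  map_zero' := by simp
  map_add' := by
    intro f g
    rw [LinearMap.baseChange_add, LinearMap.add_apply]

lemma homLat_fg (R : Subring ℂ) (X : HodgeLattice) (ω : ℂ ⊗[ℤ] (transcendental X))
    (N : HodgeLattice) : (homLat R X ω N).FG := by
  classical
  have h0 : Module.Finite ℤ (transcendental X →ₗ[ℤ] N.V) := inferInstance
  obtain ⟨s, hs⟩ : (hodgeMaps X N).FG := IsNoetherian.noetherian _
  refine ⟨s.image (evalω X N ω), ?_⟩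
  apply le_antisymm
  · rw [Submodule.span_le]
    intro v hv
    rw [Finset.coe_image] at hv
    obtain ⟨f, hf, rfl⟩ := hv
    refine Submodule.subset_span ⟨f, ?_, rfl⟩
    have h1 : f ∈ hodgeMaps X N := by
      rw [← hs]
      exact Submodule.subset_span hf
    exact h1
  · rw [homLat_eq, Submodule.span_le]
    rintro v ⟨f, hf, rfl⟩
    have h1 : f ∈ Submodule.span ℤ (s : Set (transcendental X →ₗ[ℤ] N.V)) := by
      rw [hs]
      exact hf
    change evalω X N ω f ∈ _
    clear hf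
    induction h1 using Submodule.span_induction with
    | mem g hg =>
      refine Submodule.subset_span ?_
      rw [Finset.coe_image]
      exact ⟨g, hg, rfl⟩
    | zero =>
      rw [map_zero]
      exact zero_mem _
    | add f g hf hg h1 h2 =>
      rw [map_add]
      exact add_mem h1 h2
    | smul c f hf h1 =>
      rw [map_zsmul]
      exact zsmul_mem h1 c

/-- The elements of the lattice have pairings in `K θ`. -/
lemma pair_mem {X N : HodgeLattice} (hX : IsK3 X) {ω : ℂ ⊗[ℤ] (transcendental X)}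
    (hω : IsPeriod X ω) (hF5 : StF5) {R : Subring ℂ} (hR : R ≤ multField X)
    {ψ : LinearMap.BilinForm ℤ N.V}
    (hψ : ∀ k l, k + l ≠ 0 → ∀ x ∈ N.comp k, ∀ y ∈ N.comp l, ψ.baseChange ℂ x y = 0)
    {v w : ℂ ⊗[ℤ] N.V} (hv : v ∈ homLat R X ω N) (hw : w ∈ homSet X ω N) :
    ∃ c ∈ multField X, ψ.baseChange ℂ v (conj _ w) =
      c * X.form.baseChange ℂ (incl X ω) (conj _ (incl X ω)) := by
  obtain ⟨g, hg, rfl⟩ := hw
  rw [homLat_eq] at hv
  induction hv using Submodule.span_induction with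
  | mem v hv =>
    obtain ⟨f, hf, rfl⟩ := hv
    have h1 : IsHodgeForm X (ψ.compl₁₂ f g) := by
      intro k l hkl x y hx hy
      rw [comp_baseChange]
      exact hψ k l hkl _ (hf k x hx) _ (hg l y hy)
    obtain ⟨⟨d, hd, c, hc, h2⟩, -⟩ := hF5 X hX ω hω _ h1
    have hd' : (d : ℂ) ≠ 0 := Int.cast_ne_zero.mpr hd
    refine ⟨c / d, ⟨d, hd, ?_⟩, ?_⟩
    · rw [mul_div_cancel₀ _ hd']
      exact hc
    · rw [conj_baseChange, ← comp_baseChange, div_mul_eq_mul_div, eq_div_iff hd', ← h2, mul_comm]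
  | zero => exact ⟨0, zero_mem _, by simp⟩
  | add x y hx hy h1 h2 =>
    obtain ⟨a, ha, h1⟩ := h1
    obtain ⟨b, hb, h2⟩ := h2
    exact ⟨a + b, add_mem ha hb, by rw [map_add, LinearMap.add_apply, h1, h2, add_mul]⟩
  | smul r x hx h1 =>
    obtain ⟨a, ha, h1⟩ := h1
    refine ⟨r * a, mul_mem (hR r.2) ha, ?_⟩
    have h2 : (r • x : ℂ ⊗[ℤ] N.V) = (r : ℂ) • x := rfl
    rw [h2, map_smul, LinearMap.smul_apply, h1, smul_eq_mul, mul_assoc]

lemma homSet_comp {X N : HodgeLattice} {ω : ℂ ⊗[ℤ] (transcendental X)}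
    (hω : IsPeriod X ω) {w : ℂ ⊗[ℤ] N.V} (hw : w ∈ homSet X ω N) : w ∈ N.comp 2 := by
  obtain ⟨g, hg, rfl⟩ := hw
  exact hg 2 ω hω.1

/-- Invertibility of the Gram matrix for a positive form. -/
lemma gram_det {N : HodgeLattice} {ψ : LinearMap.BilinForm ℤ N.V}
    (hpos : ∀ k, ∀ x ∈ N.comp k, x ≠ 0 → 0 < (Complex.I ^ k * ψ.baseChange ℂ x (conj N.V x)).re)
    {n : ℕ} {e : Fin n → ℂ ⊗[ℤ] N.V} (he : LinearIndependent ℂ e) (h2 : ∀ i, e i ∈ N.comp 2) :
    (Matrix.of fun i j => ψ.baseChange ℂ (e i) (conj _ (e j)) : Matrix (Fin n) (Fin n) ℂ).det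
      ≠ 0 := by
  intro h
  obtain ⟨c, hc, h1⟩ := Matrix.exists_vecMul_eq_zero_iff.mpr h
  have h3 : ∀ j, ψ.baseChange ℂ (∑ i, c i • e i) (conj _ (e j)) = 0 := by
    intro j
    have h4 := congrFun h1 j
    simp only [Matrix.vecMul, dotProduct, Matrix.of_apply, Pi.zero_apply] at h4
    rw [map_sum, LinearMap.sum_apply, ← h4]
    refine Finset.sum_congr rfl fun i _ => ?_
    rw [map_smul, LinearMap.smul_apply, smul_eq_mul]
  have h4 : ψ.baseChange ℂ (∑ i, c i • e i) (conj _ (∑ i, c i • e i)) = 0 := by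
    rw [map_sum (conj N.V), map_sum]
    refine Finset.sum_eq_zero fun j _ => ?_
    rw [conj_smul, map_smul, h3 j, smul_zero]
  have h5 : (∑ i, c i • e i) ∈ N.comp 2 := sum_mem fun i _ => Submodule.smul_mem _ _ (h2 i)
  have h6 : (∑ i, c i • e i) = 0 := by
    by_contra h7
    have h8 := hpos 2 _ h5 h7
    rw [h4, mul_zero] at h8
    exact lt_irrefl _ h8
  apply hc
  ext i
  exact Fintype.linearIndependent_iff.mp he c h6 i

/-- A basis of the complex span. -/
lemma exists_basis (X N : HodgeLattice) (ω : ℂ ⊗[ℤ] (transcendental X)) :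
    ∃ (n : ℕ) (e : Fin n → ℂ ⊗[ℤ] N.V), LinearIndependent ℂ e ∧ (∀ i, e i ∈ homSet X ω N) ∧
      Submodule.span ℂ (Set.range e) = Submodule.span ℂ (homSet X ω N) := by
  obtain ⟨b, hb, h1, h2⟩ := exists_linearIndependent ℂ (homSet X ω N)
  have h3 : b.Finite := h2.setFinite
  have := h3.fintype
  let g := Fintype.equivFin b
  refine ⟨Fintype.card b, fun i => (g.symm i : ℂ ⊗[ℤ] N.V), h2.comp _ g.symm.injective,
    fun i => hb (g.symm i).2, ?_⟩
  rw [← h1]
  congr 1
  ext v
  constructor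
  · rintro ⟨i, rfl⟩
    exact (g.symm i).2
  · intro hv
    exact ⟨g ⟨v, hv⟩, by simp⟩

lemma span_homLat (R : Subring ℂ) (X : HodgeLattice) (ω : ℂ ⊗[ℤ] (transcendental X))
    (N : HodgeLattice) : Submodule.span ℂ (homLat R X ω N : Set (ℂ ⊗[ℤ] N.V)) =
      Submodule.span ℂ (homSet X ω N) := by
  rw [homLat_eq]
  exact Submodule.span_span_of_tower R ℂ _

/-- The rows are finitely generated. -/
lemma rows_fg {R : Subring ℂ} {W : Type} [AddCommGroup W] [Module ℂ W] {L : Submodule R W}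
    {n : ℕ} {e : Fin n → W} (he : IsFrame L e) (hL : L.FG) : (rows e L).FG := by
  have hinj : Function.Injective ((Fintype.linearCombination ℂ e).restrictScalars R) :=
    he.1.fintypeLinearCombination_injective
  apply Submodule.fg_of_fg_map_injective _ hinj
  have h1 : (rows e L).map ((Fintype.linearCombination ℂ e).restrictScalars R) = L := by
    rw [rows, Submodule.map_comap_eq, inf_eq_right]
    intro x hx
    have h2 : x ∈ Submodule.span ℂ (Set.range e) := by
      rw [he.2]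
      exact Submodule.subset_span hx
    rw [← Fintype.range_linearCombination] at h2
    exact h2
  rw [h1]
  exact hL

end G3aux

open G3aux in
theorem stG3 (h5 : StA5) (h6 : StA6) (hF5 : StF5) (_hF7 : StF7) : StG3 := by
  intro R X hX ω hω hRD hmR hRK N
  obtain ⟨n, e, he1, he2, he3⟩ := exists_basis X N ω
  obtain ⟨ψ, hψ1, hψ2⟩ := N.polarizable
  have hframe : IsFrame (homLat R X ω N) e := ⟨he1, he3.trans (span_homLat R X ω N).symm⟩
  refine ⟨n, e, hframe, ?_⟩
  have hθ : X.form.baseChange ℂ (incl X ω) (conj _ (incl X ω)) ≠ 0 := by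
    intro h
    have h1 := hX.pos _ hω.1 hω.2
    rw [h] at h1
    exact lt_irrefl _ h1
  set θ := X.form.baseChange ℂ (incl X ω) (conj _ (incl X ω)) with hθdef
  have hpair : ∀ v ∈ homLat R X ω N, ∀ j, ψ.baseChange ℂ v (conj _ (e j)) / θ ∈ multField X := by
    intro v hv j
    obtain ⟨c, hc, h1⟩ := pair_mem hX hω hF5 hRK hψ1 hv (he2 j)
    rw [h1, mul_div_cancel_right₀ _ hθ]
    exact hc
  let Γ : Matrix (Fin n) (Fin n) ℂ := Matrix.of fun i j => ψ.baseChange ℂ (e i) (conj _ (e j))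
  have hΓ : Γ.det ≠ 0 := gram_det hψ2 he1 fun i => homSet_comp hω (he2 i)
  let Γ' : Matrix (Fin n) (Fin n) ℂ := θ⁻¹ • Γ
  have hΓ' : Γ'.det ≠ 0 := by
    rw [Matrix.det_smul]
    exact mul_ne_zero (pow_ne_zero _ (inv_ne_zero hθ)) hΓ
  have heL : ∀ i, e i ∈ homLat R X ω N := fun i => Submodule.subset_span (he2 i)
  have hΓK : Γ'.det ∈ multField X := by
    apply det_mem
    intro i j
    have h1 := hpair (e i) (heL i) j
    rw [div_eq_inv_mul] at h1
    exact h1
  have hCK : ∀ C : Matrix (Fin n) (Fin n) ℂ, (∀ i, C i ∈ rows e (homLat R X ω N)) →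
      C.det * Γ'.det ∈ multField X := by
    intro C hC
    rw [← Matrix.det_mul]
    apply det_mem
    intro i j
    have h1 : (∑ k, C i k • e k) ∈ homLat R X ω N := hC i
    have h2 := hpair _ h1 j
    have h3 : (C * Γ') i j = ψ.baseChange ℂ (∑ k, C i k • e k) (conj _ (e j)) / θ := by
      rw [Matrix.mul_apply, map_sum, LinearMap.sum_apply, Finset.sum_div]
      refine Finset.sum_congr rfl fun k _ => ?_
      rw [map_smul, LinearMap.smul_apply, smul_eq_mul, mul_div_assoc, div_eq_inv_mul]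
      rfl
    rw [h3]
    exact h2
  have hIK : ∀ c ∈ detIdeal (rows e (homLat R X ω N)), c * Γ'.det ∈ multField X := by
    intro c hc
    induction hc using Submodule.span_induction with
    | mem c hc =>
      obtain ⟨C, hC, rfl⟩ := hc
      exact hCK C hC
    | zero => rw [zero_mul]; exact zero_mem _
    | add x y _ _ h1 h2 => rw [add_mul]; exact add_mem h1 h2
    | smul r x _ h1 =>
      have h2 : (r • x : ℂ) = (r : ℂ) * x := rfl
      rw [h2, mul_assoc]
      exact mul_mem (hRK r.2) h1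
  have hfg : (detIdeal (rows e (homLat R X ω N))).FG :=
    h5 R (Fin n) _ (rows_fg hframe (homLat_fg R X ω N))
  have hone : (1 : ℂ) ∈ detIdeal (rows e (homLat R X ω N)) := by
    refine Submodule.subset_span ⟨1, fun i => ?_, Matrix.det_one.symm⟩
    change (∑ k, (1 : Matrix (Fin n) (Fin n) ℂ) i k • e k) ∈ homLat R X ω N
    have h1 : (∑ k, (1 : Matrix (Fin n) (Fin n) ℂ) i k • e k) = e i := by
      simp [Matrix.one_apply]
    rw [h1]
    exact heL i
  refine h6 R hRD _ hfg ?_ ?_
  · intro h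
    rw [h] at hone
    exact one_ne_zero ((Submodule.mem_bot R).mp hone)
  · -- a common denominator
    have hfin : ∀ I : Submodule R ℂ, I.FG → (∀ c ∈ I, c * Γ'.det ∈ multField X) →
        ∃ m : ℤ, m ≠ 0 ∧ ∀ c ∈ I, (m : ℂ) * (c * Γ'.det) ∈ R := by
      intro I hI hc
      induction I, hI using Submodule.fg_induction with
      | singleton x =>
        obtain ⟨m, hm, h1⟩ := hc x (Submodule.mem_span_singleton_self x)
        refine ⟨m, hm, fun c hc' => ?_⟩
        obtain ⟨r, rfl⟩ := Submodule.mem_span_singleton.mp hc'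
        have h2 : (r • x : ℂ) = (r : ℂ) * x := rfl
        rw [h2, show (m : ℂ) * (r * x * Γ'.det) = r * (m * (x * Γ'.det)) by ring]
        exact mul_mem r.2 (hmR h1)
      | sup I J _ _ hI hJ =>
        obtain ⟨m, hm, h1⟩ := hI fun c h => hc c (Submodule.mem_sup_left h)
        obtain ⟨l, hl, h2⟩ := hJ fun c h => hc c (Submodule.mem_sup_right h)
        refine ⟨m * l, mul_ne_zero hm hl, fun c hc' => ?_⟩
        obtain ⟨a, ha, b, hb, rfl⟩ := Submodule.mem_sup.mp hc'
        rw [show ((m * l : ℤ) : ℂ) * ((a + b) * Γ'.det) =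
          (l : ℂ) * (m * (a * Γ'.det)) + (m : ℂ) * (l * (b * Γ'.det)) by push_cast; ring]
        exact add_mem (mul_mem (intCast_mem _ _) (h1 a ha)) (mul_mem (intCast_mem _ _) (h2 b hb))
    obtain ⟨m, hm, h1⟩ := hfin _ hfg hIK
    obtain ⟨l, hl, h2⟩ := hΓK
    refine ⟨⟨(m : ℂ) * (l * Γ'.det), mul_mem (intCast_mem _ _) (hmR h2)⟩, ?_, fun c hc => ?_⟩
    · intro h
      have h3 := congrArg Subtype.val h
      exact mul_ne_zero (Int.cast_ne_zero.mpr hm) (mul_ne_zero (Int.cast_ne_zero.mpr hl) hΓ') h3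
    · refine ⟨⟨(l : ℂ) * (m * (c * Γ'.det)), mul_mem (intCast_mem _ _) (h1 c hc)⟩, ?_⟩
      change (m : ℂ) * (l * Γ'.det) * c = (l : ℂ) * (m * (c * Γ'.det))
      ring

end Pool.Agent.Lib.MP0cb87d
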