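import Pool.Agent.Lib.MP_0cb87d_ag.Stmts
import Pool.Agent.Lib.MP_0cb87d_ag.G3

/-! Module G1: the lattices `homLat` are functorial and nondegenerate. -/

namespace Pool.Agent.Lib.MP0cb87d

open TensorProduct

open G3aux in
theorem stG1 : StG1 := by
  intro R X ω N M f hf x hx
  rw [homLat_eq] at hx
  induction hx using Submodule.span_induction with
  | mem v hv =>
    obtain ⟨g, hg, rfl⟩ := hv
    refine Submodule.subset_span ⟨f ∘ₗ g, ?_, ?_⟩
    · intro k z hz
      rw [LinearMap.baseChange_comp]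
      exact hf k _ (hg k z hz)
    · rw [LinearMap.baseChange_comp]; rfl
  | zero => rw [map_zero]; exact zero_mem _
  | add x y _ _ h1 h2 => rw [map_add]; exact add_mem h1 h2
  | smul r x _ h1 =>
    have h2 : (r • x : ℂ ⊗[ℤ] N.V) = (r : ℂ) • x := rfl
    rw [h2, map_smul]
    exact Submodule.smul_mem _ r h1

open G3aux in
theorem stG2 (hE : StE1) : StG2 := by
  intro R X hX ω hω N x hx h0
  rw [span_homLat] at hx
  obtain ⟨ψ, hψ1, hψ2⟩ := N.polarizable
  -- the pairing of `x` with the vectors `f ω` for `ψ` vanishes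
  have h1 : ∀ w ∈ homSet X ω N, ψ.baseChange ℂ x (conj _ w) = 0 := by
    rintro w ⟨f, hf, rfl⟩
    obtain ⟨g, hg, -, hgC⟩ := hE X (transcendental X) N ψ hψ1 f hf
    have h2 := hgC x (conj _ ω)
    rw [conj_baseChange, ← h2, ← conj_baseChange]
    exact h0 _ (Submodule.subset_span ⟨g, hg, rfl⟩)
  have h2 : ∀ w ∈ Submodule.span ℂ (homSet X ω N), ψ.baseChange ℂ x (conj _ w) = 0 := by
    intro w hw
    induction hw using Submodule.span_induction with
    | mem w hw => exact h1 w hw
    | zero => simp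
    | add a b _ _ ha hb => rw [map_add, map_add, ha, hb, add_zero]
    | smul c a _ ha => rw [conj_smul, map_smul, ha, smul_zero]
  have h3 : x ∈ N.comp 2 := by
    have h4 : Submodule.span ℂ (homSet X ω N) ≤ N.comp 2 :=
      Submodule.span_le.mpr fun w hw => homSet_comp hω hw
    exact h4 hx
  by_contra h4
  have h5 := hψ2 2 x h3 h4
  rw [h2 x hx, mul_zero] at h5
  exact lt_irrefl _ h5

end Pool.Agent.Lib.MP0cb87d
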