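import Pool.Agent.Lib.MP_0cb87d_ag.Stmts

/-! Modules H1 and H3: the functor of transcendental lattices. -/

namespace Pool.Agent.Lib.MP0cb87d

open TensorProduct

namespace H1aux

/-- the functional `x ↦ (f x, y)` -/
noncomputable def fn {N M : HodgeLattice} (f : N.V →ₗ[ℤ] M.V) (y : M.V) : N.V →ₗ[ℤ] ℤ :=
  (M.form.flip y) ∘ₗ f

theorem fn_apply {N M : HodgeLattice} (f : N.V →ₗ[ℤ] M.V) (y : M.V) (x : N.V) :
    fn f y x = M.form (f x) y := rfl

theorem fn_baseChange {N M : HodgeLattice} (f : N.V →ₗ[ℤ] M.V) (y : M.V)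
    (x : ℂ ⊗[ℤ] N.V) : TensorProduct.rid ℤ ℂ ((fn f y).baseChange ℂ x) =
      M.form.baseChange ℂ (f.baseChange ℂ x) (1 ⊗ₜ y) := by
  induction x with
  | zero => simp
  | add a b ha hb => simp only [map_add, LinearMap.add_apply, ha, hb]
  | tmul c v =>
    rw [LinearMap.baseChange_tmul, LinearMap.baseChange_tmul, TensorProduct.rid_tmul,
      LinearMap.BilinForm.baseChange_tmul, mul_one, fn_apply]

theorem map_trans (h : StE2) (N M : HodgeLattice) (f : N.V →ₗ[ℤ] M.V) (hf : IsHodge N M f)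
    (t : N.V) (ht : t ∈ transcendental N) : f t ∈ transcendental M := by
  intro y' hy'
  obtain ⟨y, hy, hl⟩ := h N (fn f y') (fun k hk x hx => by
    apply (TensorProduct.rid ℤ ℂ).injective
    rw [fn_baseChange, map_zero]
    exact M.orth k 0 (by rwa [add_zero]) _ (hf k x hx) _ hy')
  have h1 := hl t
  rw [fn_apply] at h1
  rw [h1]
  exact ht y hy

/-- elements of `transLat` -/
theorem mem_transLat (N : HodgeLattice) (x : ℂ ⊗[ℤ] N.V) :
    x ∈ transLat N ↔ ∃ t : transcendental N, (1 : ℂ) ⊗ₜ[ℤ] (t : N.V) = x := by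
  constructor
  · intro hx
    induction hx using Submodule.span_induction with
    | mem x hx => exact hx
    | zero => exact ⟨0, by simp⟩
    | add a b _ _ ha hb =>
      obtain ⟨t, rfl⟩ := ha
      obtain ⟨t', rfl⟩ := hb
      exact ⟨t + t', by rw [Submodule.coe_add, TensorProduct.tmul_add]⟩
    | smul r a _ ha =>
      obtain ⟨t, rfl⟩ := ha
      obtain ⟨n, hn⟩ := Subring.mem_bot.1 r.2
      refine ⟨n • t, ?_⟩
      rw [Submodule.coe_smul_of_tower, TensorProduct.tmul_smul]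
      have h1 : r • ((1 : ℂ) ⊗ₜ[ℤ] (t : N.V)) = (r : ℂ) • ((1 : ℂ) ⊗ₜ[ℤ] (t : N.V)) := rfl
      rw [h1, ← hn, TensorProduct.smul_tmul', TensorProduct.smul_tmul']
      congr 1
      simp
  · intro hx
    exact Submodule.subset_span hx

end H1aux

open H1aux

theorem stH1 (h : StE2) : StH1 := by
  intro N M f hf x hx
  rw [mem_transLat] at hx ⊢
  obtain ⟨t, rfl⟩ := hx
  refine ⟨⟨f t, map_trans h N M f hf t t.2⟩, ?_⟩
  rw [LinearMap.baseChange_tmul]

namespace H1aux

variable {N : HodgeLattice} {ι : Type} [Fintype ι]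

theorem linInd (h : StF1) (N : HodgeLattice) {ι : Type}
    (t : Module.Basis ι ℤ (transcendental N)) :
    LinearIndependent ℂ (fun i => (1 : ℂ) ⊗ₜ[ℤ] (t i : N.V)) := by
  have h1 := (t.baseChange ℂ).linearIndependent
  have h2 := h1.map' (incl N) (LinearMap.ker_eq_bot.2 (h N).1)
  have h3 : (incl N : _ → _) ∘ (t.baseChange ℂ : ι → _) =
      fun i => (1 : ℂ) ⊗ₜ[ℤ] (t i : N.V) := by
    funext i
    simp only [Function.comp_apply, Module.Basis.baseChange_apply, incl,
      LinearMap.baseChange_tmul, Submodule.subtype_apply]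
  rw [h3] at h2
  exact h2

theorem tmul_eq_sum (t : Module.Basis ι ℤ (transcendental N)) (x : transcendental N) :
    (1 : ℂ) ⊗ₜ[ℤ] (x : N.V) = ∑ i, ((t.repr x i : ℤ) : ℂ) • ((1 : ℂ) ⊗ₜ[ℤ] (t i : N.V)) := by
  have h1 : (x : N.V) = ∑ i, t.repr x i • (t i : N.V) := by
    have h2 := congrArg (transcendental N).subtype (t.sum_repr x)
    rw [map_sum] at h2
    simp only [map_smul, Submodule.subtype_apply] at h2
    exact h2.symm
  conv_lhs => rw [h1, TensorProduct.tmul_sum]
  refine Finset.sum_congr rfl fun i _ => ?_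
  rw [TensorProduct.tmul_smul, TensorProduct.smul_tmul', TensorProduct.smul_tmul']
  congr 1
  simp

theorem mem_rows (h : StF1) (t : Module.Basis ι ℤ (transcendental N)) (c : ι → ℂ) :
    c ∈ rows (fun i => (1 : ℂ) ⊗ₜ[ℤ] (t i : N.V)) (transLat N) ↔
      ∀ i, ∃ n : ℤ, (n : ℂ) = c i := by
  have h0 : c ∈ rows (fun i => (1 : ℂ) ⊗ₜ[ℤ] (t i : N.V)) (transLat N) ↔
      ∑ i, c i • ((1 : ℂ) ⊗ₜ[ℤ] (t i : N.V)) ∈ transLat N := by
    rw [rows, Submodule.mem_comap, LinearMap.restrictScalars_apply,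
      Fintype.linearCombination_apply]
    exact Iff.rfl
  rw [h0, mem_transLat]
  constructor
  · rintro ⟨x, hx⟩ i
    rw [tmul_eq_sum t x] at hx
    have h1 : ∑ i, (((t.repr x i : ℤ) : ℂ) - c i) • ((1 : ℂ) ⊗ₜ[ℤ] (t i : N.V)) = 0 := by
      simp only [sub_smul, Finset.sum_sub_distrib]
      rw [hx, sub_self]
    have h2 := Fintype.linearIndependent_iff.1 (linInd h N t) _ h1 i
    exact ⟨t.repr x i, sub_eq_zero.1 h2⟩
  · intro hc
    choose n hn using hc
    refine ⟨∑ i, n i • t i, ?_⟩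
    rw [tmul_eq_sum t]
    refine Finset.sum_congr rfl fun i _ => ?_
    rw [← hn i]
    congr 2
    rw [map_sum, Finsupp.finsetSum_apply]
    classical
    simp [Finsupp.single_apply]

end H1aux

theorem stH3 (h : StF1) : StH3 := by
  intro N ι _ _ t
  refine ⟨⟨linInd h N t, le_antisymm ?_ ?_⟩, le_antisymm ?_ ?_⟩
  · rw [Submodule.span_le]
    rintro _ ⟨i, rfl⟩
    exact Submodule.subset_span ((mem_transLat N _).2 ⟨t i, rfl⟩)
  · rw [Submodule.span_le]
    intro x hx
    obtain ⟨y, rfl⟩ := (mem_transLat N x).1 hx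
    rw [tmul_eq_sum t y]
    exact Submodule.sum_mem _ fun i _ =>
      Submodule.smul_mem _ _ (Submodule.subset_span ⟨i, rfl⟩)
  · rw [detIdeal, Submodule.span_le]
    rintro _ ⟨C, hC, rfl⟩
    have h1 : ∀ i j, ∃ n : ℤ, (n : ℂ) = C i j := fun i j => (mem_rows h t (C i)).1 (hC i) j
    choose n hn using h1
    have h2 : C = (Matrix.of n).map (Int.castRingHom ℂ) := by
      ext i j
      exact (hn i j).symm
    rw [SetLike.mem_coe, Submodule.mem_one, h2]
    refine ⟨(Matrix.of n).det, ?_⟩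
    rw [← RingHom.mapMatrix_apply, ← RingHom.map_det]
    simp
  · rw [Submodule.one_le]
    refine Submodule.subset_span ⟨1, fun i => ?_, Matrix.det_one.symm⟩
    rw [mem_rows h t]
    intro j
    by_cases hij : i = j
    · subst hij
      exact ⟨1, by simp⟩
    · exact ⟨0, by simp [Matrix.one_apply_ne hij]⟩

end Pool.Agent.Lib.MP0cb87d
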