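import Pool.Agent.Lib.MP_0cb87d_ag.Stmts

/-! The lattice of transcendental classes is nondegenerate. -/

namespace Pool.Agent.Lib.MP0cb87d

open TensorProduct

namespace H2aux

lemma conj_one (V : Type) [AddCommGroup V] (v : V) :
    conj V ((1 : ℂ) ⊗ₜ[ℤ] v) = (1 : ℂ) ⊗ₜ[ℤ] v := by
  change (starRingEnd ℂ 1) ⊗ₜ[ℤ] v = _
  rw [map_one]

lemma one_tmul_eq_zero (V : Type) [AddCommGroup V] [Module.Free ℤ V] {v : V}
    (h : (1 : ℂ) ⊗ₜ[ℤ] v = 0) : v = 0 := by
  let b := Module.Free.chooseBasis ℤ V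
  rw [← b.repr.map_eq_zero_iff]
  ext i
  have h1 := congrArg (TensorProduct.AlgebraTensorModule.rid ℤ ℂ ℂ)
    (congrArg ((b.coord i).baseChange ℂ) h)
  rw [LinearMap.baseChange_tmul, TensorProduct.AlgebraTensorModule.rid_tmul, map_zero,
    map_zero] at h1
  have h2 : ((b.repr v i : ℤ) : ℂ) = 0 := by
    rw [← h1, Module.Basis.coord_apply]; simp
  exact_mod_cast h2

lemma eq_zero_of_orth (N : HodgeLattice) (x : ℂ ⊗[ℤ] N.V)
    (h : ∀ v : N.V, N.form.baseChange ℂ x ((1 : ℂ) ⊗ₜ[ℤ] v) = 0) : x = 0 := by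
  classical
  let b := Module.Free.chooseBasis ℤ N.V
  have hu : ∀ i, ∃ u : N.V, ∀ v, N.form v u = b.coord i v := by
    intro i
    obtain ⟨u, hu⟩ := N.unimodular.2 (b.coord i)
    refine ⟨u, fun v => ?_⟩
    rw [N.symm]
    exact congrArg (fun f : N.V →ₗ[ℤ] ℤ => f v) hu
  choose u hu using hu
  have key : ∀ x : ℂ ⊗[ℤ] N.V, x = ∑ i, (N.form.baseChange ℂ x ((1 : ℂ) ⊗ₜ[ℤ] u i)) •
      ((1 : ℂ) ⊗ₜ[ℤ] b i) := by
    intro x
    induction x using TensorProduct.induction_on with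
    | zero => simp
    | tmul c v =>
      conv_lhs => rw [← b.sum_repr v]
      rw [TensorProduct.tmul_sum]
      refine Finset.sum_congr rfl fun i _ => ?_
      have e : ((b.repr v i • c : ℂ)) • ((1 : ℂ) ⊗ₜ[ℤ] b i) = (b.repr v i • c) ⊗ₜ[ℤ] b i := by
        rw [TensorProduct.smul_tmul', smul_eq_mul, mul_one]
      rw [LinearMap.BilinForm.baseChange_tmul, hu, mul_one, TensorProduct.tmul_smul,
        TensorProduct.smul_tmul', Module.Basis.coord_apply, e]
    | add x y hx hy =>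
      conv_lhs => rw [hx, hy]
      rw [← Finset.sum_add_distrib]
      refine Finset.sum_congr rfl fun i _ => ?_
      rw [map_add, LinearMap.add_apply, add_smul]
  rw [key x]
  exact Finset.sum_eq_zero fun i _ => by rw [h, zero_smul]

lemma rid_baseChange (N : HodgeLattice) (ψ : LinearMap.BilinForm ℤ N.V) (y : N.V)
    (x : ℂ ⊗[ℤ] N.V) :
    TensorProduct.AlgebraTensorModule.rid ℤ ℂ ℂ (LinearMap.baseChange ℂ (LinearMap.flip ψ y) x) =
      ψ.baseChange ℂ x ((1 : ℂ) ⊗ₜ[ℤ] y) := by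
  induction x using TensorProduct.induction_on with
  | zero => simp
  | tmul c v =>
    rw [LinearMap.baseChange_tmul, TensorProduct.AlgebraTensorModule.rid_tmul,
      LinearMap.BilinForm.baseChange_tmul, mul_one]
    rfl
  | add x y hx hy =>
    rw [map_add, map_add, hx, hy, map_add, LinearMap.add_apply]

lemma alg_nondeg (h : StE2) (N : HodgeLattice) (y : N.V) (hy : y ∈ algebraic N)
    (h0 : ∀ z ∈ algebraic N, N.form y z = 0) : y = 0 := by
  obtain ⟨ψ, hψ, hpos⟩ := N.polarizable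
  by_contra hne
  have hy1 : (1 : ℂ) ⊗ₜ[ℤ] y ≠ 0 := fun h1 => hne (one_tmul_eq_zero N.V h1)
  have hy' : (1 : ℂ) ⊗ₜ[ℤ] y ∈ N.comp 0 := hy
  obtain ⟨z, hz, hz'⟩ := h N (LinearMap.flip ψ y) (by
    intro k hk x hx
    apply (TensorProduct.AlgebraTensorModule.rid ℤ ℂ ℂ).injective
    rw [rid_baseChange, map_zero]
    exact hψ k 0 (by simpa using hk) x hx _ hy')
  have h2 : ψ y y = 0 := by
    have h3 := hz' y
    rw [h0 z hz] at h3
    exact h3
  have h4 := hpos 0 _ hy' hy1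
  rw [conj_one, LinearMap.BilinForm.baseChange_tmul, h2] at h4
  simp at h4

lemma decomp (h : StE2) (N : HodgeLattice) : ∃ d : ℤ, d ≠ 0 ∧
    ∀ v : N.V, ∃ a ∈ algebraic N, ∃ t ∈ transcendental N, d • v = a + t := by
  classical
  let b := Module.Free.chooseBasis ℤ (algebraic N)
  let G : Matrix (Module.Free.ChooseBasisIndex ℤ (algebraic N))
    (Module.Free.ChooseBasisIndex ℤ (algebraic N)) ℤ :=
    Matrix.of fun i j => N.form (b i : N.V) (b j : N.V)
  -- the form with a combination of the basis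
  have hlin : ∀ (c : Module.Free.ChooseBasisIndex ℤ (algebraic N) → ℤ) (j),
      N.form ((∑ i, c i • b i : algebraic N) : N.V) (b j : N.V) = Matrix.vecMul c G j := by
    intro c j
    have e1 : ((∑ i, c i • b i : algebraic N) : N.V) = ∑ i, c i • (b i : N.V) := by
      simp
    rw [e1, map_sum, LinearMap.sum_apply, Matrix.vecMul, dotProduct]
    refine Finset.sum_congr rfl fun i _ => ?_
    rw [map_smul, LinearMap.smul_apply, smul_eq_mul]
    rfl
  have hext : ∀ y : N.V, (∀ j, N.form y (b j : N.V) = 0) → ∀ z ∈ algebraic N, N.form y z = 0 := by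
    intro y hy z hz
    have h1 : (N.form y).comp (algebraic N).subtype = 0 := b.ext fun j => by
      rw [LinearMap.comp_apply, LinearMap.zero_apply]
      exact hy j
    exact congrArg (fun f : algebraic N →ₗ[ℤ] ℤ => f ⟨z, hz⟩) h1
  have hdet : G.det ≠ 0 := by
    intro h0
    obtain ⟨c, hc, hc'⟩ := Matrix.exists_vecMul_eq_zero_iff.2 h0
    apply hc
    have h1 : (∑ i, c i • b i : algebraic N) = 0 := by
      apply Subtype.ext
      apply alg_nondeg h N _ (Subtype.mem _)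
      apply hext
      intro j
      rw [hlin, hc']
      rfl
    funext i
    exact Fintype.linearIndependent_iff.1 b.linearIndependent c h1 i
  refine ⟨G.det, hdet, fun v => ?_⟩
  set w : Module.Free.ChooseBasisIndex ℤ (algebraic N) → ℤ := fun i => N.form v (b i : N.V) with hw
  set c := Matrix.vecMul w G.adjugate with hc
  refine ⟨((∑ i, c i • b i : algebraic N) : N.V), Subtype.mem _,
    G.det • v - ((∑ i, c i • b i : algebraic N) : N.V), ?_, by abel⟩
  apply hext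
  intro j
  rw [map_sub, LinearMap.sub_apply, hlin, hc, Matrix.vecMul_vecMul, Matrix.adjugate_mul,
    Matrix.vecMul_smul, Matrix.vecMul_one, map_smul, LinearMap.smul_apply, Pi.smul_apply]
  exact sub_self _

lemma orth_alg (N : HodgeLattice) (a : N.V) (ha : a ∈ algebraic N) (x : ℂ ⊗[ℤ] N.V)
    (hx : x ∈ Submodule.span ℂ (transLat N : Set (ℂ ⊗[ℤ] N.V))) :
    N.form.baseChange ℂ x ((1 : ℂ) ⊗ₜ[ℤ] a) = 0 := by
  have h1 : ∀ y ∈ transLat N, N.form.baseChange ℂ y ((1 : ℂ) ⊗ₜ[ℤ] a) = 0 := by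
    intro y hy
    refine Submodule.span_induction (p := fun y _ =>
      N.form.baseChange ℂ y ((1 : ℂ) ⊗ₜ[ℤ] a) = 0) ?_ ?_ ?_ ?_ hy
    · rintro _ ⟨t, rfl⟩
      rw [LinearMap.BilinForm.baseChange_tmul, t.2 a ha, zero_smul]
    · rw [map_zero, LinearMap.zero_apply]
    · intro u v _ _ hu hv
      rw [map_add, LinearMap.add_apply, hu, hv, add_zero]
    · intro c u _ hu
      change N.form.baseChange ℂ ((c : ℂ) • u) _ = 0
      rw [map_smul, LinearMap.smul_apply, hu, smul_zero]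
  refine Submodule.span_induction (p := fun y _ =>
      N.form.baseChange ℂ y ((1 : ℂ) ⊗ₜ[ℤ] a) = 0) ?_ ?_ ?_ ?_ hx
  · exact fun y hy => h1 y hy
  · rw [map_zero, LinearMap.zero_apply]
  · intro u v _ _ hu hv
    rw [map_add, LinearMap.add_apply, hu, hv, add_zero]
  · intro c u _ hu
    rw [map_smul, LinearMap.smul_apply, hu, smul_zero]

end H2aux

open H2aux in
theorem stH2 (h : StE2) (_h1 : StF1) : StH2 := by
  intro N x hx hy
  apply eq_zero_of_orth
  intro v
  obtain ⟨d, hd, hdec⟩ := decomp h N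
  obtain ⟨a, ha, t, ht, hv⟩ := hdec v
  have hA : N.form.baseChange ℂ x ((1 : ℂ) ⊗ₜ[ℤ] a) = 0 := orth_alg N a ha x hx
  have hT : N.form.baseChange ℂ x ((1 : ℂ) ⊗ₜ[ℤ] t) = 0 := by
    have h2 := hy ((1 : ℂ) ⊗ₜ[ℤ] t) (Submodule.subset_span ⟨⟨t, ht⟩, rfl⟩)
    rwa [conj_one] at h2
  have h3 : N.form.baseChange ℂ x ((1 : ℂ) ⊗ₜ[ℤ] (d • v)) = 0 := by
    rw [hv, TensorProduct.tmul_add, map_add, hA, hT, add_zero]
  rw [TensorProduct.tmul_smul, map_zsmul] at h3
  exact (smul_eq_zero.1 h3).resolve_left hd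

end Pool.Agent.Lib.MP0cb87d
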