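import Pool.Agent.Lib.MP_0cb87d_ag.Stmts

/-! Module I1: L-equivalent K3 surfaces, a vector of the same norm. -/

namespace Pool.Agent.Lib.MP0cb87d

open TensorProduct

namespace I1aux

/-! ### conjugation -/

lemma conj_tmul (V : Type) [AddCommGroup V] (a : ℂ) (v : V) :
    conj V (a ⊗ₜ[ℤ] v) = (starRingEnd ℂ a) ⊗ₜ[ℤ] v := rfl

lemma conj_conj (V : Type) [AddCommGroup V] (x : ℂ ⊗[ℤ] V) : conj V (conj V x) = x := by
  induction x using TensorProduct.induction_on with
  | zero => simp
  | tmul a v => rw [conj_tmul, conj_tmul, Complex.conj_conj]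
  | add x y hx hy => rw [map_add, map_add, hx, hy]

lemma conj_smul (V : Type) [AddCommGroup V] (c : ℂ) (x : ℂ ⊗[ℤ] V) :
    conj V (c • x) = (starRingEnd ℂ c) • conj V x := by
  induction x using TensorProduct.induction_on with
  | zero => simp
  | tmul a v =>
    rw [TensorProduct.smul_tmul', conj_tmul, conj_tmul, TensorProduct.smul_tmul', smul_eq_mul,
      smul_eq_mul, map_mul]
  | add x y hx hy => rw [smul_add, map_add, hx, hy, map_add, smul_add]

lemma form_conj {V : Type} [AddCommGroup V] (B : LinearMap.BilinForm ℤ V) (x y : ℂ ⊗[ℤ] V) :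
    B.baseChange ℂ (conj V x) (conj V y) = starRingEnd ℂ (B.baseChange ℂ x y) := by
  induction x using TensorProduct.induction_on with
  | zero => simp
  | add x x' hx hx' => rw [map_add, map_add, map_add, LinearMap.add_apply, LinearMap.add_apply,
      map_add, hx, hx']
  | tmul a v =>
    induction y using TensorProduct.induction_on with
    | zero => simp
    | add y y' hy hy' => rw [map_add, map_add, map_add, hy, hy', map_add]
    | tmul b w =>
      rw [conj_tmul, conj_tmul, LinearMap.BilinForm.baseChange_tmul,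
        LinearMap.BilinForm.baseChange_tmul]
      simp

lemma form_symm {V : Type} [AddCommGroup V] (B : LinearMap.BilinForm ℤ V)
    (hB : ∀ x y, B x y = B y x) (x y : ℂ ⊗[ℤ] V) :
    B.baseChange ℂ x y = B.baseChange ℂ y x := by
  induction x using TensorProduct.induction_on with
  | zero => simp
  | add x x' hx hx' => rw [map_add, map_add, LinearMap.add_apply, hx, hx']
  | tmul a v =>
    induction y using TensorProduct.induction_on with
    | zero => simp
    | add y y' hy hy' => rw [map_add, map_add, LinearMap.add_apply, hy, hy']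
    | tmul b w =>
      rw [LinearMap.BilinForm.baseChange_tmul, LinearMap.BilinForm.baseChange_tmul, hB v w,
        mul_comm]

/-- the hermitian norm is real -/
lemma norm_real (N : HodgeLattice) (x : ℂ ⊗[ℤ] N.V) :
    (N.form.baseChange ℂ x (conj N.V x)).im = 0 := by
  apply Complex.conj_eq_iff_im.mp
  rw [← form_conj, conj_conj]
  exact form_symm N.form N.symm _ _

/-- two positive real numbers of the same absolute value -/
lemma eq_of_norm {z w : ℂ} (hz : z.im = 0) (hw : w.im = 0) (hz0 : 0 < z.re) (hw0 : 0 < w.re)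
    (h : ‖z‖ = ‖w‖) : z = w := by
  have ez : z = (z.re : ℂ) := Complex.ext rfl (by simpa using hz)
  have ew : w = (w.re : ℂ) := Complex.ext rfl (by simpa using hw)
  rw [ez, ew, Complex.norm_real, Complex.norm_real, Real.norm_of_nonneg hz0.le,
    Real.norm_of_nonneg hw0.le] at h
  rw [ez, ew, h]

/-! ### the line -/

lemma homLat_le (R : Subring ℂ) (X N : HodgeLattice) {ω : ℂ ⊗[ℤ] (transcendental X)}
    (hω : IsPeriod X ω) : ∀ v ∈ homLat R X ω N, v ∈ N.comp 2 := by
  intro v hv
  have h : homLat R X ω N ≤ (N.comp 2).restrictScalars R := by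
    apply Submodule.span_le.mpr
    rintro v ⟨f, hf, rfl⟩
    exact hf 2 ω hω.1
  exact h hv

lemma incl_mem (R : Subring ℂ) (X : HodgeLattice) (ω : ℂ ⊗[ℤ] (transcendental X)) :
    incl X ω ∈ homLat R X ω X :=
  Submodule.subset_span ⟨(transcendental X).subtype, fun _ _ hx => hx, rfl⟩

lemma frame_X (R : Subring ℂ) (X : HodgeLattice) (hX : IsK3 X) {ω : ℂ ⊗[ℤ] (transcendental X)}
    (hω : IsPeriod X ω) : IsFrame (homLat R X ω X) (fun _ : Unit => incl X ω) := by
  refine ⟨?_, le_antisymm ?_ ?_⟩
  · exact linearIndependent_unique_iff.mpr hω.2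
  · rw [Submodule.span_le]
    rintro _ ⟨i, rfl⟩
    exact Submodule.subset_span (incl_mem R X ω)
  · rw [Submodule.span_le]
    intro v hv
    have h1 : v ∈ X.comp 2 := homLat_le R X X hω v hv
    have h2 := (finrank_eq_one_iff_of_nonzero' (⟨incl X ω, hω.1⟩ : X.comp 2)
      (fun h => hω.2 (congrArg Subtype.val h))).mp hX.finrank_comp ⟨v, h1⟩
    obtain ⟨c, hc⟩ := h2
    have h3 : c • incl X ω = v := congrArg Subtype.val hc
    rw [← h3]
    exact Submodule.smul_mem _ c (Submodule.subset_span ⟨(), rfl⟩)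

lemma one_mem_detIdeal (R : Subring ℂ) (X : HodgeLattice) (ω : ℂ ⊗[ℤ] (transcendental X)) :
    (1 : ℂ) ∈ detIdeal (rows (fun _ : Unit => incl X ω) (homLat R X ω X)) := by
  apply Submodule.subset_span
  refine ⟨fun _ _ => 1, fun i => ?_, ?_⟩
  · change Fintype.linearCombination ℂ (fun _ : Unit => incl X ω) (fun _ => 1) ∈ homLat R X ω X
    rw [Fintype.linearCombination_apply]
    simpa using incl_mem R X ω
  · rw [Matrix.det_unique]

lemma smul_mem_of_detIdeal {R : Subring ℂ} {W : Type} [AddCommGroup W] [Module ℂ W]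
    (L : Submodule R W) (e : Fin 1 → W) :
    ∀ c ∈ detIdeal (rows e L), c • e 0 ∈ L := by
  intro c hc
  unfold detIdeal at hc
  induction hc using Submodule.span_induction with
  | mem x hx =>
    obtain ⟨D, hD, rfl⟩ := hx
    have h1 := hD 0
    change Fintype.linearCombination ℂ e (D 0) ∈ L at h1
    rw [Fintype.linearCombination_apply] at h1
    rw [Matrix.det_unique]
    simpa using h1
  | zero => simp
  | add x y _ _ hx hy => rw [add_smul]; exact add_mem hx hy
  | smul r x _ hx =>
    have h2 : (r • x) • e 0 = r • (x • e 0) := smul_assoc r x (e 0)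
    rw [h2]
    exact L.smul_mem r hx

end I1aux

open I1aux in
/-- L-equivalent K3 surfaces: a vector of the same norm -/
theorem stI1 (hD : StD) (h1 : StG1) (h2 : StG2) (h3 : StG3) : StI1 := by
  intro R C X Y hX hY hXY ω hω hR hR1 hR2
  let F : LatFunctor R :=
    { L := homLat R (C.H X) ω
      map := h1 R (C.H X) ω
      nondeg := h2 R (C.H X) hX ω hω
      inv := h3 R (C.H X) hX ω hω hR hR1 hR2 }
  obtain ⟨n, e', he', -⟩ := h3 R (C.H X) hX ω hω hR hR1 hR2 (C.H Y)
  obtain ⟨hcard, c, hc0, hc, hg⟩ := hD R F C X Y hXY Unit (Fin n) (fun _ => incl _ ω) e'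
    (frame_X R (C.H X) hX hω) he'
  have hn : n = 1 := by
    rw [Fintype.card_fin] at hcard
    simpa using hcard.symm
  subst hn
  have hc1 : c ∈ detIdeal (rows e' (homLat R (C.H X) ω (C.H Y))) := by
    have h4 : c * 1 ∈ detIdeal (rows e' (F.L (C.H Y))) := by
      rw [hc]
      exact Submodule.mul_mem_mul (Submodule.mem_span_singleton_self c)
        (one_mem_detIdeal R (C.H X) ω)
    rwa [mul_one] at h4
  have hv := smul_mem_of_detIdeal _ e' c hc1
  refine ⟨c • e' 0, hv, ?_⟩
  have hv0 : c • e' 0 ≠ 0 := smul_ne_zero hc0 (he'.1.ne_zero 0)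
  apply eq_of_norm (norm_real _ _) (norm_real _ _)
    (hY.pos _ (homLat_le R (C.H X) (C.H Y) hω _ hv) hv0) (hX.pos _ hω.1 hω.2)
  rw [Matrix.det_unique, Matrix.det_unique] at hg
  change ‖(C.H X).form.baseChange ℂ (incl _ ω) (conj _ (incl _ ω))‖ =
    ‖c‖ ^ 2 * ‖(C.H Y).form.baseChange ℂ (e' 0) (conj _ (e' 0))‖ at hg
  rw [hg, conj_smul, map_smul, map_smul, LinearMap.smul_apply, smul_eq_mul, smul_eq_mul, norm_mul,
    norm_mul, RCLike.norm_conj]
  ring

end Pool.Agent.Lib.MP0cb87d
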