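import Pool.Agent.Lib.MP_0cb87d_ag.Stmts

/-! Module (I3): from a vector of the right norm to a Hodge map which multiplies the form by
`n ^ 2`. -/

namespace Pool.Agent.Lib.MP0cb87d

open TensorProduct

namespace I3aux

/-- Conjugation commutes with the complexification of an integral map. -/
lemma baseChange_conj {V W : Type} [AddCommGroup V] [AddCommGroup W] (f : V →ₗ[ℤ] W)
    (x : ℂ ⊗[ℤ] V) : f.baseChange ℂ (conj V x) = conj W (f.baseChange ℂ x) := by
  induction x using TensorProduct.induction_on with
  | zero => simp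
  | tmul c v =>
    rw [LinearMap.baseChange_tmul]
    change f.baseChange ℂ ((starRingEnd ℂ c) ⊗ₜ[ℤ] v) = (starRingEnd ℂ c) ⊗ₜ[ℤ] (f v)
    rw [LinearMap.baseChange_tmul]
  | add x y hx hy => simp only [map_add, hx, hy]

/-- The complexification of the pull-back of a form. -/
lemma pull_baseChange {V W : Type} [AddCommGroup V] [AddCommGroup W]
    (B : LinearMap.BilinForm ℤ W) (f : V →ₗ[ℤ] W) (x y : ℂ ⊗[ℤ] V) :
    LinearMap.BilinForm.baseChange ℂ (LinearMap.compl₁₂ B f f : LinearMap.BilinForm ℤ V) x y =
      B.baseChange ℂ (f.baseChange ℂ x) (f.baseChange ℂ y) := by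
  induction x using TensorProduct.induction_on with
  | zero => simp
  | tmul c v =>
    induction y using TensorProduct.induction_on with
    | zero => simp
    | tmul d w => simp [LinearMap.BilinForm.baseChange_tmul]
    | add y z hy hz => simp only [map_add, hy, hz]
  | add x z hx hz => simp only [map_add, LinearMap.add_apply, hx, hz]

/-- The complexification of a combination of two forms. -/
lemma sub_baseChange {V : Type} [AddCommGroup V]
    (B B' : LinearMap.BilinForm ℤ V) (n : ℤ) (x y : ℂ ⊗[ℤ] V) :
    LinearMap.BilinForm.baseChange ℂ (B - n • B') x y =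
      B.baseChange ℂ x y - n * B'.baseChange ℂ x y := by
  induction x using TensorProduct.induction_on with
  | zero => simp
  | tmul c v =>
    induction y using TensorProduct.induction_on with
    | zero => simp
    | tmul d w =>
      simp only [LinearMap.BilinForm.baseChange_tmul, LinearMap.sub_apply, LinearMap.smul_apply]
      simp [sub_smul, mul_assoc, mul_comm, mul_left_comm]
    | add y z hy hz => simp only [map_add, hy, hz]; ring
  | add x z hx hz => simp only [map_add, LinearMap.add_apply, hx, hz]; ring

/-- If every functional killing the image of `g` is zero, the image has finite index. -/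
lemma finite_index {V W : Type} [AddCommGroup V] [AddCommGroup W] [Module.Finite ℤ W]
    (g : V →ₗ[ℤ] W) (h : ∀ l : W →ₗ[ℤ] ℤ, l ∘ₗ g = 0 → l = 0) :
    ∃ m : ℕ, 0 < m ∧ ∀ y : W, ∃ x : V, g x = m • y := by
  set Q := W ⧸ LinearMap.range g with hQ
  set Q' := Q ⧸ Submodule.torsion ℤ Q with hQ'
  have hfree : Module.Free ℤ Q' := Module.free_of_finite_type_torsion_free'
  have hzero : ∀ z : Q', z = 0 := by
    intro z
    rw [← Module.forall_dual_apply_eq_zero_iff ℤ z]
    intro φ
    have h1 : φ ∘ₗ (Submodule.torsion ℤ Q).mkQ ∘ₗ (LinearMap.range g).mkQ = 0 := by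
      apply h
      ext x
      simp only [LinearMap.comp_apply, LinearMap.zero_apply]
      have : (LinearMap.range g).mkQ (g x) = 0 := by
        rw [Submodule.mkQ_apply, Submodule.Quotient.mk_eq_zero]
        exact ⟨x, rfl⟩
      rw [this, map_zero, map_zero]
    obtain ⟨q, rfl⟩ := Submodule.mkQ_surjective _ z
    obtain ⟨w, rfl⟩ := Submodule.mkQ_surjective _ q
    exact LinearMap.congr_fun h1 w
  have htor : Module.IsTorsion ℤ Q := by
    intro q
    have h1 := hzero ((Submodule.torsion ℤ Q).mkQ q)
    rw [Submodule.mkQ_apply, Submodule.Quotient.mk_eq_zero, Submodule.mem_torsion_iff] at h1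
    exact h1
  have h2 := Submodule.annihilator_top_inter_nonZeroDivisors htor
  obtain ⟨a, ha1, ha2⟩ := h2
  have ha0 : a ≠ 0 := nonZeroDivisors.ne_zero ha2
  refine ⟨a.natAbs, Int.natAbs_pos.mpr ha0, fun y => ?_⟩
  have h3 : a • (LinearMap.range g).mkQ y = 0 := by
    have := Submodule.mem_annihilator.mp ha1 ((LinearMap.range g).mkQ y) trivial
    exact this
  rw [← map_smul, Submodule.mkQ_apply, Submodule.Quotient.mk_eq_zero] at h3
  obtain ⟨x, hx⟩ := h3
  rcases Int.natAbs_eq a with h4 | h4
  · refine ⟨x, ?_⟩
    rw [hx, ← natCast_zsmul, ← h4]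
  · refine ⟨-x, ?_⟩
    rw [map_neg, hx, ← natCast_zsmul, ← neg_smul, neg_eq_iff_eq_neg.mpr h4]

end I3aux

open I3aux

/-- (I3) From a vector to a map. -/
theorem stI3 (_h1 : StF1) (h2 : StF2) (h3 : StF3) (h4 : StF4) (h5 : StF5) : StI3 := by
  intro N M hN hM ω hω n hn f hf hnorm
  have hmem := h4 N M hN f hf
  set g : transcendental N →ₗ[ℤ] transcendental M := f.codRestrict (transcendental M) hmem with hg
  have hgf : (transcendental M).subtype ∘ₗ g = f := by ext x; rfl
  have hincl : ∀ x, incl M (g.baseChange ℂ x) = f.baseChange ℂ x := by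
    intro x
    rw [incl, ← LinearMap.comp_apply, ← LinearMap.baseChange_comp, hgf]
  have hgH : IsHodgeTrans N M g := by
    intro k x hx
    rw [hincl]
    exact hf k x hx
  -- the form
  set β : LinearMap.BilinForm ℤ (transcendental N) :=
    (LinearMap.compl₁₂ M.form f f : LinearMap.BilinForm ℤ (transcendental N)) -
      ((n : ℤ) ^ 2) • (LinearMap.compl₁₂ N.form (transcendental N).subtype
        (transcendental N).subtype : LinearMap.BilinForm ℤ (transcendental N)) with hβ
  have hβC : ∀ x y, β.baseChange ℂ x y = M.form.baseChange ℂ (f.baseChange ℂ x)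
      (f.baseChange ℂ y) - (n : ℂ) ^ 2 * N.form.baseChange ℂ (incl N x) (incl N y) := by
    intro x y
    rw [hβ, sub_baseChange, pull_baseChange, pull_baseChange]
    simp [incl]
  have hβH : IsHodgeForm N β := by
    intro k l hkl x y hx hy
    rw [hβC, M.orth k l hkl _ (hf k x hx) _ (hf l y hy), N.orth k l hkl _ hx _ hy]
    simp
  have hβ0 : β = 0 := by
    apply (h5 N hN ω hω β hβH).2
    rw [hβC, baseChange_conj, hnorm]
    have : incl N (conj _ ω) = conj _ (incl N ω) := baseChange_conj _ _
    rw [this]
    ring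
  have hform : ∀ x y : transcendental N, M.form (g x) (g y) = (n : ℤ) ^ 2 * N.form x y := by
    intro x y
    have h6 : β x y = 0 := by rw [hβ0]; rfl
    have h7 : β x y = M.form (f x) (f y) - (n : ℤ) ^ 2 * N.form x y := by
      rw [hβ]; simp
    rw [h7] at h6
    have h8 : M.form (g x) (g y) = M.form (f x) (f y) := rfl
    rw [h8]
    linarith
  refine ⟨g, fun x => rfl, hgH, ?_, ?_, hform⟩
  · rw [injective_iff_map_eq_zero]
    intro x hx
    apply (h2 N hN).2.1 x
    intro y
    have h6 := hform x y
    rw [hx] at h6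
    have hn0 : ((n : ℤ) ^ 2) ≠ 0 := by positivity
    have h7 : (n : ℤ) ^ 2 * N.form x y = 0 := by rw [← h6]; simp
    exact (mul_eq_zero.mp h7).resolve_left hn0
  · apply finite_index
    intro l hl
    -- the image of the period is a period
    have hp : IsPeriod M (g.baseChange ℂ ω) := by
      refine ⟨hgH 2 ω hω.1, ?_⟩
      rw [hincl]
      intro h0
      rw [h0] at hnorm
      have h6 := hN.pos _ hω.1 hω.2
      simp only [map_zero] at hnorm
      have hn0 : ((n : ℂ) ^ 2) ≠ 0 := by
        have : (n : ℂ) ≠ 0 := by exact_mod_cast hn.ne'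
        positivity
      have h7 := (mul_eq_zero.mp hnorm.symm).resolve_left hn0
      rw [h7] at h6
      simp at h6
    apply h3 M hM _ hp ℤ l
    rw [← LinearMap.comp_apply, ← LinearMap.baseChange_comp, hl]
    simp

end Pool.Agent.Lib.MP0cb87d
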