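import Pool.Agent.Lib.MP_0cb87d_ag.Stmts

/-! The inverse of a bijective Hodge map of transcendental lattices is a Hodge map; the elements of
`homLat` over the ring of multipliers and its field of fractions. -/

namespace Pool.Agent.Lib.MP0cb87d

open TensorProduct

namespace I4aux

/-- the projections of an internal direct sum -/
theorem exists_proj {W : Type} [AddCommGroup W] [Module ℂ W] (comp : ℤ → Submodule ℂ W)
    (h : DirectSum.IsInternal comp) :
    ∃ π : ℤ → W →ₗ[ℂ] W, (∀ k x, π k x ∈ comp k) ∧ (∀ k, ∀ x ∈ comp k, π k x = x) ∧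
      (∀ k l, k ≠ l → ∀ x ∈ comp k, π l x = 0) ∧
      ∀ x, ∃ s : Finset ℤ, x = ∑ k ∈ s, π k x := by
  classical
  letI := h.chooseDecomposition
  refine ⟨fun k => (comp k).subtype ∘ₗ DirectSum.component ℂ ℤ (fun i => comp i) k ∘ₗ
    (DirectSum.decomposeLinearEquiv comp).toLinearMap, fun k x => ?_, fun k x hx => ?_,
    fun k l hkl x hx => ?_, fun x => ?_⟩
  · exact (DirectSum.decompose comp x k).2
  · exact DirectSum.decompose_of_mem_same comp hx
  · exact DirectSum.decompose_of_mem_ne comp hx hkl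
  · exact ⟨(DirectSum.decompose comp x).support, (DirectSum.sum_support_decompose comp x).symm⟩

theorem orth_alg (N : HodgeLattice) (k : ℤ) (hk : k ≠ 0) (x : ℂ ⊗[ℤ] N.V) (hx : x ∈ N.comp k)
    (y : N.V) (hy : y ∈ algebraic N) : N.form.baseChange ℂ x (1 ⊗ₜ y) = 0 :=
  N.orth k 0 (by simpa using hk) x hx _ hy

/-- the components of an element of the transcendental lattice -/
theorem comp_incl (h1 : StF1) (N : HodgeLattice) (π : ℤ → ℂ ⊗[ℤ] N.V →ₗ[ℂ] ℂ ⊗[ℤ] N.V)
    (h2 : ∀ k x, π k x ∈ N.comp k) (h3 : ∀ x, ∃ s : Finset ℤ, x = ∑ k ∈ s, π k x)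
    (h4 : ∀ k, ∀ x ∈ N.comp k, π k x = x) (h5 : ∀ k l, k ≠ l → ∀ x ∈ N.comp k, π l x = 0)
    (x : ℂ ⊗[ℤ] (transcendental N)) (k : ℤ) : ∃ t, incl N t = π k (incl N x) := by
  have hne : ∀ l, l ≠ 0 → ∃ t, incl N t = π l (incl N x) := fun l hl =>
    ((h1 N).2 _).2 fun y hy => orth_alg N l hl _ (h2 l _) y hy
  by_cases hk : k = 0
  · subst hk
    obtain ⟨s, hs⟩ := h3 (incl N x)
    have hr : ∀ l ∈ s.erase 0, π l (incl N x) ∈ LinearMap.range (incl N) := fun l hl => by
      obtain ⟨t, ht⟩ := hne l (Finset.ne_of_mem_erase hl)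
      exact ⟨t, ht⟩
    have hsum : π 0 (incl N x) = incl N x - ∑ l ∈ s.erase 0, π l (incl N x) := by
      by_cases h0 : (0 : ℤ) ∈ s
      · rw [eq_sub_iff_add_eq, Finset.add_sum_erase s (fun l => π l (incl N x)) h0, ← hs]
      · have h6 : π 0 (incl N x) = 0 := by
          conv_lhs => rw [hs]
          rw [map_sum]
          exact Finset.sum_eq_zero fun l hl =>
            h5 l 0 (fun h => h0 (h ▸ hl)) _ (h2 l _)
        rw [h6, Finset.erase_eq_of_notMem h0, ← hs, sub_self]
    have hm : π 0 (incl N x) ∈ LinearMap.range (incl N) := by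
      rw [hsum]
      exact Submodule.sub_mem _ ⟨x, rfl⟩ (Submodule.sum_mem _ hr)
    obtain ⟨t, ht⟩ := hm
    exact ⟨t, ht⟩
  · exact hne k hk

end I4aux

open I4aux in
theorem stI4 (h1 : StF1) : StI4 := by
  intro N M e he k y hy
  obtain ⟨π, p1, p2, p3, p4⟩ := exists_proj N.comp N.internal
  obtain ⟨ρ, r1, r2, r3, r4⟩ := exists_proj M.comp M.internal
  set x : ℂ ⊗[ℤ] (transcendental N) := (e.symm : transcendental M →ₗ[ℤ] transcendental N).baseChange ℂ y
    with hx
  have hexy : (e : transcendental N →ₗ[ℤ] transcendental M).baseChange ℂ x = y := by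
    rw [hx, ← LinearMap.comp_apply, ← LinearMap.baseChange_comp]
    simp
  have hinj : ∀ z : ℂ ⊗[ℤ] (transcendental N),
      (e : transcendental N →ₗ[ℤ] transcendental M).baseChange ℂ z = 0 → z = 0 := by
    intro z hz
    have : (e.symm : transcendental M →ₗ[ℤ] transcendental N).baseChange ℂ
        ((e : transcendental N →ₗ[ℤ] transcendental M).baseChange ℂ z) = z := by
      rw [← LinearMap.comp_apply, ← LinearMap.baseChange_comp]
      simp
    rw [← this, hz, map_zero]
  choose t ht using comp_incl h1 N π p1 p4 p2 p3 x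
  obtain ⟨s, hs⟩ := p4 (incl N x)
  have hxs : x = ∑ l ∈ s, t l := by
    apply (h1 N).1
    rw [map_sum]
    simp only [ht]
    exact hs
  have htc : ∀ l, incl M ((e : transcendental N →ₗ[ℤ] transcendental M).baseChange ℂ (t l)) ∈
      M.comp l := fun l => he l _ (by rw [ht]; exact p1 l _)
  have hz : ∀ l ∈ s, l ≠ k → t l = 0 := by
    intro l hl hlk
    apply hinj
    apply (h1 M).1
    rw [map_zero]
    have h2 : ρ l (incl M y) = 0 := r3 k l (Ne.symm hlk) _ hy
    rw [← hexy, hxs, map_sum, map_sum, map_sum, Finset.sum_eq_single l, r2 l _ (htc l)] at h2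
    · exact h2
    · intro j _ hjl
      exact r3 j l hjl _ (htc j)
    · intro h
      exact absurd hl h
  change incl N x ∈ N.comp k
  rw [hs]
  refine Submodule.sum_mem _ fun l hl => ?_
  by_cases hlk : l = k
  · rw [hlk]
    exact p1 k _
  · rw [← ht, hz l hl hlk, map_zero]
    exact Submodule.zero_mem _

theorem stI5 : StI5 := by
  intro X N _ ω hω
  have hcomp : ∀ (f : transcendental X →ₗ[ℤ] N.V) (h : transcendental X →ₗ[ℤ] transcendental X),
      IsHodgeFrom X (transcendental X) N f → IsHodgeTrans X X h →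
      IsHodgeFrom X (transcendental X) N (f ∘ₗ h) := by
    intro f h hf hh k x hx
    rw [LinearMap.baseChange_comp, LinearMap.comp_apply]
    exact hf k _ (hh k x hx)
  have hadd : ∀ f g : transcendental X →ₗ[ℤ] N.V, IsHodgeFrom X (transcendental X) N f →
      IsHodgeFrom X (transcendental X) N g → IsHodgeFrom X (transcendental X) N (f + g) := by
    intro f g hf hg k x hx
    rw [LinearMap.baseChange_add, LinearMap.add_apply]
    exact add_mem (hf k x hx) (hg k x hx)
  have hzero : IsHodgeFrom X (transcendental X) N 0 := by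
    intro k x _
    simp
  have hzs : ∀ (m : ℤ) (f : transcendental X →ₗ[ℤ] N.V) (x : ℂ ⊗[ℤ] (transcendental X)),
      (m • f).baseChange ℂ x = (m : ℂ) • f.baseChange ℂ x := by
    intro m f x
    rw [LinearMap.baseChange_smul, LinearMap.smul_apply, Int.cast_smul_eq_zsmul]
  have hsmul : ∀ (m : ℤ) (f : transcendental X →ₗ[ℤ] N.V),
      IsHodgeFrom X (transcendental X) N f → IsHodgeFrom X (transcendental X) N (m • f) := by
    intro m f hf k x hx
    rw [hzs]
    exact Submodule.smul_mem _ _ (hf k x hx)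
  constructor
  · intro v hv
    rw [homLat] at hv
    induction hv using Submodule.span_induction with
    | mem v hv => exact hv
    | zero => exact ⟨0, hzero, by simp⟩
    | add v w _ _ h1 h2 =>
      obtain ⟨f, hf, rfl⟩ := h1
      obtain ⟨g, hg, rfl⟩ := h2
      exact ⟨f + g, hadd f g hf hg, by rw [LinearMap.baseChange_add, LinearMap.add_apply]⟩
    | smul c v _ h1 =>
      obtain ⟨f, hf, rfl⟩ := h1
      obtain ⟨h, hh, hc⟩ := c.2
      refine ⟨f ∘ₗ h, hcomp f h hf hh, ?_⟩
      rw [LinearMap.baseChange_comp, LinearMap.comp_apply, hc ω hω.1, map_smul]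
      rfl
  · intro v hv
    rw [homLat] at hv
    induction hv using Submodule.span_induction with
    | mem v hv =>
      obtain ⟨f, hf, rfl⟩ := hv
      exact ⟨1, f, one_pos, hf, by simp⟩
    | zero => exact ⟨1, 0, one_pos, hzero, by simp⟩
    | add v w _ _ h1 h2 =>
      obtain ⟨n, f, hn, hf, hfv⟩ := h1
      obtain ⟨m, g, hm, hg, hgw⟩ := h2
      refine ⟨n * m, (m : ℤ) • f + (n : ℤ) • g, Nat.mul_pos hn hm,
        hadd _ _ (hsmul _ f hf) (hsmul _ g hg), ?_⟩
      rw [LinearMap.baseChange_add, LinearMap.add_apply, hzs, hzs, hfv, hgw, smul_smul, smul_smul]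
      push_cast
      rw [smul_add, mul_comm (m : ℂ) (n : ℂ)]
    | smul c v _ h1 =>
      obtain ⟨n, f, hn, hf, hfv⟩ := h1
      obtain ⟨m, hm, h, hh, hc⟩ := c.2
      have h2 : (f ∘ₗ h).baseChange ℂ ω = ((m : ℂ) * (n : ℂ)) • (c • v) := by
        rw [LinearMap.baseChange_comp, LinearMap.comp_apply, hc ω hω.1, map_smul, hfv, smul_smul]
        change _ = ((m : ℂ) * (n : ℂ)) • ((c : ℂ) • v)
        rw [smul_smul]
        congr 1
        ring
      rcases lt_or_gt_of_ne hm with h3 | h3
      · refine ⟨m.natAbs * n, (-1 : ℤ) • (f ∘ₗ h), Nat.mul_pos (Int.natAbs_pos.2 hm) hn,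
          hsmul _ _ (hcomp f h hf hh), ?_⟩
        have h4 : ((m.natAbs : ℕ) : ℂ) = -(m : ℂ) := by
          have : ((m.natAbs : ℕ) : ℤ) = -m := by omega
          rw [← Int.cast_natCast, this, Int.cast_neg]
        rw [hzs, h2, smul_smul]
        push_cast [h4]
        congr 1
        ring
      · refine ⟨m.natAbs * n, f ∘ₗ h, Nat.mul_pos (Int.natAbs_pos.2 hm) hn, hcomp f h hf hh, ?_⟩
        have h4 : ((m.natAbs : ℕ) : ℂ) = (m : ℂ) := by
          have : ((m.natAbs : ℕ) : ℤ) = m := by omega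
          rw [← Int.cast_natCast, this]
        rw [h2]
        push_cast [h4]
        rfl

end Pool.Agent.Lib.MP0cb87d
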