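import Pool.Agent.Lib.MP_0cb87d_ag.Stmts

/-! Final assembly. -/

namespace Pool.Agent.Lib.MP0cb87d

open TensorProduct

namespace Jaux

variable (N M : HodgeLattice)

lemma gram_mul {ι κ : Type} [Fintype ι] [DecidableEq ι] [Fintype κ] [DecidableEq κ]
    (t : Module.Basis ι ℤ (transcendental N)) (t' : Module.Basis κ ℤ (transcendental M))
    (g : transcendental N →ₗ[ℤ] transcendental M)
    (hg : ∀ x y : transcendental N, M.form (g x) (g y) = N.form x y) :
    (Matrix.of fun i j => N.form (t i) (t j)) =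
      (Matrix.of fun i j => t'.repr (g (t i)) j) *
        (Matrix.of fun i j => M.form (t' i) (t' j)) *
        (Matrix.of fun i j => t'.repr (g (t i)) j).transpose := by
  ext i j
  have e1 : ∀ x : transcendental M, (x : M.V) = ∑ k, t'.repr x k • (t' k : M.V) := by
    intro x
    have h := congrArg (transcendental M).subtype (t'.sum_repr x)
    rw [map_sum] at h
    simp only [map_smul, Submodule.subtype_apply] at h
    exact h.symm
  simp only [Matrix.of_apply, Matrix.mul_apply, Matrix.transpose_apply]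
  rw [← hg, e1 (g (t i)), e1 (g (t j))]
  simp only [map_sum, map_smul, LinearMap.sum_apply, LinearMap.smul_apply, smul_eq_mul,
    Finset.sum_mul, Finset.mul_sum]
  refine Finset.sum_congr rfl fun a _ => Finset.sum_congr rfl fun b _ => ?_
  ring

end Jaux

theorem stJ (hI1 : StI1) (hI2 : StI2) (hI3 : StI3) (hI4 : StI4) (hI5 : StI5) (hF2 : StF2)
    (hF7 : StF7) : MainStatement := by
  intro C X Y hX hY hXY
  obtain ⟨ω, hω⟩ := (hF2 _ hX).1
  have hmul : multipliers (C.H X) ≤ multField (C.H X) := fun c hc =>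
    ⟨1, one_ne_zero, by simpa using hc⟩
  refine ⟨?_, ?_⟩
  · obtain ⟨v, hv, hvn⟩ := hI1 (multField (C.H X)) C X Y hX hY hXY ω hω (hF7 _ hX).2 hmul le_rfl
    obtain ⟨n, f, hn, hf, hfv⟩ := (hI5 (C.H X) (C.H Y) hX ω hω).2 v hv
    obtain ⟨g, -, hg1, hg2, hg3, hg4⟩ := hI3 _ _ hX hY ω hω n hn f hf (by
      rw [hfv]
      have : conj (C.H Y).V ((n : ℂ) • v) = (n : ℂ) • conj (C.H Y).V v := by
        rw [Nat.cast_smul_eq_nsmul, Nat.cast_smul_eq_nsmul, map_nsmul]
      rw [this, map_smul, map_smul, LinearMap.smul_apply, hvn]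
      simp only [smul_eq_mul]
      ring)
    exact ⟨n, g, hn, hg1, hg2, hg3, hg4⟩
  · intro hint
    have hD := (hF7 _ hX).1 hint
    obtain ⟨v, hv, hvn⟩ := hI1 (multipliers (C.H X)) C X Y hX hY hXY ω hω hD le_rfl hmul
    obtain ⟨f, hf, hfv⟩ := (hI5 (C.H X) (C.H Y) hX ω hω).1 v hv
    obtain ⟨g, -, hg1, hg2, hg3, hg4⟩ := hI3 _ _ hX hY ω hω 1 one_pos f hf (by
      rw [hfv, hvn]; simp)
    have hg5 : ∀ x y : transcendental (C.H X), (C.H Y).form (g x) (g y) = (C.H X).form x y := by
      intro x y; rw [hg4]; simp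
    -- bases
    let t := Module.Free.chooseBasis ℤ (transcendental (C.H X))
    let t' := Module.Free.chooseBasis ℤ (transcendental (C.H Y))
    classical
    obtain ⟨hcard, hdet, hne⟩ := hI2 C X Y hXY _ _ t t'
    have σ := Fintype.equivOfCardEq hcard
    let t'' := t'.reindex σ.symm
    obtain ⟨-, hdet, hne⟩ := hI2 C X Y hXY _ _ t t''
    have hG := Jaux.gram_mul _ _ t t'' g hg5
    set P : Matrix _ _ ℤ := Matrix.of fun i j => t''.repr (g (t i)) j with hP
    have hdetG := congrArg Matrix.det hG
    rw [Matrix.det_mul, Matrix.det_mul, Matrix.det_transpose] at hdetG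
    have hPdet : IsUnit P.det := by
      rw [Int.isUnit_iff_natAbs_eq]
      have h1 := congrArg Int.natAbs hdetG
      rw [Int.natAbs_mul, Int.natAbs_mul, ← hdet] at h1
      have h2 : 0 < (Matrix.of fun i j => (C.H X).form (t i) (t j)).det.natAbs :=
        Int.natAbs_pos.mpr hne
      have h3 : P.det.natAbs * P.det.natAbs = 1 := by
        have : (Matrix.of fun i j => (C.H X).form (t i) (t j)).det.natAbs * 1 =
          (Matrix.of fun i j => (C.H X).form (t i) (t j)).det.natAbs *
            (P.det.natAbs * P.det.natAbs) := by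
          rw [mul_one]
          calc _ = _ := h1
            _ = _ := by ring
        exact (Nat.eq_of_mul_eq_mul_left h2 this).symm
      exact Nat.eq_one_of_mul_eq_one_left h3
    have hsurj : Function.Surjective g := by
      have hto : LinearMap.toMatrix t t'' g = P.transpose := by
        ext i j
        simp [LinearMap.toMatrix_apply, hP]
      have hu : IsUnit (LinearMap.toMatrix t t'' g).det := by
        rw [hto, Matrix.det_transpose]; exact hPdet
      exact (LinearEquiv.ofIsUnitDet (f := g) (v := t) (v' := t'') hu).surjective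
    let e := LinearEquiv.ofBijective g ⟨hg2, hsurj⟩
    have he : IsHodgeTrans (C.H X) (C.H Y) (e : _ →ₗ[ℤ] _) := by
      have : (e : transcendental (C.H X) →ₗ[ℤ] transcendental (C.H Y)) = g := by
        ext x; rfl
      rw [this]; exact hg1
    exact ⟨e, he, hI4 _ _ e he, hg5⟩

end Pool.Agent.Lib.MP0cb87d
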