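import Pool.Agent.Lib.MP_0cb87d_ag.A1
import Pool.Agent.Lib.MP_0cb87d_ag.A2
import Pool.Agent.Lib.MP_0cb87d_ag.A3
import Pool.Agent.Lib.MP_0cb87d_ag.A5
import Pool.Agent.Lib.MP_0cb87d_ag.A6
import Pool.Agent.Lib.MP_0cb87d_ag.B2
import Pool.Agent.Lib.MP_0cb87d_ag.C1
import Pool.Agent.Lib.MP_0cb87d_ag.C2
import Pool.Agent.Lib.MP_0cb87d_ag.C3
import Pool.Agent.Lib.MP_0cb87d_ag.C4
import Pool.Agent.Lib.MP_0cb87d_ag.D0
import Pool.Agent.Lib.MP_0cb87d_ag.D1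
import Pool.Agent.Lib.MP_0cb87d_ag.E1
import Pool.Agent.Lib.MP_0cb87d_ag.F1
import Pool.Agent.Lib.MP_0cb87d_ag.F2
import Pool.Agent.Lib.MP_0cb87d_ag.F3
import Pool.Agent.Lib.MP_0cb87d_ag.F5
import Pool.Agent.Lib.MP_0cb87d_ag.F6
import Pool.Agent.Lib.MP_0cb87d_ag.G1
import Pool.Agent.Lib.MP_0cb87d_ag.G3
import Pool.Agent.Lib.MP_0cb87d_ag.H1
import Pool.Agent.Lib.MP_0cb87d_ag.H2
import Pool.Agent.Lib.MP_0cb87d_ag.I1
import Pool.Agent.Lib.MP_0cb87d_ag.I2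
import Pool.Agent.Lib.MP_0cb87d_ag.I3
import Pool.Agent.Lib.MP_0cb87d_ag.I4
import Pool.Agent.Lib.MP_0cb87d_ag.J

/-! The theorem, from the modules. -/

namespace Pool.Agent.Lib.MP0cb87d

theorem main : MainStatement := by
  have hC3 : StC3 := stC3 stA3 stA4
  have hC2 : StC2 := stC2 stA1 (stA2 stA1 stA3) stB2 stC1
  have hD : StD := stD stD0 (stD1 hC2 hC3 stC4)
  have hF2 : StF2 := stF2 stF1
  have hF3 : StF3 := stF3 stF1 hF2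
  have hF4 : StF4 := stF4 hF2 hF3
  have hF5 : StF5 := stF5 stF1 hF2 hF3
  have hF7 : StF7 := stF7 (stF6 hF2 hF3)
  exact stJ (stI1 hD stG1 (stG2 stE1) (stG3 stA5 stA6 hF5 hF7))
    (stI2 hD stC4 (stH1 stE2) (stH2 stE2 stF1) (stH3 stF1))
    (stI3 stF1 hF2 hF3 hF4 hF5) (stI4 stF1) stI5 hF2 hF7

end Pool.Agent.Lib.MP0cb87d
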