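import Pool.Agent.Lib.MP_0cb87d_ag.Defs

/-! Auxiliary definitions and the statements of the modules of the proof of `MainStatement`. -/

namespace Pool.Agent.Lib.MP0cb87d

open TensorProduct

/-! ### Part A: determinant ideals of lattices of row vectors -/

/-- The `R`-submodule of `ℂ` spanned by the determinants of matrices with rows in `S`. -/
def detIdeal {R : Subring ℂ} {ι : Type} [Fintype ι] [DecidableEq ι] (S : Submodule R (ι → ℂ)) :
    Submodule R ℂ :=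
  Submodule.span R {c | ∃ C : Matrix ι ι ℂ, (∀ i, C i ∈ S) ∧ c = C.det}

/-- Vectors on `α ⊕ β` with first part in `S`, second part in `S'`. -/
def prodRows {R : Subring ℂ} {α β : Type} (S : Submodule R (α → ℂ)) (S' : Submodule R (β → ℂ)) :
    Submodule R (α ⊕ β → ℂ) :=
  S.comap (LinearMap.funLeft R ℂ Sum.inl) ⊓ S'.comap (LinearMap.funLeft R ℂ Sum.inr)

/-- Vectors on `Fin m × ι` all whose parts are in `S`. -/
def powRows {R : Subring ℂ} {ι : Type} (m : ℕ) (S : Submodule R (ι → ℂ)) :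
    Submodule R (Fin m × ι → ℂ) :=
  ⨅ i : Fin m, S.comap (LinearMap.funLeft R ℂ fun j => (i, j))

def StA1 : Prop := ∀ (R : Subring ℂ) (α β : Type) [Fintype α] [DecidableEq α] [Fintype β]
  [DecidableEq β] (S : Submodule R (α → ℂ)) (S' : Submodule R (β → ℂ)),
  detIdeal (prodRows S S') = detIdeal S * detIdeal S'

def StA2 : Prop := ∀ (R : Subring ℂ) (ι : Type) [Fintype ι] [DecidableEq ι] (m : ℕ)
  (S : Submodule R (ι → ℂ)), detIdeal (powRows m S) = detIdeal S ^ m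

def StA3 : Prop := ∀ (R : Subring ℂ) (ι κ : Type) [Fintype ι] [DecidableEq ι] [Fintype κ]
  [DecidableEq κ] (σ : ι ≃ κ) (S : Submodule R (ι → ℂ)),
  detIdeal (S.comap (LinearMap.funLeft R ℂ σ)) = detIdeal S

/-- Change of basis. -/
def StA4 : Prop := ∀ (R : Subring ℂ) (ι : Type) [Fintype ι] [DecidableEq ι]
  (S S' : Submodule R (ι → ℂ)) (P : Matrix ι ι ℂ), P.det ≠ 0 →
  (∀ c : ι → ℂ, c ∈ S' ↔ Matrix.vecMul c P ∈ S) →
  detIdeal S = Submodule.span R {P.det} * detIdeal S'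

/-- A finitely generated lattice has a finitely generated determinant ideal. -/
def StA5 : Prop := ∀ (R : Subring ℂ) (ι : Type) [Fintype ι] [DecidableEq ι]
  (S : Submodule R (ι → ℂ)), S.FG → (detIdeal S).FG

/-- Invertibility of fractional ideals of Dedekind domains. -/
def StA6 : Prop := ∀ (R : Subring ℂ), IsDedekindDomain R → ∀ I : Submodule R ℂ, I.FG → I ≠ ⊥ →
  (∃ r : R, r ≠ 0 ∧ ∀ c ∈ I, ∃ s : R, (r : ℂ) * c = s) → IsUnit I

/-! ### Part B: Gram determinants -/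

/-- Anti-triangular block matrices. -/
def StB2 : Prop := ∀ (κ : Type) [Fintype κ] [DecidableEq κ] (m : ℕ) (s : ℤ),
  (s = 1 ∨ s = -1) → ∀ (G : Matrix (Fin m × κ) (Fin m × κ) ℂ) (G₀ : Matrix κ κ ℂ),
  (∀ (i j : Fin m) (a b : κ), (i : ℕ) + j + 1 < m → G (i, a) (j, b) = 0) →
  (∀ (i j : Fin m) (a b : κ), (i : ℕ) + j + 1 = m → G (i, a) (j, b) = (s : ℂ) * G₀ a b) →
  ‖G.det‖ = ‖G₀.det‖ ^ m

/-! ### Part C: frames -/

/-- The coordinates of the elements of `L` in the family `e`. -/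
noncomputable def rows {R : Subring ℂ} {ι W : Type} [Fintype ι] [AddCommGroup W] [Module ℂ W]
    (e : ι → W) (L : Submodule R W) : Submodule R (ι → ℂ) :=
  L.comap ((Fintype.linearCombination ℂ e).restrictScalars R)

/-- `e` is a basis of the complex span of `L`. -/
def IsFrame {R : Subring ℂ} {ι W : Type} [AddCommGroup W] [Module ℂ W]
    (L : Submodule R W) (e : ι → W) : Prop :=
  LinearIndependent ℂ e ∧
    Submodule.span ℂ (Set.range e) = Submodule.span ℂ (L : Set W)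

/-- The hermitian Gram matrix. -/
noncomputable def gram (N : HodgeLattice) {ι : Type} (e : ι → ℂ ⊗[ℤ] N.V) : Matrix ι ι ℂ :=
  Matrix.of fun i j => N.form.baseChange ℂ (e i) (conj N.V (e j))

/-- A functorial `R`-lattice in the complexifications of all Hodge lattices. -/
structure LatFunctor (R : Subring ℂ) where
  L : (N : HodgeLattice) → Submodule R (ℂ ⊗[ℤ] N.V)
  map : ∀ (N M : HodgeLattice) (f : N.V →ₗ[ℤ] M.V), IsHodge N M f →
    ∀ x ∈ L N, f.baseChange ℂ x ∈ L M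
  nondeg : ∀ (N : HodgeLattice), ∀ x ∈ Submodule.span ℂ (L N : Set (ℂ ⊗[ℤ] N.V)),
    (∀ y ∈ L N, N.form.baseChange ℂ x (conj N.V y) = 0) → x = 0
  inv : ∀ N : HodgeLattice, ∃ (n : ℕ) (e : Fin n → ℂ ⊗[ℤ] N.V), IsFrame (L N) e ∧
    IsUnit (detIdeal (rows e (L N)))

/-- The common form of the three relations. -/
def Gen (s : ℤ) (m : ℕ) (A N M : HodgeLattice) : Prop :=
  ∃ (a : A.V →ₗ[ℤ] M.V) (b : Fin m → N.V →ₗ[ℤ] M.V), IsHodge A M a ∧ (∀ i, IsHodge N M (b i)) ∧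
    Function.Bijective (fun z : A.V × (Fin m → N.V) => a z.1 + ∑ i, b i (z.2 i)) ∧
    (∀ x y, M.form (a x) (a y) = A.form x y) ∧
    (∀ i x y, M.form (a x) (b i y) = 0) ∧
    (∀ i j : Fin m, (i : ℕ) + j + 1 < m → ∀ x y, M.form (b i x) (b j y) = 0) ∧
    (∀ i j : Fin m, (i : ℕ) + j + 1 = m → ∀ x y, M.form (b i x) (b j y) = s * N.form x y)

/-- The projections of a direct sum are Hodge maps. -/
def StC1 : Prop := ∀ (m : ℕ) (A N M : HodgeLattice) (a : A.V →ₗ[ℤ] M.V)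
  (b : Fin m → N.V →ₗ[ℤ] M.V), IsHodge A M a → (∀ i, IsHodge N M (b i)) →
  Function.Bijective (fun z : A.V × (Fin m → N.V) => a z.1 + ∑ i, b i (z.2 i)) →
  ∃ (p : M.V →ₗ[ℤ] A.V) (r : Fin m → M.V →ₗ[ℤ] N.V), IsHodge M A p ∧ (∀ i, IsHodge M N (r i)) ∧
    (∀ x, p (a x) = x) ∧ (∀ i y, p (b i y) = 0) ∧ (∀ i x, r i (a x) = 0) ∧
    (∀ i j y, r i (b j y) = if i = j then y else 0) ∧
    (∀ x, x = a (p x) + ∑ i, b i (r i x))

/-- Frames of the pieces give a frame of the sum. -/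
def StC2 : Prop := ∀ (R : Subring ℂ) (F : LatFunctor R) (s : ℤ), (s = 1 ∨ s = -1) →
  ∀ (m : ℕ) (A N M : HodgeLattice), Gen s m A N M →
  ∀ (ι κ : Type) [Fintype ι] [DecidableEq ι] [Fintype κ] [DecidableEq κ]
    (e : ι → ℂ ⊗[ℤ] A.V) (e' : κ → ℂ ⊗[ℤ] N.V), IsFrame (F.L A) e → IsFrame (F.L N) e' →
  ∃ e'' : ι ⊕ (Fin m × κ) → ℂ ⊗[ℤ] M.V, IsFrame (F.L M) e'' ∧
    detIdeal (rows e'' (F.L M)) = detIdeal (rows e (F.L A)) * detIdeal (rows e' (F.L N)) ^ m ∧
    ‖(gram M e'').det‖ = ‖(gram A e).det‖ * ‖(gram N e').det‖ ^ m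

/-- Comparison of two frames. -/
def StC3 : Prop := ∀ (R : Subring ℂ) (N : HodgeLattice) (L : Submodule R (ℂ ⊗[ℤ] N.V))
  (ι κ : Type) [Fintype ι] [DecidableEq ι] [Fintype κ] [DecidableEq κ]
  (e : ι → ℂ ⊗[ℤ] N.V) (e' : κ → ℂ ⊗[ℤ] N.V), IsFrame L e → IsFrame L e' →
  Fintype.card ι = Fintype.card κ ∧ ∃ c : ℂ, c ≠ 0 ∧
    detIdeal (rows e' L) = Submodule.span R {c} * detIdeal (rows e L) ∧
    ‖(gram N e).det‖ = ‖c‖ ^ 2 * ‖(gram N e').det‖

/-- The Gram determinant of a frame is not zero. -/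
def StC4 : Prop := ∀ (R : Subring ℂ) (F : LatFunctor R) (N : HodgeLattice)
  (ι : Type) [Fintype ι] [DecidableEq ι] (e : ι → ℂ ⊗[ℤ] N.V), IsFrame (F.L N) e →
  (gram N e).det ≠ 0

/-! ### Part D: the measure -/

/-- The main result on functorial lattices: the determinant ideal together with the Gram
determinant is an invariant of L-equivalence. -/
def StD : Prop := ∀ (R : Subring ℂ) (F : LatFunctor R) (C : EvenCohomology) (X Y : C.Var),
  C.LEquivalent X Y → ∀ (ι κ : Type) [Fintype ι] [DecidableEq ι] [Fintype κ] [DecidableEq κ]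
    (e : ι → ℂ ⊗[ℤ] (C.H X).V) (e' : κ → ℂ ⊗[ℤ] (C.H Y).V),
    IsFrame (F.L (C.H X)) e → IsFrame (F.L (C.H Y)) e' →
  Fintype.card ι = Fintype.card κ ∧ ∃ c : ℂ, c ≠ 0 ∧
    detIdeal (rows e' (F.L (C.H Y))) = Submodule.span R {c} * detIdeal (rows e (F.L (C.H X))) ∧
    ‖(gram (C.H X) e).det‖ = ‖c‖ ^ 2 * ‖(gram (C.H Y) e').det‖

/-- The zero lattice. -/
def StD0 : Prop := ∀ (s : ℤ) (m : ℕ) (N M : HodgeLattice), Bundle s m N M →
  ∃ Z : HodgeLattice, Subsingleton Z.V ∧ Gen s m Z N M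

/-- The invariant with values in an abelian group. -/
def StD1 : Prop := ∀ (R : Subring ℂ) (F : LatFunctor R),
  ∃ (G : Type) (_ : AddCommGroup G) (δ : HodgeLattice → G) (n : HodgeLattice → ℤ),
    (∀ (s : ℤ) (m : ℕ) (A N M : HodgeLattice), (s = 1 ∨ s = -1) → Gen s m A N M →
      δ M = δ A + m • δ N ∧ n M = n A + m * n N) ∧
    (∀ N : HodgeLattice, Subsingleton N.V → δ N = 0 ∧ n N = 0) ∧
    (∀ N M : HodgeLattice, δ N = δ M → n N = n M →
      ∀ (ι κ : Type) [Fintype ι] [DecidableEq ι] [Fintype κ] [DecidableEq κ]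
        (e : ι → ℂ ⊗[ℤ] N.V) (e' : κ → ℂ ⊗[ℤ] M.V), IsFrame (F.L N) e → IsFrame (F.L M) e' →
      Fintype.card ι = Fintype.card κ ∧ ∃ c : ℂ, c ≠ 0 ∧
        detIdeal (rows e' (F.L M)) = Submodule.span R {c} * detIdeal (rows e (F.L N)) ∧
        ‖(gram N e).det‖ = ‖c‖ ^ 2 * ‖(gram M e').det‖)

/-! ### Part E: duality in Hodge lattices -/

/-- A source of Hodge maps: a subgroup of a Hodge lattice. `f : S → N` is a Hodge map. -/
def IsHodgeFrom (X : HodgeLattice) (S : Submodule ℤ X.V) (N : HodgeLattice)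
    (f : S →ₗ[ℤ] N.V) : Prop :=
  ∀ k (x : ℂ ⊗[ℤ] S), S.subtype.baseChange ℂ x ∈ X.comp k → f.baseChange ℂ x ∈ N.comp k

/-- If `ψ` is orthogonal like a Hodge form and `f` is a Hodge map on `S`, the map `g` with
`(x, g t) = ψ (x, f t)` is a Hodge map. -/
def StE1 : Prop := ∀ (X : HodgeLattice) (S : Submodule ℤ X.V) (N : HodgeLattice)
  (ψ : LinearMap.BilinForm ℤ N.V),
  (∀ k l, k + l ≠ 0 → ∀ x ∈ N.comp k, ∀ y ∈ N.comp l, ψ.baseChange ℂ x y = 0) →
  ∀ f : S →ₗ[ℤ] N.V, IsHodgeFrom X S N f →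
  ∃ g : S →ₗ[ℤ] N.V, IsHodgeFrom X S N g ∧
    (∀ (x : N.V) (t : S), N.form x (g t) = ψ x (f t)) ∧
    ∀ (x : ℂ ⊗[ℤ] N.V) (t : ℂ ⊗[ℤ] S),
      N.form.baseChange ℂ x (g.baseChange ℂ t) = ψ.baseChange ℂ x (f.baseChange ℂ t)

/-- A functional of type `(0, 0)` is given by an algebraic class. -/
def StE2 : Prop := ∀ (N : HodgeLattice) (l : N.V →ₗ[ℤ] ℤ),
  (∀ k, k ≠ 0 → ∀ x ∈ N.comp k, l.baseChange ℂ x = 0) →
  ∃ y ∈ algebraic N, ∀ x, l x = N.form x y

/-! ### Part F: transcendental lattices of K3 type -/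

/-- The complexification of the transcendental lattice. -/
def StF1 : Prop := ∀ N : HodgeLattice, Function.Injective (incl N) ∧
  ∀ x : ℂ ⊗[ℤ] N.V, (∃ t, incl N t = x) ↔
    ∀ y ∈ algebraic N, N.form.baseChange ℂ x (1 ⊗ₜ y) = 0

/-- `ω` is a generator of the part of type `2` of the transcendental lattice. -/
def IsPeriod (N : HodgeLattice) (ω : ℂ ⊗[ℤ] (transcendental N)) : Prop :=
  incl N ω ∈ N.comp 2 ∧ incl N ω ≠ 0

/-- Existence of `ω`, and nondegeneracy. -/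
def StF2 : Prop := ∀ N : HodgeLattice, IsK3 N →
  (∃ ω, IsPeriod N ω) ∧
  (∀ t : transcendental N, (∀ t' : transcendental N, N.form t t' = 0) → t = 0) ∧
  (∀ ω, IsPeriod N ω → ∀ t : transcendental N, N.form.baseChange ℂ (1 ⊗ₜ (t : N.V)) (incl N ω) = 0 →
    t = 0)

/-- Irreducibility: a homomorphism which kills `ω` is zero. -/
def StF3 : Prop := ∀ N : HodgeLattice, IsK3 N → ∀ ω, IsPeriod N ω →
  ∀ (P : Type) [AddCommGroup P] [Module.Free ℤ P] [Module.Finite ℤ P]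
    (f : transcendental N →ₗ[ℤ] P), f.baseChange ℂ ω = 0 → f = 0

/-- A Hodge map from the transcendental lattice of a K3 surface to any Hodge lattice has values
in the transcendental lattice. -/
def StF4 : Prop := ∀ N M : HodgeLattice, IsK3 N → ∀ f : transcendental N →ₗ[ℤ] M.V,
  IsHodgeFrom N (transcendental N) M f → ∀ t, f t ∈ transcendental M

/-- Hodge forms on the transcendental lattice. -/
def IsHodgeForm (N : HodgeLattice) (β : LinearMap.BilinForm ℤ (transcendental N)) : Prop :=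
  ∀ k l, k + l ≠ 0 → ∀ x y : ℂ ⊗[ℤ] (transcendental N), incl N x ∈ N.comp k → incl N y ∈ N.comp l →
    β.baseChange ℂ x y = 0

/-- A Hodge form is a multiple of the intersection form. -/
def StF5 : Prop := ∀ N : HodgeLattice, IsK3 N → ∀ ω, IsPeriod N ω →
  ∀ β : LinearMap.BilinForm ℤ (transcendental N), IsHodgeForm N β →
  (∃ d : ℤ, d ≠ 0 ∧ ∃ c ∈ multipliers N, (d : ℂ) * β.baseChange ℂ ω (conj _ ω) =
    c * N.form.baseChange ℂ (incl N ω) (conj _ (incl N ω))) ∧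
  (β.baseChange ℂ ω (conj _ ω) = 0 → β = 0)

/-- The ring of multipliers is a finitely generated abelian group. -/
def StF6 : Prop := ∀ N : HodgeLattice, IsK3 N →
  (multipliers N).toAddSubgroup.FG

/-- The field of fractions of the ring of multipliers. -/
def multField (N : HodgeLattice) : Subring ℂ where
  carrier := {c | ∃ n : ℤ, n ≠ 0 ∧ (n : ℂ) * c ∈ multipliers N}
  mul_mem' := by
    rintro a b ⟨n, hn, ha⟩ ⟨m, hm, hb⟩
    refine ⟨n * m, mul_ne_zero hn hm, ?_⟩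
    have : ((n * m : ℤ) : ℂ) * (a * b) = (n * a) * (m * b) := by push_cast; ring
    rw [this]; exact mul_mem ha hb
  one_mem' := ⟨1, one_ne_zero, by simpa using one_mem _⟩
  add_mem' := by
    rintro a b ⟨n, hn, ha⟩ ⟨m, hm, hb⟩
    refine ⟨n * m, mul_ne_zero hn hm, ?_⟩
    have : ((n * m : ℤ) : ℂ) * (a + b) = (m : ℂ) * (n * a) + (n : ℂ) * (m * b) := by
      push_cast; ring
    rw [this]
    exact add_mem (mul_mem (intCast_mem _ m) ha) (mul_mem (intCast_mem _ n) hb)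
  zero_mem' := ⟨1, one_ne_zero, by simpa using zero_mem _⟩
  neg_mem' := by
    rintro a ⟨n, hn, ha⟩
    exact ⟨n, hn, by simpa using neg_mem ha⟩

/-- Both rings are Dedekind domains. -/
def StF7 : Prop := ∀ N : HodgeLattice, IsK3 N →
  (IsIntegrallyClosed (multipliers N) → IsDedekindDomain (multipliers N)) ∧
  IsDedekindDomain (multField N)

/-! ### Part G: the functor of Hodge maps from the transcendental lattice -/

/-- The `R`-span of the vectors `f ω`, where `f` is a Hodge map from the transcendental lattice of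
`X` to `N`. -/
noncomputable def homLat (R : Subring ℂ) (X : HodgeLattice) (ω : ℂ ⊗[ℤ] (transcendental X))
    (N : HodgeLattice) : Submodule R (ℂ ⊗[ℤ] N.V) :=
  Submodule.span R {v | ∃ f : transcendental X →ₗ[ℤ] N.V, IsHodgeFrom X (transcendental X) N f ∧
    f.baseChange ℂ ω = v}

/-- `homLat` is functorial. -/
def StG1 : Prop := ∀ (R : Subring ℂ) (X : HodgeLattice) (ω : ℂ ⊗[ℤ] (transcendental X))
  (N M : HodgeLattice) (f : N.V →ₗ[ℤ] M.V), IsHodge N M f →
  ∀ x ∈ homLat R X ω N, f.baseChange ℂ x ∈ homLat R X ω M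

/-- `homLat` is nondegenerate. -/
def StG2 : Prop := ∀ (R : Subring ℂ) (X : HodgeLattice), IsK3 X → ∀ ω, IsPeriod X ω →
  ∀ (N : HodgeLattice), ∀ x ∈ Submodule.span ℂ (homLat R X ω N : Set (ℂ ⊗[ℤ] N.V)),
    (∀ y ∈ homLat R X ω N, N.form.baseChange ℂ x (conj N.V y) = 0) → x = 0

/-- `homLat` has invertible determinant ideals. -/
def StG3 : Prop := ∀ (R : Subring ℂ) (X : HodgeLattice), IsK3 X → ∀ ω, IsPeriod X ω →
  IsDedekindDomain R → multipliers X ≤ R → R ≤ multField X →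
  ∀ N : HodgeLattice, ∃ (n : ℕ) (e : Fin n → ℂ ⊗[ℤ] N.V), IsFrame (homLat R X ω N) e ∧
    IsUnit (detIdeal (rows e (homLat R X ω N)))

/-! ### Part H: the functor of transcendental lattices -/

/-- The transcendental lattice as a lattice over the ring `⊥` of integers. -/
def transLat (N : HodgeLattice) : Submodule (⊥ : Subring ℂ) (ℂ ⊗[ℤ] N.V) :=
  Submodule.span _ {v | ∃ t : transcendental N, (1 : ℂ) ⊗ₜ[ℤ] (t : N.V) = v}

def StH1 : Prop := ∀ (N M : HodgeLattice) (f : N.V →ₗ[ℤ] M.V), IsHodge N M f →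
  ∀ x ∈ transLat N, f.baseChange ℂ x ∈ transLat M

def StH2 : Prop := ∀ (N : HodgeLattice), ∀ x ∈ Submodule.span ℂ (transLat N : Set (ℂ ⊗[ℤ] N.V)),
    (∀ y ∈ transLat N, N.form.baseChange ℂ x (conj N.V y) = 0) → x = 0

/-- An integral basis of the transcendental lattice is a frame with determinant ideal `1`. -/
def StH3 : Prop := ∀ (N : HodgeLattice) (ι : Type) [Fintype ι] [DecidableEq ι]
  (t : Module.Basis ι ℤ (transcendental N)),
  IsFrame (transLat N) (fun i => (1 : ℂ) ⊗ₜ[ℤ] (t i : N.V)) ∧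
    detIdeal (rows (fun i => (1 : ℂ) ⊗ₜ[ℤ] (t i : N.V)) (transLat N)) = 1

/-! ### Part I: conclusions -/

/-- L-equivalent K3 surfaces: a vector of the same norm in the lattice of `Y`. -/
def StI1 : Prop := ∀ (R : Subring ℂ) (C : EvenCohomology) (X Y : C.Var), IsK3 (C.H X) →
  IsK3 (C.H Y) → C.LEquivalent X Y → ∀ ω, IsPeriod (C.H X) ω → IsDedekindDomain R →
  multipliers (C.H X) ≤ R → R ≤ multField (C.H X) →
  ∃ v ∈ homLat R (C.H X) ω (C.H Y), (C.H Y).form.baseChange ℂ v (conj _ v) =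
    (C.H X).form.baseChange ℂ (incl _ ω) (conj _ (incl _ ω))

/-- L-equivalent varieties have transcendental lattices of the same discriminant. -/
def StI2 : Prop := ∀ (C : EvenCohomology) (X Y : C.Var), C.LEquivalent X Y →
  ∀ (ι κ : Type) [Fintype ι] [DecidableEq ι] [Fintype κ] [DecidableEq κ]
    (t : Module.Basis ι ℤ (transcendental (C.H X))) (t' : Module.Basis κ ℤ (transcendental (C.H Y))),
  Fintype.card ι = Fintype.card κ ∧
    (Matrix.of fun i j => (C.H X).form (t i) (t j)).det.natAbs =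
      (Matrix.of fun i j => (C.H Y).form (t' i) (t' j)).det.natAbs ∧
    (Matrix.of fun i j => (C.H X).form (t i) (t j)).det ≠ 0

/-- From a vector to a map. -/
def StI3 : Prop := ∀ (N M : HodgeLattice), IsK3 N → IsK3 M → ∀ ω, IsPeriod N ω →
  ∀ (n : ℕ), 0 < n → ∀ f : transcendental N →ₗ[ℤ] M.V, IsHodgeFrom N (transcendental N) M f →
  M.form.baseChange ℂ (f.baseChange ℂ ω) (conj _ (f.baseChange ℂ ω)) =
    (n : ℂ) ^ 2 * N.form.baseChange ℂ (incl _ ω) (conj _ (incl _ ω)) →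
  ∃ g : transcendental N →ₗ[ℤ] transcendental M, (∀ x, (g x : M.V) = f x) ∧ IsHodgeTrans N M g ∧
    Function.Injective g ∧ (∃ m : ℕ, 0 < m ∧ ∀ y : transcendental M, ∃ x : transcendental N, g x = m • y) ∧
    ∀ x y : transcendental N, M.form (g x) (g y) = (n : ℤ) ^ 2 * N.form x y

/-- The inverse of a bijective Hodge map of transcendental lattices is a Hodge map. -/
def StI4 : Prop := ∀ (N M : HodgeLattice), ∀ e : transcendental N ≃ₗ[ℤ] transcendental M,
  IsHodgeTrans N M e → IsHodgeTrans M N e.symm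

/-- The elements of `homLat` over the ring of multipliers and its field of fractions. -/
def StI5 : Prop := ∀ (X N : HodgeLattice), IsK3 X → ∀ ω, IsPeriod X ω →
  (∀ v ∈ homLat (multipliers X) X ω N, ∃ f : transcendental X →ₗ[ℤ] N.V, IsHodgeFrom X (transcendental X) N f ∧
    f.baseChange ℂ ω = v) ∧
  (∀ v ∈ homLat (multField X) X ω N, ∃ (n : ℕ) (f : transcendental X →ₗ[ℤ] N.V), 0 < n ∧
    IsHodgeFrom X (transcendental X) N f ∧ f.baseChange ℂ ω = (n : ℂ) • v)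

end Pool.Agent.Lib.MP0cb87d
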