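import Pool.Agent.Lib.MP_0cb87d_ag.Stmts

/-! L-equivalent varieties have transcendental lattices of the same discriminant. -/

namespace Pool.Agent.Lib.MP0cb87d

open TensorProduct

namespace I2aux

lemma mem_bot_iff {c : ℂ} : c ∈ (⊥ : Subring ℂ) ↔ ∃ n : ℤ, (n : ℂ) = c := Subring.mem_bot

lemma conj_one_tmul {V : Type} [AddCommGroup V] (v : V) :
    conj V ((1 : ℂ) ⊗ₜ[ℤ] v) = (1 : ℂ) ⊗ₜ[ℤ] v := by
  have h : conj V ((1 : ℂ) ⊗ₜ[ℤ] v) = ((starRingEnd ℂ) 1) ⊗ₜ[ℤ] v :=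
    LinearMap.rTensor_tmul V (starRingEnd ℂ).toAddMonoidHom.toIntLinearMap v 1
  rw [h, map_one]

lemma baseChange_one (N : HodgeLattice) (x y : N.V) :
    N.form.baseChange ℂ ((1 : ℂ) ⊗ₜ[ℤ] x) ((1 : ℂ) ⊗ₜ[ℤ] y) = (N.form x y : ℂ) := by
  rw [LinearMap.BilinForm.baseChange_tmul]
  simp

lemma gram_one (N : HodgeLattice) {ι : Type} [Fintype ι] [DecidableEq ι] (v : ι → N.V) :
    (gram N fun i => (1 : ℂ) ⊗ₜ[ℤ] v i).det =
      ((Matrix.of fun i j => N.form (v i) (v j)).det : ℤ) := by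
  have h : (gram N fun i => (1 : ℂ) ⊗ₜ[ℤ] v i) =
      (Int.castRingHom ℂ).mapMatrix (Matrix.of fun i j => N.form (v i) (v j)) := by
    ext i j
    simp only [gram, Matrix.of_apply, RingHom.mapMatrix_apply, Matrix.map_apply]
    rw [conj_one_tmul, baseChange_one]
    rfl
  rw [h, ← RingHom.map_det]
  rfl

/-- the functor of transcendental lattices -/
noncomputable def F (h1 : StH1) (h2 : StH2) (h3 : StH3) : LatFunctor (⊥ : Subring ℂ) where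
  L := transLat
  map := h1
  nondeg := h2
  inv := fun N => by
    have hfree : Module.Free ℤ (transcendental N) := inferInstance
    exact ⟨_, _, (h3 N _ (Module.finBasis ℤ (transcendental N))).1, by
      rw [(h3 N _ (Module.finBasis ℤ (transcendental N))).2]
      exact isUnit_one⟩

lemma norm_eq_one {c : ℂ} (h : (1 : Submodule (⊥ : Subring ℂ) ℂ) =
    Submodule.span (⊥ : Subring ℂ) {c} * 1) : ‖c‖ = 1 := by
  rw [mul_one] at h
  have hc : c ∈ (1 : Submodule (⊥ : Subring ℂ) ℂ) := by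
    rw [h]
    exact Submodule.mem_span_singleton_self c
  have h1 : (1 : ℂ) ∈ Submodule.span (⊥ : Subring ℂ) {c} := by
    rw [← h]
    exact Submodule.one_le.1 le_rfl
  obtain ⟨⟨r, hr⟩, hr'⟩ := Submodule.mem_one.1 hc
  obtain ⟨⟨s, hs⟩, hs'⟩ := Submodule.mem_span_singleton.1 h1
  obtain ⟨m, rfl⟩ := mem_bot_iff.1 hr
  obtain ⟨n, rfl⟩ := mem_bot_iff.1 hs
  have e1 : (m : ℂ) = c := hr'
  have e2 : (n : ℂ) * c = 1 := hs'
  rw [← e1] at e2 ⊢
  have e3 : n * m = 1 := by exact_mod_cast e2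
  have e4 : IsUnit m := IsUnit.of_mul_eq_one_right n e3
  rcases Int.isUnit_iff.1 e4 with h5 | h5
  · rw [h5]; simp
  · rw [h5]; simp

end I2aux

theorem stI2 (hD : StD) (h4 : StC4) (h1 : StH1) (h2 : StH2) (h3 : StH3) : StI2 := by
  intro C X Y hXY ι κ _ _ _ _ t t'
  obtain ⟨fX, dX⟩ := h3 (C.H X) ι t
  obtain ⟨fY, dY⟩ := h3 (C.H Y) κ t'
  obtain ⟨hcard, c, hc, hdet, hgram⟩ := hD _ (I2aux.F h1 h2 h3) C X Y hXY ι κ
    (fun i => (1 : ℂ) ⊗ₜ[ℤ] (t i : (C.H X).V)) (fun i => (1 : ℂ) ⊗ₜ[ℤ] (t' i : (C.H Y).V)) fX fY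
  have hne := h4 _ (I2aux.F h1 h2 h3) (C.H X) ι
    (fun i => (1 : ℂ) ⊗ₜ[ℤ] (t i : (C.H X).V)) fX
  have hdet' : detIdeal (rows (fun i => (1 : ℂ) ⊗ₜ[ℤ] (t' i : (C.H Y).V)) (transLat (C.H Y))) =
      Submodule.span (⊥ : Subring ℂ) {c} *
        detIdeal (rows (fun i => (1 : ℂ) ⊗ₜ[ℤ] (t i : (C.H X).V)) (transLat (C.H X))) := hdet
  rw [dX, dY] at hdet'
  have hnorm := I2aux.norm_eq_one hdet'
  rw [hnorm, one_pow, one_mul, I2aux.gram_one, I2aux.gram_one] at hgram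
  rw [I2aux.gram_one] at hne
  refine ⟨hcard, ?_, ?_⟩
  · have h5 : ∀ n : ℤ, ‖(n : ℂ)‖ = (n.natAbs : ℝ) := by
      intro n
      rw [Complex.norm_intCast, Nat.cast_natAbs, Int.cast_abs]
    rw [h5, h5] at hgram
    exact_mod_cast hgram
  · exact fun h => hne (by rw [h, Int.cast_zero])

end Pool.Agent.Lib.MP0cb87d
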